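import Mathlib
import Pool.Agent.H527.F.F5

/-! Pairs of primes `a + l q`, `a + l' q`, `a ≤ R`, on average over `a` and `q`, with `R` larger than `Q`. -/

set_option autoImplicit false

namespace Pool.Agent.H527.G

open Finset Pool.Agent.H527.AP Pool.Agent.H527.M Pool.Agent.H527.N
open Pool.Agent.H527.F (Ip)

/-- the bound for the primes which are used -/
def Xb (Q Y R : ℕ) : ℕ := (Y + 1) * Q + R

/-- the number of pairs `(q, a)`, `a ≤ R`, for which `a + l q` and `a + l' q` are primes -/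
def TR (Q g W R l l' : ℕ) : ℕ :=
  ∑ q ∈ Qs Q g W, ((rows W q 0 R).filter (fun a => (a + l * q).Prime ∧ (a + l' * q).Prime)).card

theorem Ip_eq {Q R l p : ℕ} (hl : 1 ≤ l) (hp : 1 ≤ p) :
    Ip Q R l p = Ioc (max Q ((p - R - 1) / l)) (min (2 * Q) ((p - 1) / l)) := by
  ext q
  unfold Pool.Agent.H527.F.Ip
  simp only [mem_filter, mem_Ioc, max_lt_iff, le_min_iff]
  have h1 : q ≤ (p - 1) / l ↔ l * q < p := by
    rw [Nat.le_div_iff_mul_le (by omega), mul_comm]; omega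
  have h2 : Q < q → ((p - R - 1) / l < q ↔ p ≤ l * q + R) := by
    intro hq
    have hlq : 1 ≤ q * l := Nat.mul_pos (by omega) (by omega)
    rw [Nat.div_lt_iff_lt_mul (by omega), mul_comm l q]
    omega
  rw [h1]
  constructor
  · rintro ⟨⟨a1, a2⟩, a3, a4⟩
    exact ⟨⟨a1, (h2 a1).2 a4⟩, a2, a3⟩
  · rintro ⟨⟨a1, a4⟩, a2, a3⟩
    exact ⟨⟨a1, a2⟩, a3, (h2 a1).1 a4⟩

/-- the moduli for a given prime `p` -/
def Mp (Q g W R l r p : ℕ) : Finset ℕ :=
  (Ip Q R l p).filter (fun q => g ∣ q ∧ q.Coprime W ∧ p ≡ l * q [MOD W] ∧ (p + r * q).Prime)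

theorem Mp_class {Q g W R l r p q q0 : ℕ} (hgW : g.Coprime W) (hlW : l.Coprime W)
    (hq : q ∈ Mp Q g W R l r p) (hq0 : q0 ∈ Mp Q g W R l r p) : p + r * q ≡ p + r * q0 [MOD r * (g * W)] := by
  unfold Mp at hq hq0
  rw [mem_filter] at hq hq0
  obtain ⟨_, hg1, _, hW1, _⟩ := hq
  obtain ⟨_, hg2, _, hW2, _⟩ := hq0
  have h1 : q ≡ q0 [MOD g] := ((Nat.modEq_zero_iff_dvd.2 hg1)).trans (Nat.modEq_zero_iff_dvd.2 hg2).symm
  have h2 : l * q ≡ l * q0 [MOD W] := hW1.symm.trans hW2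
  have h3 : q ≡ q0 [MOD W] := Nat.ModEq.cancel_left_of_coprime (by rw [Nat.gcd_comm]; exact hlW) h2
  have h4 : q ≡ q0 [MOD g * W] := (Nat.modEq_and_modEq_iff_modEq_mul hgW).1 ⟨h1, h3⟩
  exact Nat.ModEq.add_left p (Nat.ModEq.mul_left' r h4)

theorem Mp_card {Q g W R l r p Y : ℕ} {Er : ℝ} (hgW : g.Coprime W) (hlW : l.Coprime W) (hl : 1 ≤ l) (hr : 1 ≤ r)
    (hlr : l + r ≤ Y) (hQ : 2 ≤ Q) (hEr : 0 ≤ Er) (hg : 0 < g) (hW : 0 < W) (hrW : r * (g * W) ≤ Q) (hp : l * Q < p)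
    (h : Hpsi (r * (g * W)) Q (Xb Q Y R) Er) :
    ((Mp Q g W R l r p).card : ℝ) * Real.log Q ≤
      (r : ℝ) / (Nat.totient (r * (g * W)) : ℝ) * ((Ip Q R l p).card : ℝ) + 2 * Er := by
  classical
  have hlQ : 1 * Q ≤ l * Q := Nat.mul_le_mul_right Q hl
  rcases (Mp Q g W R l r p).eq_empty_or_nonempty with h0 | ⟨q0, hq0⟩
  · rw [h0]
    simp only [card_empty, Nat.cast_zero, zero_mul]
    positivity
  obtain ⟨u1, hu1⟩ : ∃ u1, u1 = max Q ((p - R - 1) / l) := ⟨_, rfl⟩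
  obtain ⟨u2, hu2⟩ : ∃ u2, u2 = min (2 * Q) ((p - 1) / l) := ⟨_, rfl⟩
  have hI : Ip Q R l p = Ioc u1 u2 := by rw [hu1, hu2]; exact Ip_eq hl (by omega)
  have hu1Q : Q ≤ u1 := by rw [hu1]; exact le_max_left _ _
  have hu2Q : u2 ≤ 2 * Q := by rw [hu2]; exact min_le_left _ _
  have hq0' := hq0
  unfold Mp at hq0'
  rw [mem_filter, hI, mem_Ioc] at hq0'
  have hu12 : u1 ≤ u2 := by omega
  have hP0 := hq0'.2.2.2.2
  -- the prime in the class
  have hrgW : 0 < r * (g * W) := Nat.mul_pos (by omega) (Nat.mul_pos hg hW)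
  have hcop : (p + r * q0).Coprime (r * (g * W)) := by
    rw [Nat.Prime.coprime_iff_not_dvd hP0]
    intro hd
    have := Nat.le_of_dvd hrgW hd
    have : 1 ≤ r * q0 := Nat.mul_pos (by omega) (by omega)
    omega
  have hinj : (Mp Q g W R l r p).card ≤ ((Ioc (p + r * u1) (p + r * u2)).filter
      (fun P => P.Prime ∧ P ≡ p + r * q0 [MOD r * (g * W)])).card := by
    apply card_le_card_of_injOn (fun q => p + r * q)
    · intro q hq
      rw [mem_coe] at hq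
      have hq' := hq
      unfold Mp at hq'
      rw [mem_filter, hI, mem_Ioc] at hq'
      rw [mem_coe, mem_filter, mem_Ioc]
      beta_reduce
      refine ⟨⟨?_, ?_⟩, hq'.2.2.2.2, Mp_class hgW hlW hq hq0⟩
      · have := Nat.mul_lt_mul_of_pos_left hq'.1.1 (show 0 < r by omega)
        omega
      · have := Nat.mul_le_mul_left r hq'.1.2
        omega
    · intro q _ q' _ h1
      simp only at h1
      have h2 : r * q = r * q' := by omega
      exact Nat.eq_of_mul_eq_mul_left (by omega) h2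
  have hV : p + r * u2 ≤ 2 * Xb Q Y R := by
    have h1 : p ≤ l * (2 * Q) + R := by
      have h2 : (p - R - 1) / l < 2 * Q := by
        have : (p - R - 1) / l ≤ u1 := by rw [hu1]; exact le_max_right _ _
        omega
      rw [Nat.div_lt_iff_lt_mul (by omega)] at h2
      have h3 : l * (2 * Q) = 2 * Q * l := by ring
      omega
    have h2 : r * u2 ≤ r * (2 * Q) := Nat.mul_le_mul_left r hu2Q
    have h3 : (l + r) * (2 * Q) ≤ (Y + 1) * (2 * Q) := Nat.mul_le_mul_right _ (by omega)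
    have h4 : (l + r) * (2 * Q) = l * (2 * Q) + r * (2 * Q) := by ring
    have h5 : 2 * Xb Q Y R = (Y + 1) * (2 * Q) + 2 * R := by unfold Xb; ring
    omega
  have hUV : p + r * u1 ≤ p + r * u2 := by
    have := Nat.mul_le_mul_left r hu12
    omega
  have h1 := prime_le (U := p + r * u1) (V := p + r * u2) (W := r * (g * W)) (b := p + r * q0) (by omega) hUV
  have h2 := h (p + r * u1) (by omega) (by omega) (p + r * q0) hcop
  have h3 := h (p + r * u2) (by omega) hV (p + r * q0) hcop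
  rw [abs_le] at h2 h3
  have h4 : Real.log Q ≤ Real.log ((p + r * u1 : ℕ) : ℝ) := by
    apply Real.log_le_log (by exact_mod_cast (by omega : 0 < Q))
    exact_mod_cast (by omega : Q ≤ p + r * u1)
  have h5 : ((Mp Q g W R l r p).card : ℝ) ≤ (((Ioc (p + r * u1) (p + r * u2)).filter
      (fun P => P.Prime ∧ P ≡ p + r * q0 [MOD r * (g * W)])).card : ℝ) := by exact_mod_cast hinj
  have hlogQ : 0 ≤ Real.log Q := Real.log_natCast_nonneg Q
  have h6 : ((Mp Q g W R l r p).card : ℝ) * Real.log Q ≤ (((Ioc (p + r * u1) (p + r * u2)).filter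
      (fun P => P.Prime ∧ P ≡ p + r * q0 [MOD r * (g * W)])).card : ℝ) * Real.log ((p + r * u1 : ℕ) : ℝ) :=
    mul_le_mul h5 h4 hlogQ (Nat.cast_nonneg _)
  have h7 : (r : ℝ) / (Nat.totient (r * (g * W)) : ℝ) * ((Ip Q R l p).card : ℝ) =
      ((p + r * u2 : ℕ) : ℝ) / (Nat.totient (r * (g * W)) : ℝ) - ((p + r * u1 : ℕ) : ℝ) / (Nat.totient (r * (g * W)) : ℝ) := by
    rw [hI, Nat.card_Ioc, Nat.cast_sub hu12]
    push_cast
    ring
  linarith [h2.1, h2.2, h3.1, h3.2]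

/-- exchange of the order -/
theorem TR_eq {Q g W R l l' : ℕ} (hl : l < l') :
    TR Q g W R l l' ≤ ∑ p ∈ (Ioc (l * Q) (l * (2 * Q) + R)).filter Nat.Prime, (Mp Q g W R l (l' - l) p).card := by
  classical
  have h1 : ∀ q ∈ Qs Q g W, ((rows W q 0 R).filter (fun a => (a + l * q).Prime ∧ (a + l' * q).Prime)).card ≤
      ∑ p ∈ (Ioc (l * Q) (l * (2 * Q) + R)).filter Nat.Prime,
        (if l * q < p ∧ p ≤ l * q + R ∧ p ≡ l * q [MOD W] ∧ (p + (l' - l) * q).Prime then 1 else 0) := by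
    intro q hq
    unfold Qs at hq
    rw [mem_filter, mem_Ioc] at hq
    rw [← card_filter]
    apply card_le_card_of_injOn (fun a => a + l * q)
    · intro a ha
      rw [mem_coe, mem_filter] at ha
      unfold rows at ha
      rw [mem_filter, mem_Ioc] at ha
      rw [mem_coe, mem_filter, mem_filter, mem_Ioc]
      beta_reduce
      have h2 : l * Q ≤ l * q := Nat.mul_le_mul_left l hq.1.1.le
      have h3 : l * q ≤ l * (2 * Q) := Nat.mul_le_mul_left _ hq.1.2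
      have h5 : l * q + (l' - l) * q = l' * q := by rw [← add_mul]; congr 1; omega
      refine ⟨⟨⟨by omega, by omega⟩, ha.2.1⟩, by omega, by omega, ?_, ?_⟩
      · have := (Nat.modEq_zero_iff_dvd.2 ha.1.2.1)
        have h6 := Nat.ModEq.add_right (l * q) this
        rwa [zero_add] at h6
      · rw [add_assoc, h5]
        exact ha.2.2
    · intro a _ a' _ h
      simp only at h
      omega
  unfold TR
  refine (sum_le_sum h1).trans ?_
  rw [sum_comm]
  apply sum_le_sum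
  intro p _
  rw [← card_filter]
  apply card_le_card
  intro q hq
  unfold Qs at hq
  rw [mem_filter, mem_filter] at hq
  unfold Mp Pool.Agent.H527.F.Ip
  rw [mem_filter, mem_filter]
  exact ⟨⟨hq.1.1, hq.2.1, hq.2.2.1⟩, hq.1.2.1, hq.1.2.2, hq.2.2.2.1, hq.2.2.2.2⟩

theorem sum_Ip {Q R l : ℕ} :
    ∑ p ∈ (Ioc (l * Q) (l * (2 * Q) + R)).filter Nat.Prime, (Ip Q R l p).card ≤
      ∑ q ∈ Ioc Q (2 * Q), blk 1 q 0 R l := by
  classical
  have h1 : ∀ p ∈ (Ioc (l * Q) (l * (2 * Q) + R)).filter Nat.Prime, (Ip Q R l p).card =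
      ∑ q ∈ Ioc Q (2 * Q), (if l * q < p ∧ p ≤ l * q + R then 1 else 0) := by
    intro p _
    unfold Pool.Agent.H527.F.Ip
    rw [card_filter]
  rw [sum_congr rfl h1, sum_comm]
  apply sum_le_sum
  intro q _
  rw [← card_filter]
  unfold blk
  apply card_le_card
  intro p hp
  rw [mem_filter, mem_filter] at hp
  rw [mem_filter, mem_Ioc]
  exact ⟨⟨by omega, by omega⟩, hp.1.2, Nat.modEq_one⟩

theorem blk_le' {W q Q x β l : ℕ} {Er : ℝ} (h : Hpsi W Q x Er) (hQ : 2 ≤ Q) (hQq : Q ≤ q)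
    (hl : 1 ≤ l) (hlx : l * q + β ≤ 2 * x) (hc : (l * q).Coprime W) :
    (blk W q 0 β l : ℝ) ≤ ((β : ℝ) / (Nat.totient W : ℝ) + 2 * Er) / Real.log (l * q) := by
  have hlq : 1 * q ≤ l * q := Nat.mul_le_mul_right q hl
  have h1 := prime_le (U := l * q + 0) (V := l * q + β) (W := W) (b := l * q) (by omega) (by omega)
  have h2 := h (l * q + 0) (by omega) (by omega) (l * q) hc
  have h3 := h (l * q + β) (by omega) hlx (l * q) hc
  rw [abs_le] at h2 h3
  have hlog : 0 < Real.log ((l : ℝ) * q) := by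
    apply Real.log_pos
    have : (1 : ℕ) < l * q := by omega
    exact_mod_cast this
  rw [le_div_iff₀ hlog]
  unfold blk
  have h4 : Real.log ((l * q + 0 : ℕ) : ℝ) = Real.log ((l : ℝ) * q) := by push_cast; simp
  rw [h4] at h1
  refine h1.trans ?_
  have h5 : (β : ℝ) / (Nat.totient W : ℝ) = ((l * q + β : ℕ) : ℝ) / (Nat.totient W : ℝ) - ((l * q + 0 : ℕ) : ℝ) / (Nat.totient W : ℝ) := by
    push_cast
    ring
  rw [h5]
  linarith [h2.1, h2.2, h3.1, h3.2]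

theorem blk_ge' {W q Q x β l : ℕ} {Er : ℝ} (h : Hpsi W Q x Er) (hQ : 2 ≤ Q) (hQq : Q ≤ q)
    (hl : 1 ≤ l) (hlx : l * q + β ≤ 2 * x) (hc : (l * q).Coprime W) :
    ((β : ℝ) / (Nat.totient W : ℝ) - 2 * Er - R2 x) / Real.log ((l * q + β : ℕ) : ℝ) ≤ (blk W q 0 β l : ℝ) := by
  have hlq : 1 * q ≤ l * q := Nat.mul_le_mul_right q hl
  have h1 := prime_ge (U := l * q + 0) (V := l * q + β) (W := W) (b := l * q) (by omega) (by omega)
  have h2 := h (l * q + 0) (by omega) (by omega) (l * q) hc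
  have h3 := h (l * q + β) (by omega) hlx (l * q) hc
  rw [abs_le] at h2 h3
  have hlog : 0 < Real.log ((l * q + β : ℕ) : ℝ) := by
    apply Real.log_pos
    have : (1 : ℕ) < l * q + β := by omega
    exact_mod_cast this
  rw [div_le_iff₀ hlog]
  unfold blk
  have h4 : 2 * Real.sqrt ((l * q + β : ℕ) : ℝ) * Real.log ((l * q + β : ℕ) : ℝ) ≤ R2 x := by
    unfold R2
    have h5 : ((l * q + β : ℕ) : ℝ) ≤ ((2 * x : ℕ) : ℝ) := by exact_mod_cast hlx
    have h6 : (0 : ℝ) < ((l * q + β : ℕ) : ℝ) := by exact_mod_cast (by omega : 0 < l * q + β)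
    have h7 := Real.log_le_log h6 h5
    have h8 := Real.sqrt_le_sqrt h5
    gcongr
  have h5 : (β : ℝ) / (Nat.totient W : ℝ) = ((l * q + β : ℕ) : ℝ) / (Nat.totient W : ℝ) - ((l * q + 0 : ℕ) : ℝ) / (Nat.totient W : ℝ) := by
    push_cast
    ring
  rw [h5]
  linarith [h2.1, h2.2, h3.1, h3.2]

theorem sum_Ip_le {Q R l Y : ℕ} {Er : ℝ} (h : Hpsi 1 Q (Xb Q Y R) Er) (hEr : 0 ≤ Er) (hQ : 2 ≤ Q)
    (hl : 1 ≤ l) (hlY : l ≤ Y) :
    ((∑ p ∈ (Ioc (l * Q) (l * (2 * Q) + R)).filter Nat.Prime, (Ip Q R l p).card : ℕ) : ℝ) ≤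
      ((Q : ℝ) * R + 2 * Q * Er) / Real.log Q := by
  have h1 : ((∑ p ∈ (Ioc (l * Q) (l * (2 * Q) + R)).filter Nat.Prime, (Ip Q R l p).card : ℕ) : ℝ) ≤
      ((∑ q ∈ Ioc Q (2 * Q), blk 1 q 0 R l : ℕ) : ℝ) := by exact_mod_cast sum_Ip
  refine h1.trans ?_
  push_cast
  have hlogQ : 0 < Real.log Q := Real.log_pos (by exact_mod_cast (by omega : 1 < Q))
  have h2 : ∀ q ∈ Ioc Q (2 * Q), (blk 1 q 0 R l : ℝ) ≤ ((R : ℝ) + 2 * Er) / Real.log Q := by
    intro q hq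
    rw [mem_Ioc] at hq
    have h3 := blk_le' (W := 1) (q := q) (Q := Q) (x := Xb Q Y R) (β := R) (l := l) (Er := Er) h hQ hq.1.le hl (by
        have h4 : l * q ≤ (Y + 1) * (2 * Q) := Nat.mul_le_mul (by omega) hq.2
        have h5 : 2 * Xb Q Y R = (Y + 1) * (2 * Q) + 2 * R := by unfold Xb; ring
        omega) (Nat.coprime_one_right _)
    simp only [Nat.totient_one, Nat.cast_one, div_one] at h3
    refine h3.trans ?_
    have h4 : Real.log Q ≤ Real.log ((l : ℝ) * q) := by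
      apply Real.log_le_log (by exact_mod_cast (by omega : 0 < Q))
      have h5 : 1 * q ≤ l * q := Nat.mul_le_mul_right q hl
      exact_mod_cast (by omega : Q ≤ l * q)
    exact div_le_div_of_nonneg_left (by positivity) hlogQ h4
  refine (sum_le_sum h2).trans (le_of_eq ?_)
  rw [sum_const, Nat.card_Ioc, nsmul_eq_mul]
  have h3 : 2 * Q - Q = Q := by omega
  rw [h3]
  ring

/-- the bound for the pairs -/
theorem TR_le {Q g W R l l' Y : ℕ} {Er : ℝ} (hgW : g.Coprime W) (hlW : l.Coprime W) (hg : 0 < g) (hW : 0 < W)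
    (hl : 1 ≤ l) (hll : l < l')
    (hlY : l' ≤ Y) (hQ : 2 ≤ Q) (hEr : 0 ≤ Er) (hrW : (l' - l) * (g * W) ≤ Q)
    (h : Hpsi ((l' - l) * (g * W)) Q (Xb Q Y R) Er) (h1 : Hpsi 1 Q (Xb Q Y R) Er) :
    (TR Q g W R l l' : ℝ) ≤ (((l' - l : ℕ) : ℝ) / (Nat.totient ((l' - l) * (g * W)) : ℝ) *
      (((Q : ℝ) * R + 2 * Q * Er) / Real.log Q) + 2 * ((Y : ℝ) * Q + R) * Er) / Real.log Q := by
  have hlogQ : 0 < Real.log Q := Real.log_pos (by exact_mod_cast (by omega : 1 < Q))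
  rw [le_div_iff₀ hlogQ]
  have h2 : (TR Q g W R l l' : ℝ) ≤
      ((∑ p ∈ (Ioc (l * Q) (l * (2 * Q) + R)).filter Nat.Prime, (Mp Q g W R l (l' - l) p).card : ℕ) : ℝ) := by
    exact_mod_cast TR_eq hll
  have h3 : ((∑ p ∈ (Ioc (l * Q) (l * (2 * Q) + R)).filter Nat.Prime, (Mp Q g W R l (l' - l) p).card : ℕ) : ℝ) * Real.log Q ≤
      ∑ p ∈ (Ioc (l * Q) (l * (2 * Q) + R)).filter Nat.Prime,
        (((l' - l : ℕ) : ℝ) / (Nat.totient ((l' - l) * (g * W)) : ℝ) * ((Ip Q R l p).card : ℝ) + 2 * Er) := by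
    push_cast
    rw [sum_mul]
    apply sum_le_sum
    intro p hp
    rw [mem_filter, mem_Ioc] at hp
    exact Mp_card hgW hlW hl (by omega) (by omega) hQ hEr hg hW hrW hp.1.1 h
  have h4 := sum_Ip_le h1 hEr hQ hl (by omega : l ≤ Y)
  rw [sum_add_distrib, ← mul_sum, sum_const, nsmul_eq_mul] at h3
  have h5 : (((Ioc (l * Q) (l * (2 * Q) + R)).filter Nat.Prime).card : ℝ) ≤ (Y : ℝ) * Q + R := by
    have h6 := card_filter_le (Ioc (l * Q) (l * (2 * Q) + R)) Nat.Prime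
    rw [Nat.card_Ioc] at h6
    have h7 : l * Q ≤ Y * Q := Nat.mul_le_mul_right _ (by omega)
    have h8 : l * (2 * Q) = l * Q + l * Q := by ring
    exact_mod_cast (by omega : ((Ioc (l * Q) (l * (2 * Q) + R)).filter Nat.Prime).card ≤ Y * Q + R)
  have h6 : (((Ioc (l * Q) (l * (2 * Q) + R)).filter Nat.Prime).card : ℝ) * (2 * Er) ≤ ((Y : ℝ) * Q + R) * (2 * Er) := by gcongr
  push_cast at h4
  have h7 : ((l' - l : ℕ) : ℝ) / (Nat.totient ((l' - l) * (g * W)) : ℝ) *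
      (∑ p ∈ (Ioc (l * Q) (l * (2 * Q) + R)).filter Nat.Prime, ((Ip Q R l p).card : ℝ)) ≤
      ((l' - l : ℕ) : ℝ) / (Nat.totient ((l' - l) * (g * W)) : ℝ) * (((Q : ℝ) * R + 2 * Q * Er) / Real.log Q) := by gcongr
  calc (TR Q g W R l l' : ℝ) * Real.log Q ≤ ((∑ p ∈ (Ioc (l * Q) (l * (2 * Q) + R)).filter Nat.Prime, (Mp Q g W R l (l' - l) p).card : ℕ) : ℝ) * Real.log Q := by gcongr
    _ ≤ _ := h3
    _ ≤ _ := by linarith

end Pool.Agent.H527.G
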