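import Mathlib
import Pool.Agent.H527.G.G1

/-! Pairs of primes, an upper bound with a constant. -/

set_option autoImplicit false

namespace Pool.Agent.H527.G

open Finset Pool.Agent.H527.AP Pool.Agent.H527.M Pool.Agent.H527.N
open Pool.Agent.H527.F (Ip)

theorem Mp_card_bt {N₀ : ℕ} (hbt : ∀ a q N : ℕ, 1 ≤ q → N₀ ≤ N →
    (((range N).filter (fun t => (a + t * q).Prime)).card : ℝ) ≤
      3 * ((q : ℝ) / Nat.totient q) * N / Real.log N) {Q g W R l r p : ℕ}
    (hgW : g.Coprime W) (hlW : l.Coprime W) (hr : 1 ≤ r) (hg : 0 < g) (hW : 0 < W)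
    (hQ : 2 ≤ Q) (hQN : N₀ ≤ Nat.sqrt Q) :
    ((Mp Q g W R l r p).card : ℝ) * Real.log Q ≤
      6 * ((r : ℝ) / (Nat.totient (r * (g * W)) : ℝ) * (((Ip Q R l p).card : ℝ) + g * W * (Nat.sqrt Q + 2))) := by
  classical
  rcases (Mp Q g W R l r p).eq_empty_or_nonempty with h0 | hne
  · rw [h0]
    simp only [card_empty, Nat.cast_zero, zero_mul]
    positivity
  obtain ⟨qm, hqm⟩ : ∃ qm, qm = (Mp Q g W R l r p).min' hne := ⟨_, rfl⟩
  have hqmM : qm ∈ Mp Q g W R l r p := by rw [hqm]; exact min'_mem _ _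
  have hgW0 : 0 < g * W := Nat.mul_pos hg hW
  obtain ⟨N, hN⟩ : ∃ N, N = (Ip Q R l p).card / (g * W) + (Nat.sqrt Q + 2) := ⟨_, rfl⟩
  have hcl : ∀ q ∈ Mp Q g W R l r p, ∃ t, q = qm + t * (g * W) ∧ t * (g * W) ≤ (Ip Q R l p).card := by
    intro q hq
    have h1 : qm ≤ q := by rw [hqm]; exact min'_le _ _ hq
    have h2 := Mp_class (r := r) hgW hlW hq hqmM
    have h3 : r * q ≡ r * qm [MOD r * (g * W)] := Nat.ModEq.add_left_cancel' _ h2
    have h4 : q ≡ qm [MOD g * W] := Nat.ModEq.mul_left_cancel' (by omega) h3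
    have h5 : g * W ∣ q - qm := (Nat.modEq_iff_dvd' h1).1 h4.symm
    obtain ⟨t, ht⟩ := h5
    refine ⟨t, by rw [mul_comm t]; omega, ?_⟩
    have h6 : Ioc qm q ⊆ Ip Q R l p := by
      intro q' hq'
      rw [mem_Ioc] at hq'
      unfold Mp at hq hqmM
      rw [mem_filter] at hq hqmM
      have h7 := hq.1
      have h8 := hqmM.1
      unfold Pool.Agent.H527.F.Ip at h7 h8 ⊢
      rw [mem_filter, mem_Ioc] at h7 h8 ⊢
      have h9 : l * q' ≤ l * q := Nat.mul_le_mul_left l hq'.2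
      have h10 : l * qm ≤ l * q' := Nat.mul_le_mul_left _ hq'.1.le
      omega
    have h7 := card_le_card h6
    rw [Nat.card_Ioc] at h7
    rw [mul_comm t, ← ht]
    exact h7
  have hinj : (Mp Q g W R l r p).card ≤ ((range N).filter (fun t => (p + r * qm + t * (r * (g * W))).Prime)).card := by
    apply card_le_card_of_injOn (fun q => (q - qm) / (g * W))
    · intro q hq
      rw [mem_coe] at hq
      obtain ⟨t, ht, htc⟩ := hcl q hq
      rw [mem_coe, mem_filter, mem_range]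
      beta_reduce
      have h1 : (q - qm) / (g * W) = t := by
        rw [ht, Nat.add_sub_cancel_left, Nat.mul_div_cancel _ hgW0]
      rw [h1]
      constructor
      · have : t ≤ (Ip Q R l p).card / (g * W) := (Nat.le_div_iff_mul_le hgW0).2 htc
        omega
      · unfold Mp at hq
        rw [mem_filter] at hq
        have h2 := hq.2.2.2.2
        have h3 : p + r * qm + t * (r * (g * W)) = p + r * q := by rw [ht]; ring
        rw [h3]
        exact h2
    · intro q hq q' hq' h1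
      rw [mem_coe] at hq hq'
      obtain ⟨t, ht, _⟩ := hcl q hq
      obtain ⟨t', ht', _⟩ := hcl q' hq'
      simp only at h1
      rw [ht, Nat.add_sub_cancel_left, Nat.mul_div_cancel _ hgW0, ht', Nat.add_sub_cancel_left,
        Nat.mul_div_cancel _ hgW0] at h1
      rw [ht, ht', h1]
  have hNN : N₀ ≤ N := by
    rw [hN]
    exact le_add_left (by omega)
  have hb := hbt (p + r * qm) (r * (g * W)) N (Nat.mul_pos (by omega) hgW0) hNN
  have hlogQ : 0 < Real.log Q := Real.log_pos (by exact_mod_cast (by omega : 1 < Q))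
  have hQ0 : (0 : ℝ) < Q := by exact_mod_cast (by omega : 0 < Q)
  have hNsqrt : Real.sqrt Q ≤ N := by
    have h1 := Real.real_sqrt_lt_nat_sqrt_succ (a := Q)
    have h2 : Nat.sqrt Q + 1 ≤ N := by
      rw [hN]
      exact le_add_left (by omega)
    have h3 : ((Nat.sqrt Q + 1 : ℕ) : ℝ) ≤ N := by exact_mod_cast h2
    push_cast at h3
    linarith
  have hlogN : Real.log Q / 2 ≤ Real.log N := by
    rw [← Real.log_sqrt hQ0.le]
    exact Real.log_le_log (Real.sqrt_pos.2 hQ0) hNsqrt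
  have hlogN0 : 0 < Real.log N := by linarith
  have hrW0 : 0 < r * (g * W) := Nat.mul_pos (by omega) hgW0
  have hφ : (0 : ℝ) < (Nat.totient (r * (g * W)) : ℝ) := by exact_mod_cast Nat.totient_pos.2 hrW0
  have hgWr : (0 : ℝ) < (g : ℝ) * W := by exact_mod_cast hgW0
  have h1 : ((Mp Q g W R l r p).card : ℝ) ≤ 3 * (((r * (g * W) : ℕ) : ℝ) / Nat.totient (r * (g * W))) * N / Real.log N := by
    have : ((Mp Q g W R l r p).card : ℝ) ≤ (((range N).filter (fun t => (p + r * qm + t * (r * (g * W))).Prime)).card : ℝ) := by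
      exact_mod_cast hinj
    exact this.trans hb
  have h2 : ((Mp Q g W R l r p).card : ℝ) * Real.log Q ≤
      6 * (((r * (g * W) : ℕ) : ℝ) / Nat.totient (r * (g * W))) * N := by
    rw [le_div_iff₀ hlogN0] at h1
    have h3 : ((Mp Q g W R l r p).card : ℝ) * (Real.log Q / 2) ≤ ((Mp Q g W R l r p).card : ℝ) * Real.log N := by gcongr
    linarith
  refine h2.trans ?_
  have h3 : (N : ℝ) ≤ ((Ip Q R l p).card : ℝ) / (g * W) + (Nat.sqrt Q + 2) := by
    rw [hN]
    push_cast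
    have : (((Ip Q R l p).card / (g * W) : ℕ) : ℝ) ≤ ((Ip Q R l p).card : ℝ) / ((g * W : ℕ) : ℝ) := Nat.cast_div_le
    push_cast at this
    linarith
  calc 6 * (((r * (g * W) : ℕ) : ℝ) / Nat.totient (r * (g * W))) * N ≤
        6 * (((r * (g * W) : ℕ) : ℝ) / Nat.totient (r * (g * W))) * (((Ip Q R l p).card : ℝ) / (g * W) + (Nat.sqrt Q + 2)) := by gcongr
    _ = 6 * ((r : ℝ) / (Nat.totient (r * (g * W)) : ℝ) * (((Ip Q R l p).card : ℝ) + g * W * (Nat.sqrt Q + 2))) := by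
        push_cast
        field_simp

/-- the bound for the exceptional pairs -/
theorem TR_le_bt {N₀ : ℕ} (hbt : ∀ a q N : ℕ, 1 ≤ q → N₀ ≤ N →
    (((range N).filter (fun t => (a + t * q).Prime)).card : ℝ) ≤
      3 * ((q : ℝ) / Nat.totient q) * N / Real.log N) {Q g W R l l' Y : ℕ} {Er : ℝ}
    (hgW : g.Coprime W) (hlW : l.Coprime W) (hl : 1 ≤ l) (hll : l < l') (hg : 0 < g) (hW : 0 < W)
    (hlY : l' ≤ Y) (hQ : 2 ≤ Q) (hQN : N₀ ≤ Nat.sqrt Q) (hEr : 0 ≤ Er) (h1 : Hpsi 1 Q (Xb Q Y R) Er) :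
    (TR Q g W R l l' : ℝ) ≤ 6 * (((l' - l : ℕ) : ℝ) / (Nat.totient ((l' - l) * (g * W)) : ℝ) *
      (((Q : ℝ) * R + 2 * Q * Er) / Real.log Q + ((Y : ℝ) * Q + R) * (g * W * (Nat.sqrt Q + 2)))) / Real.log Q := by
  have hlogQ : 0 < Real.log Q := Real.log_pos (by exact_mod_cast (by omega : 1 < Q))
  rw [le_div_iff₀ hlogQ]
  have h2 : (TR Q g W R l l' : ℝ) ≤
      ((∑ p ∈ (Ioc (l * Q) (l * (2 * Q) + R)).filter Nat.Prime, (Mp Q g W R l (l' - l) p).card : ℕ) : ℝ) := by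
    exact_mod_cast TR_eq hll
  have h3 : ((∑ p ∈ (Ioc (l * Q) (l * (2 * Q) + R)).filter Nat.Prime, (Mp Q g W R l (l' - l) p).card : ℕ) : ℝ) * Real.log Q ≤
      ∑ p ∈ (Ioc (l * Q) (l * (2 * Q) + R)).filter Nat.Prime,
        (6 * (((l' - l : ℕ) : ℝ) / (Nat.totient ((l' - l) * (g * W)) : ℝ) *
          (((Ip Q R l p).card : ℝ) + g * W * (Nat.sqrt Q + 2)))) := by
    push_cast
    rw [sum_mul]
    apply sum_le_sum
    intro p hp
    exact Mp_card_bt hbt hgW hlW (by omega) hg hW hQ hQN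
  have h4 := sum_Ip_le h1 hEr hQ hl (by omega : l ≤ Y)
  rw [← mul_sum, ← mul_sum, sum_add_distrib, sum_const, nsmul_eq_mul] at h3
  have h5 : (((Ioc (l * Q) (l * (2 * Q) + R)).filter Nat.Prime).card : ℝ) ≤ (Y : ℝ) * Q + R := by
    have h6 := card_filter_le (Ioc (l * Q) (l * (2 * Q) + R)) Nat.Prime
    rw [Nat.card_Ioc] at h6
    have h7 : l * Q ≤ Y * Q := Nat.mul_le_mul_right _ (by omega)
    have h8 : l * (2 * Q) = l * Q + l * Q := by ring
    exact_mod_cast (by omega : ((Ioc (l * Q) (l * (2 * Q) + R)).filter Nat.Prime).card ≤ Y * Q + R)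
  push_cast at h4
  calc (TR Q g W R l l' : ℝ) * Real.log Q ≤ ((∑ p ∈ (Ioc (l * Q) (l * (2 * Q) + R)).filter Nat.Prime, (Mp Q g W R l (l' - l) p).card : ℕ) : ℝ) * Real.log Q := by gcongr
    _ ≤ _ := h3
    _ ≤ _ := by gcongr

end Pool.Agent.H527.G
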