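import Mathlib
import Pool.Agent.H527.G.G2
import Pool.Agent.H527.F.F3

/-! The sum of `q / φ(q)` over the moduli, and the first two moments. -/

set_option autoImplicit false

namespace Pool.Agent.H527.G

open Finset Pool.Agent.H527.AP Pool.Agent.H527.S Pool.Agent.H527.M Pool.Agent.H527.N

theorem Qs_rows (Q g W d : ℕ) (hgd : g.Coprime d) :
    (Qs Q g W).filter (fun q => d ∣ q) = rows (g * d) W Q (2 * Q) := by
  unfold Qs rows
  ext q
  simp only [mem_filter, mem_Ioc]
  constructor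
  · rintro ⟨⟨a1, a2, a3⟩, a4⟩
    exact ⟨a1, Nat.Coprime.mul_dvd_of_dvd_of_dvd hgd a2 a4, a3⟩
  · rintro ⟨a1, a2, a3⟩
    exact ⟨⟨a1, (Nat.dvd_mul_right g d).trans a2, a3⟩, (Nat.dvd_mul_left d g).trans a2⟩

theorem sum_tot (Q g W D : ℕ) (hW : 0 < W) (hg : 0 < g) (hgW : g.Coprime W) :
    1 / (Nat.totient g : ℝ) * ((Nat.totient W : ℝ) / W * Q * cc (g * W) D - 3 * g * (2 : ℝ) ^ W.primeFactors.card * D) ≤
      ∑ q ∈ Qs Q g W, (q / (Nat.totient q : ℝ)) := by
  classical
  have hg0 : (0 : ℝ) < g := by exact_mod_cast hg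
  have hφg : (0 : ℝ) < (Nat.totient g : ℝ) := by exact_mod_cast Nat.totient_pos.2 hg
  have h1 : ∀ q ∈ Qs Q g W, (g : ℝ) / (Nat.totient g : ℝ) * (∑ d ∈ Icc 1 D, (if d ∣ q then hh (g * W) d else 0)) ≤
      (q / (Nat.totient q : ℝ)) := by
    intro q hq
    unfold Qs at hq
    rw [mem_filter, mem_Ioc] at hq
    rw [ratio_q g W q hg (by omega) hq.2.1 hq.2.2, rho_eq _ _ (by omega)]
    have h2 : ∑ d ∈ Icc 1 D, (if d ∣ q then hh (g * W) d else 0) ≤ ∑ d ∈ q.divisors, hh (g * W) d := by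
      rw [← sum_filter]
      apply sum_le_sum_of_subset_of_nonneg
      · intro d hd
        rw [mem_filter] at hd
        rw [Nat.mem_divisors]
        exact ⟨hd.2, by omega⟩
      · intro d _ _
        exact hh_nonneg _ _
    gcongr
  refine le_trans ?_ (sum_le_sum h1)
  have h2 : ∑ q ∈ Qs Q g W, (g : ℝ) / (Nat.totient g : ℝ) * (∑ d ∈ Icc 1 D, (if d ∣ q then hh (g * W) d else 0)) =
      (g : ℝ) / (Nat.totient g : ℝ) * ∑ d ∈ Icc 1 D, hh (g * W) d * (((Qs Q g W).filter (fun q => d ∣ q)).card : ℝ) := by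
    rw [← mul_sum, sum_comm]
    congr 1
    apply sum_congr rfl
    intro d _
    rw [← sum_filter, sum_const, nsmul_eq_mul, mul_comm]
  rw [h2]
  have h3 : ∀ d ∈ Icc 1 D, (Nat.totient W : ℝ) / W * Q / g * (hh (g * W) d / d) - 3 * (2 : ℝ) ^ W.primeFactors.card ≤
      hh (g * W) d * (((Qs Q g W).filter (fun q => d ∣ q)).card : ℝ) := by
    intro d hd
    rw [mem_Icc] at hd
    by_cases h4 : hh (g * W) d = 0
    · rw [h4, zero_mul, zero_div, mul_zero, zero_sub]
      have : 0 ≤ 3 * (2 : ℝ) ^ W.primeFactors.card := by positivity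
      linarith
    · have h5 : d.Coprime (g * W) := by
        unfold hh at h4
        rw [ite_eq_right_iff, Classical.not_imp] at h4
        exact h4.1.2
      have hgd : g.Coprime d := (h5.coprime_mul_right_right).symm
      have hdW : d.Coprime W := h5.coprime_mul_left_right
      rw [Qs_rows Q g W d hgd]
      have h6 := rows_card (g * d) W Q (2 * Q) hW (Nat.mul_pos hg hd.1) (by omega) (Nat.Coprime.mul_left hgW hdW).symm
      rw [abs_le] at h6
      have h7 := hh_nonneg (g * W) d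
      have h8 := hh_le_one (g * W) d
      have h9 := mul_le_mul_of_nonneg_left h6.1 h7
      have h10 : hh (g * W) d * (3 * (2 : ℝ) ^ W.primeFactors.card) ≤ 1 * (3 * (2 : ℝ) ^ W.primeFactors.card) := by gcongr
      have h11 : (((2 * Q : ℕ) : ℝ) - Q) / ((g * d : ℕ) : ℝ) * ((Nat.totient W : ℝ) / W) = (Q : ℝ) / (g * d) * ((Nat.totient W : ℝ) / W) := by
        push_cast; ring
      rw [h11] at h9
      have hd0 : (0 : ℝ) < d := by exact_mod_cast hd.1
      have h12 : (Nat.totient W : ℝ) / W * Q / g * (hh (g * W) d / d) = hh (g * W) d * ((Q : ℝ) / (g * d) * ((Nat.totient W : ℝ) / W)) := by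
        field_simp
      rw [h12]
      linarith
  have h4 := mul_le_mul_of_nonneg_left (sum_le_sum h3) (show 0 ≤ (g : ℝ) / (Nat.totient g : ℝ) by positivity)
  refine le_trans (le_of_eq ?_) h4
  rw [sum_sub_distrib, sum_const, Nat.card_Icc, nsmul_eq_mul, ← mul_sum]
  unfold cc
  push_cast
  field_simp

theorem row_count {W q l R : ℕ} (hl1 : 1 ≤ l) (hq : 0 < q) :
    ((rows W q 0 R).filter (fun a => (a + l * q).Prime)).card = blk W q 0 R l := by
  unfold blk
  have hlq : 1 * q ≤ l * q := Nat.mul_le_mul_right q hl1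
  apply card_bij (fun a _ => a + l * q)
  · intro a ha
    unfold rows at ha
    rw [mem_filter, mem_filter, mem_Ioc] at ha
    rw [mem_filter, mem_Ioc]
    refine ⟨⟨by omega, by omega⟩, ha.2, ?_⟩
    have := Nat.ModEq.add_right (l * q) (Nat.modEq_zero_iff_dvd.2 ha.1.2.1)
    rwa [zero_add] at this
  · intro a _ a' _ h
    omega
  · intro p hp
    rw [mem_filter, mem_Ioc] at hp
    obtain ⟨⟨h1, h2⟩, hpp, hpW⟩ := hp
    refine ⟨p - l * q, ?_, by omega⟩
    unfold rows
    have hpe : p - l * q + l * q = p := by omega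
    rw [mem_filter, mem_filter, mem_Ioc, hpe]
    refine ⟨⟨⟨by omega, by omega⟩, ?_, ?_⟩, hpp⟩
    · exact (Nat.modEq_iff_dvd' (by omega)).1 hpW.symm
    · rw [Nat.coprime_iff_gcd_eq_one]
      by_contra hg
      have h3 : Nat.gcd (p - l * q) q ∣ p := by
        conv_rhs => rw [← hpe]
        exact dvd_add (Nat.gcd_dvd_left _ _) (Dvd.dvd.mul_left (Nat.gcd_dvd_right _ _) l)
      rcases (Nat.dvd_prime hpp).1 h3 with h4 | h4
      · exact hg h4
      · have h5 : p ∣ q := by rw [← h4]; exact Nat.gcd_dvd_right _ _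
        have := Nat.le_of_dvd hq h5
        omega

/-- the first moment for one modulus -/
theorem first_moment {W q R Y : ℕ} (hq : 0 < q) (hWq : W ≤ q) :
    ∑ a ∈ rows W q 0 R, Nn Y q a = ∑ l ∈ Ls W Y, blk W q 0 R l := by
  classical
  unfold Nn
  have e1 : ∀ a ∈ rows W q 0 R, ((Icc 1 Y).filter (fun l => (a + l * q).Prime)).card =
      ∑ l ∈ Icc 1 Y, (if (a + l * q).Prime then 1 else 0) := fun a _ => by rw [card_filter]
  rw [sum_congr rfl e1, sum_comm]
  unfold Ls
  rw [sum_filter]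
  apply sum_congr rfl
  intro l hl
  rw [mem_Icc] at hl
  rw [← card_filter]
  split_ifs with hc
  · exact row_count hl.1 hq
  · rw [card_eq_zero, filter_eq_empty_iff]
    intro a ha hp
    unfold rows at ha
    rw [mem_filter, mem_Ioc] at ha
    exact hc (prime_cop ha.2.1 hl.1 ha.1.1 hWq hp)

theorem Nn_sq {W q Y R a : ℕ} (ha : a ∈ rows W q 0 R) (hWq : W ≤ q) :
    (Nn Y q a) ^ 2 ≤ Nn Y q a + 2 * ((PL W Y).filter (fun x => (a + x.1 * q).Prime ∧ (a + x.2 * q).Prime)).card := by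
  classical
  unfold rows at ha
  rw [mem_filter, mem_Ioc] at ha
  set A := (Icc 1 Y).filter (fun l => (a + l * q).Prime) with hA
  have hN : Nn Y q a = A.card := rfl
  have hAL : A ⊆ Ls W Y := by
    intro l hl
    rw [hA, mem_filter, mem_Icc] at hl
    unfold Ls
    rw [mem_filter, mem_Icc]
    exact ⟨hl.1, prime_cop ha.2.1 hl.1.1 ha.1.1 hWq hl.2⟩
  have h1 : (A ×ˢ A).card ≤ A.card + 2 * ((PL W Y).filter (fun x => (a + x.1 * q).Prime ∧ (a + x.2 * q).Prime)).card := by
    have e1 : (A ×ˢ A) ⊆ A.image (fun l => (l, l)) ∪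
        (((PL W Y).filter (fun x => (a + x.1 * q).Prime ∧ (a + x.2 * q).Prime)) ∪
        ((PL W Y).filter (fun x => (a + x.1 * q).Prime ∧ (a + x.2 * q).Prime)).image (fun x => (x.2, x.1))) := by
      intro x hx
      rw [mem_product] at hx
      have hx1 := hAL hx.1
      have hx2 := hAL hx.2
      have hp1 : (a + x.1 * q).Prime := (mem_filter.1 hx.1).2
      have hp2 : (a + x.2 * q).Prime := (mem_filter.1 hx.2).2
      rw [mem_union, mem_union, mem_image, mem_image, mem_filter]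
      rcases lt_trichotomy x.1 x.2 with h | h | h
      · right; left
        unfold PL
        rw [mem_filter, mem_product]
        exact ⟨⟨⟨hx1, hx2⟩, h⟩, hp1, hp2⟩
      · left
        exact ⟨x.1, hx.1, Prod.ext rfl h⟩
      · right; right
        refine ⟨(x.2, x.1), ?_, rfl⟩
        unfold PL
        rw [mem_filter, mem_filter, mem_product]
        exact ⟨⟨⟨hx2, hx1⟩, h⟩, hp2, hp1⟩
    refine (card_le_card e1).trans ((card_union_le _ _).trans ?_)
    have e2 : (A.image (fun l => (l, l))).card ≤ A.card := card_image_le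
    have e3 := card_union_le ((PL W Y).filter (fun x => (a + x.1 * q).Prime ∧ (a + x.2 * q).Prime))
      (((PL W Y).filter (fun x => (a + x.1 * q).Prime ∧ (a + x.2 * q).Prime)).image (fun x => (x.2, x.1)))
    have e4 : (((PL W Y).filter (fun x => (a + x.1 * q).Prime ∧ (a + x.2 * q).Prime)).image (fun x => (x.2, x.1))).card ≤
        ((PL W Y).filter (fun x => (a + x.1 * q).Prime ∧ (a + x.2 * q).Prime)).card := card_image_le
    omega
  rw [card_product] at h1
  rw [hN, pow_two]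
  exact h1

/-- the second moment -/
theorem second_moment {Q g W R Y : ℕ} (hWQ : W ≤ Q) :
    ∑ q ∈ Qs Q g W, ∑ a ∈ rows W q 0 R, (Nn Y q a) ^ 2 ≤
      ∑ q ∈ Qs Q g W, ∑ a ∈ rows W q 0 R, Nn Y q a + 2 * ∑ x ∈ PL W Y, TR Q g W R x.1 x.2 := by
  classical
  have h1 : ∀ q ∈ Qs Q g W, ∑ a ∈ rows W q 0 R, (Nn Y q a) ^ 2 ≤
      ∑ a ∈ rows W q 0 R, (Nn Y q a + 2 * ((PL W Y).filter (fun x => (a + x.1 * q).Prime ∧ (a + x.2 * q).Prime)).card) := by
    intro q hq
    unfold Qs at hq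
    rw [mem_filter, mem_Ioc] at hq
    apply sum_le_sum
    intro a ha
    exact Nn_sq ha (by omega)
  refine (sum_le_sum h1).trans (le_of_eq ?_)
  have e1 : ∀ q ∈ Qs Q g W, ∑ a ∈ rows W q 0 R, (Nn Y q a + 2 * ((PL W Y).filter (fun x => (a + x.1 * q).Prime ∧ (a + x.2 * q).Prime)).card) =
      ∑ a ∈ rows W q 0 R, Nn Y q a + 2 * ∑ x ∈ PL W Y, ((rows W q 0 R).filter (fun a => (a + x.1 * q).Prime ∧ (a + x.2 * q).Prime)).card := by
    intro q _
    rw [sum_add_distrib, ← mul_sum]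
    congr 2
    simp_rw [card_filter]
    rw [sum_comm]
  rw [sum_congr rfl e1, sum_add_distrib, ← mul_sum]
  congr 2
  unfold TR
  rw [sum_comm]

end Pool.Agent.H527.G
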