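import Mathlib
import Pool.Agent.H527.G.G3
import Pool.Agent.H527.N.N8

/-! The variance over the pairs `(q, a)`, `a ≤ R`: the off-diagonal terms. -/

set_option autoImplicit false

namespace Pool.Agent.H527.G

open Finset Pool.Agent.H527.AP Pool.Agent.H527.S Pool.Agent.H527.M Pool.Agent.H527.N

/-- the hypotheses for the variance -/
structure VarR (Q g R Y k D f N₀ : ℕ) (P : Finset ℕ) (Er e : ℝ) : Prop where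
  hP : ∀ p ∈ P, p.Prime
  hg : 0 < g
  hgP : g.Coprime (∏ p ∈ P, p)
  hR0 : 0 < R
  hQ : 2 ≤ Q
  hD : 1 ≤ D
  hf : 0 < f
  he : 0 < e
  he1 : e ≤ 1 / 3
  hEr : 0 ≤ Er
  hk : Cls P Y k
  hVQ : Y * (g * ∏ p ∈ P, p) ≤ Q
  hWQ : ∏ p ∈ P, p ≤ Q
  hbt : ∀ a q N : ℕ, 1 ≤ q → N₀ ≤ N → (((range N).filter (fun t => (a + t * q).Prime)).card : ℝ) ≤
      3 * ((q : ℝ) / Nat.totient q) * N / Real.log N
  hN0 : N₀ ≤ Nat.sqrt Q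
  hH1 : Hpsi 1 Q (Xb Q Y R) Er
  hHW : Hpsi (∏ p ∈ P, p) Q (Xb Q Y R) Er
  hHr : ∀ r : ℕ, 1 ≤ r → r ≤ Y → ¬ f ∣ r → Hpsi (r * (g * ∏ p ∈ P, p)) Q (Xb Q Y R) Er
  hl0 : 0 < (Ls (∏ p ∈ P, p) Y).card
  k0 : 6 * Real.log Q ≤ e * (Ls (∏ p ∈ P, p) Y).card
  k1 : 2 * (k : ℝ) * (Ls (∏ p ∈ P, p) Y).card * D + 8 * (Y : ℝ) ^ 2 / Real.sqrt D ≤
    e * ((Ls (∏ p ∈ P, p) Y).card : ℝ) ^ 2
  k2 : 2 * ((Y : ℝ) * Q + R) * Er * (Nat.totient (g * ∏ p ∈ P, p)) * Real.log Q ≤ e / 2 * ((Q : ℝ) * R)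
  k3 : 120 * (Y : ℝ) ^ 2 / Real.sqrt f ≤ e * ((Ls (∏ p ∈ P, p) Y).card : ℝ) ^ 2
  k3' : ((Y : ℝ) * Q + R) * (g * (∏ p ∈ P, p : ℕ) * (Nat.sqrt Q + 2)) * Real.log Q ≤ (Q : ℝ) * R
  k4 : 2 * Er + R2 (Xb Q Y R) ≤ e / 2 * (R / (Nat.totient (∏ p ∈ P, p) : ℝ))
  k5 : Real.log ((2 * Xb Q Y R : ℕ) : ℝ) ≤ (1 + e / 2) * Real.log Q
  k6 : ∀ q ∈ Ioc Q (2 * Q), 3 * (2 : ℝ) ^ q.primeFactors.card ≤ e * ((R : ℝ) / (∏ p ∈ P, p : ℕ) * ((Nat.totient q : ℝ) / q))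
  k7 : 3 * (((∏ p ∈ P, p : ℕ) : ℝ) / (Nat.totient (∏ p ∈ P, p) : ℝ)) * (g * (2 : ℝ) ^ (∏ p ∈ P, p).primeFactors.card * D) ≤ e * Q

section
variable {Q g R Y k D f N₀ : ℕ} {P : Finset ℕ} {Er e : ℝ}

theorem VarR.basic (V : VarR Q g R Y k D f N₀ P Er e) : 0 < Real.log Q ∧ (0 : ℝ) < Q ∧
    (0 : ℝ) < (Nat.totient (∏ p ∈ P, p) : ℝ) ∧ (0 : ℝ) < (Nat.totient g : ℝ) ∧
    (Nat.totient (g * ∏ p ∈ P, p) : ℝ) = (Nat.totient g : ℝ) * (Nat.totient (∏ p ∈ P, p) : ℝ) ∧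
    (0 : ℝ) < ((∏ p ∈ P, p : ℕ) : ℝ) ∧ (0 : ℝ) < ((Ls (∏ p ∈ P, p) Y).card : ℝ) ∧ (0 : ℝ) < R ∧
    2 * (Q : ℝ) * Er ≤ e * (Q * R) := by
  have hQ := V.hQ
  have hQ2 : (2 : ℝ) ≤ Q := by exact_mod_cast hQ
  have hR0 : (0 : ℝ) < R := by exact_mod_cast V.hR0
  have hW : 0 < ∏ p ∈ P, p := Finset.prod_pos fun p hp => (V.hP p hp).pos
  have hφ : (0 : ℝ) < (Nat.totient (∏ p ∈ P, p) : ℝ) := by exact_mod_cast Nat.totient_pos.2 hW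
  have hφ1 : (1 : ℝ) ≤ (Nat.totient (∏ p ∈ P, p) : ℝ) := by exact_mod_cast Nat.totient_pos.2 hW
  refine ⟨Real.log_pos (by linarith), by linarith, hφ, by exact_mod_cast Nat.totient_pos.2 V.hg, ?_,
    by exact_mod_cast hW, by exact_mod_cast V.hl0, hR0, ?_⟩
  · rw [Nat.totient_mul V.hgP]; push_cast; ring
  have h4 := V.k4
  have hR : 0 ≤ R2 (Xb Q Y R) := by unfold R2; positivity
  have he := V.he
  have h5 : e / 2 * (R / (Nat.totient (∏ p ∈ P, p) : ℝ)) ≤ e / 2 * R := by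
    apply mul_le_mul_of_nonneg_left (div_le_self (by linarith) hφ1) (by linarith)
  have h6 : 2 * Er ≤ e * R := by
    have : 0 ≤ e * R := by positivity
    linarith
  have h7 : (Q : ℝ) * (2 * Er) ≤ Q * (e * R) := mul_le_mul_of_nonneg_left h6 (by linarith)
  linarith

theorem VarR.KQ (V : VarR Q g R Y k D f N₀ P Er e) : 0 < KK Q g Y P ∧ 0 < hm Q Y P ∧
    hm Q Y P ^ 2 * (Nat.totient (∏ p ∈ P, p) : ℝ) / (Nat.totient g : ℝ) = KK Q g Y P := by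
  obtain ⟨b1, b2, b3, b4, b5, b6, b7, b8, b9⟩ := V.basic
  unfold KK hm
  rw [b5]
  refine ⟨by positivity, by positivity, ?_⟩
  field_simp

/-- the off-diagonal terms -/
theorem VarR.off (V : VarR Q g R Y k D f N₀ P Er e) :
    2 * ((∑ x ∈ PL (∏ p ∈ P, p) Y, TR Q g (∏ p ∈ P, p) R x.1 x.2 : ℕ) : ℝ) ≤
      KK Q g Y P * ((1 + e) * ((Q : ℝ) * R) * cc (g * ∏ p ∈ P, p) D) + 10 * e * (KK Q g Y P * ((Q : ℝ) * R)) := by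
  classical
  obtain ⟨b1, b2, b3, b4, b5, b6, b7, b8, b9⟩ := V.basic
  have hW : 0 < ∏ p ∈ P, p := Finset.prod_pos fun p hp => (V.hP p hp).pos
  have he := V.he
  have he1 := V.he1
  obtain ⟨K, hK⟩ : ∃ K, K = KK Q g Y P := ⟨_, rfl⟩
  obtain ⟨G, hG⟩ : ∃ G, G = Real.log Q := ⟨_, rfl⟩
  obtain ⟨L, hL⟩ : ∃ L : ℝ, L = ((Ls (∏ p ∈ P, p) Y).card : ℝ) := ⟨_, rfl⟩
  obtain ⟨M, hM⟩ : ∃ M : ℝ, M = (Q : ℝ) * R := ⟨_, rfl⟩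
  obtain ⟨S1, hS1⟩ : ∃ S1 : ℝ, S1 = (Q : ℝ) * R + 2 * Q * Er := ⟨_, rfl⟩
  have hKdef : K = L ^ 2 / ((Nat.totient (g * ∏ p ∈ P, p) : ℝ) * G ^ 2) := by rw [hK, hL, hG]; rfl
  have hφV : (0 : ℝ) < (Nat.totient (g * ∏ p ∈ P, p) : ℝ) := by rw [b5]; positivity
  have hM0 : 0 < M := by rw [hM]; positivity
  have hEr := V.hEr
  have hS10 : 0 ≤ S1 := by
    rw [hS1]
    positivity
  have hrho : ∀ x ∈ PL (∏ p ∈ P, p) Y, (((x.2 - x.1 : ℕ) : ℝ) / (Nat.totient ((x.2 - x.1) * (g * ∏ p ∈ P, p)) : ℝ)) =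
      rho (g * ∏ p ∈ P, p) (x.2 - x.1) / (Nat.totient (g * ∏ p ∈ P, p) : ℝ) := by
    intro x hx
    obtain ⟨a1, a2, a3, _, _⟩ := PL_mem hx
    exact ratio_W _ _ (Nat.mul_pos V.hg hW) (by omega)
  have hone : ∀ x ∈ PL (∏ p ∈ P, p) Y, (TR Q g (∏ p ∈ P, p) R x.1 x.2 : ℝ) ≤
      (rho (g * ∏ p ∈ P, p) (x.2 - x.1) * (S1 / ((Nat.totient (g * ∏ p ∈ P, p) : ℝ) * G ^ 2)) + 2 * ((Y : ℝ) * Q + R) * Er / G) +
      (if f ∣ x.2 - x.1 then rho (g * ∏ p ∈ P, p) (x.2 - x.1) *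
        (6 / (Nat.totient (g * ∏ p ∈ P, p) : ℝ) * (S1 / G ^ 2 + ((Y : ℝ) * Q + R) * (g * (∏ p ∈ P, p : ℕ) * (Nat.sqrt Q + 2)) / G)) else 0) := by
    intro x hx
    obtain ⟨a1, a2, a3, a4, a5⟩ := PL_mem hx
    have hr0 := rho_nonneg (g * ∏ p ∈ P, p) (x.2 - x.1)
    have hrVQ : (x.2 - x.1) * (g * ∏ p ∈ P, p) ≤ Q :=
      (Nat.mul_le_mul_right _ (by omega : x.2 - x.1 ≤ Y)).trans V.hVQ
    split_ifs with hf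
    · have h1 := TR_le_bt V.hbt V.hgP a4 a1 a2 V.hg hW a3 V.hQ V.hN0 V.hEr V.hH1
      rw [hrho x hx, ← hG, ← hS1] at h1
      have h2 : 0 ≤ rho (g * ∏ p ∈ P, p) (x.2 - x.1) * (S1 / ((Nat.totient (g * ∏ p ∈ P, p) : ℝ) * G ^ 2)) + 2 * ((Y : ℝ) * Q + R) * Er / G := by
        rw [hG]; positivity
      refine h1.trans (le_trans (le_of_eq ?_) (le_add_of_nonneg_left h2))
      rw [hG]
      field_simp
    · have h1 := TR_le V.hgP a4 V.hg hW a1 a2 a3 V.hQ V.hEr hrVQ (V.hHr _ (by omega) (by omega) hf) V.hH1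
      rw [hrho x hx, ← hG, ← hS1] at h1
      rw [add_zero]
      refine h1.trans (le_of_eq ?_)
      rw [hG]
      field_simp
  have h1 : ((∑ x ∈ PL (∏ p ∈ P, p) Y, TR Q g (∏ p ∈ P, p) R x.1 x.2 : ℕ) : ℝ) ≤
      (∑ x ∈ PL (∏ p ∈ P, p) Y, rho (g * ∏ p ∈ P, p) (x.2 - x.1)) * (S1 / ((Nat.totient (g * ∏ p ∈ P, p) : ℝ) * G ^ 2)) +
      ((PL (∏ p ∈ P, p) Y).card : ℝ) * (2 * ((Y : ℝ) * Q + R) * Er / G) +
      (∑ x ∈ (PL (∏ p ∈ P, p) Y).filter (fun x => f ∣ x.2 - x.1), rho (g * ∏ p ∈ P, p) (x.2 - x.1)) *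
        (6 / (Nat.totient (g * ∏ p ∈ P, p) : ℝ) * (S1 / G ^ 2 + ((Y : ℝ) * Q + R) * (g * (∏ p ∈ P, p : ℕ) * (Nat.sqrt Q + 2)) / G)) := by
    push_cast
    refine (sum_le_sum hone).trans (le_of_eq ?_)
    rw [sum_add_distrib, sum_add_distrib, ← sum_mul, sum_const, nsmul_eq_mul, ← sum_filter, ← sum_mul]
    push_cast
    ring
  have h2 := pair_sum P (g * ∏ p ∈ P, p) Y k D V.hD (fun p hp => Dvd.dvd.mul_left (dvd_prod_of_mem _ hp) g) V.hk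
  have h3 := exc_sum (∏ p ∈ P, p) (g * ∏ p ∈ P, p) Y f V.hf
  have hk1 := V.k1
  have hk3 := V.k3
  have hk3' := V.k3'
  have hk2 := V.k2
  rw [← hL] at h2 hk1 hk3
  rw [← hG] at hk3' hk2 b1
  have hccn := cc_nonneg (g * ∏ p ∈ P, p) D
  have hcc5 := cc_le (g * ∏ p ∈ P, p) D
  have hL0 : 0 < L := by rw [hL]; exact b7
  have hK0 : 0 < K := by rw [hKdef]; positivity
  have hS1le : S1 ≤ (1 + e) * M := by rw [hS1, hM]; linarith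
  -- first part
  have p1 : 2 * ((∑ x ∈ PL (∏ p ∈ P, p) Y, rho (g * ∏ p ∈ P, p) (x.2 - x.1)) * (S1 / ((Nat.totient (g * ∏ p ∈ P, p) : ℝ) * G ^ 2))) ≤
      K * ((1 + e) * M * cc (g * ∏ p ∈ P, p) D) + K * (e * ((1 + e) * M)) := by
    have h4 : 2 * (∑ x ∈ PL (∏ p ∈ P, p) Y, rho (g * ∏ p ∈ P, p) (x.2 - x.1)) ≤ L ^ 2 * (cc (g * ∏ p ∈ P, p) D + e) := by
      refine h2.trans ?_
      have : 2 * (k : ℝ) * L * D + 8 * (Y : ℝ) ^ 2 / Real.sqrt D ≤ e * L ^ 2 := hk1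
      linarith
    calc 2 * ((∑ x ∈ PL (∏ p ∈ P, p) Y, rho (g * ∏ p ∈ P, p) (x.2 - x.1)) * (S1 / ((Nat.totient (g * ∏ p ∈ P, p) : ℝ) * G ^ 2))) =
        (2 * (∑ x ∈ PL (∏ p ∈ P, p) Y, rho (g * ∏ p ∈ P, p) (x.2 - x.1))) * (S1 / ((Nat.totient (g * ∏ p ∈ P, p) : ℝ) * G ^ 2)) := by ring
      _ ≤ (L ^ 2 * (cc (g * ∏ p ∈ P, p) D + e)) * (S1 / ((Nat.totient (g * ∏ p ∈ P, p) : ℝ) * G ^ 2)) := by gcongr
      _ = K * (S1 * (cc (g * ∏ p ∈ P, p) D + e)) := by rw [hKdef]; ring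
      _ ≤ K * (((1 + e) * M) * (cc (g * ∏ p ∈ P, p) D + e)) := by gcongr
      _ = _ := by ring
  -- second part
  have p2 : 2 * (((PL (∏ p ∈ P, p) Y).card : ℝ) * (2 * ((Y : ℝ) * Q + R) * Er / G)) ≤ e / 2 * (K * M) := by
    have h4 : 2 * ((PL (∏ p ∈ P, p) Y).card : ℝ) ≤ L ^ 2 := by
      rw [hL]; exact_mod_cast PL_card (∏ p ∈ P, p) Y
    calc 2 * (((PL (∏ p ∈ P, p) Y).card : ℝ) * (2 * ((Y : ℝ) * Q + R) * Er / G)) =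
        (2 * ((PL (∏ p ∈ P, p) Y).card : ℝ)) * (2 * ((Y : ℝ) * Q + R) * Er / G) := by ring
      _ ≤ L ^ 2 * (2 * ((Y : ℝ) * Q + R) * Er / G) := by gcongr
      _ = K * (2 * ((Y : ℝ) * Q + R) * Er * (Nat.totient (g * ∏ p ∈ P, p)) * G) := by rw [hKdef]; field_simp
      _ ≤ K * (e / 2 * ((Q : ℝ) * R)) := by gcongr
      _ = _ := by rw [hM]; ring
  -- third part
  have p3 : 2 * ((∑ x ∈ (PL (∏ p ∈ P, p) Y).filter (fun x => f ∣ x.2 - x.1), rho (g * ∏ p ∈ P, p) (x.2 - x.1)) *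
        (6 / (Nat.totient (g * ∏ p ∈ P, p) : ℝ) * (S1 / G ^ 2 + ((Y : ℝ) * Q + R) * (g * (∏ p ∈ P, p : ℕ) * (Nat.sqrt Q + 2)) / G))) ≤
      K * (e * (S1 + M)) := by
    have h4 : 12 * (∑ x ∈ (PL (∏ p ∈ P, p) Y).filter (fun x => f ∣ x.2 - x.1), rho (g * ∏ p ∈ P, p) (x.2 - x.1)) ≤ e * L ^ 2 := by
      refine le_trans ?_ hk3
      calc 12 * (∑ x ∈ (PL (∏ p ∈ P, p) Y).filter (fun x => f ∣ x.2 - x.1), rho (g * ∏ p ∈ P, p) (x.2 - x.1)) ≤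
            12 * (10 * (Y : ℝ) ^ 2 / Real.sqrt f) := by gcongr
        _ = _ := by ring
    have h5 : ((Y : ℝ) * Q + R) * (g * (∏ p ∈ P, p : ℕ) * (Nat.sqrt Q + 2)) / G ≤ M / G ^ 2 := by
      rw [div_le_div_iff₀ b1 (by positivity)]
      calc ((Y : ℝ) * Q + R) * (g * (∏ p ∈ P, p : ℕ) * (Nat.sqrt Q + 2)) * G ^ 2 =
          (((Y : ℝ) * Q + R) * (g * (∏ p ∈ P, p : ℕ) * (Nat.sqrt Q + 2)) * G) * G := by ring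
        _ ≤ (Q * R) * G := by gcongr
        _ = _ := by rw [hM]
    calc 2 * ((∑ x ∈ (PL (∏ p ∈ P, p) Y).filter (fun x => f ∣ x.2 - x.1), rho (g * ∏ p ∈ P, p) (x.2 - x.1)) *
        (6 / (Nat.totient (g * ∏ p ∈ P, p) : ℝ) * (S1 / G ^ 2 + ((Y : ℝ) * Q + R) * (g * (∏ p ∈ P, p : ℕ) * (Nat.sqrt Q + 2)) / G))) =
        (12 * (∑ x ∈ (PL (∏ p ∈ P, p) Y).filter (fun x => f ∣ x.2 - x.1), rho (g * ∏ p ∈ P, p) (x.2 - x.1))) *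
        (1 / (Nat.totient (g * ∏ p ∈ P, p) : ℝ) * (S1 / G ^ 2 + ((Y : ℝ) * Q + R) * (g * (∏ p ∈ P, p : ℕ) * (Nat.sqrt Q + 2)) / G)) := by ring
      _ ≤ (e * L ^ 2) * (1 / (Nat.totient (g * ∏ p ∈ P, p) : ℝ) * (S1 / G ^ 2 + M / G ^ 2)) := by gcongr
      _ = _ := by rw [hKdef]; field_simp
  rw [← hK, ← hM]
  have hKQ : 0 < K * M := by positivity
  have q1 : K * (e * ((1 + e) * M)) ≤ 2 * e * (K * M) := by
    calc K * (e * ((1 + e) * M)) ≤ K * (e * (2 * M)) := by gcongr; linarith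
      _ = _ := by ring
  have q2 : K * (e * (S1 + M)) ≤ 3 * e * (K * M) := by
    calc K * (e * (S1 + M)) ≤ K * (e * ((1 + e) * M + M)) := by gcongr
      _ ≤ K * (e * (2 * M + M)) := by gcongr; linarith
      _ = _ := by ring
  have heKQ : 0 ≤ e * (K * M) := by positivity
  linarith

end

end Pool.Agent.H527.G
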