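import Mathlib
import Pool.Agent.H527.G.G4

/-! The variance over the pairs `(q, a)`, `a ≤ R`. -/

set_option autoImplicit false

namespace Pool.Agent.H527.G

open Finset Pool.Agent.H527.AP Pool.Agent.H527.S Pool.Agent.H527.M Pool.Agent.H527.N

section
variable {Q g R Y k D f N₀ : ℕ} {P : Finset ℕ} {Er e : ℝ}

theorem VarR.Wle (V : VarR Q g R Y k D f N₀ P Er e) {q : ℕ} (hq : q ∈ Ioc Q (2 * Q)) : ∏ p ∈ P, p ≤ q := by
  have := V.hWQ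
  rw [mem_Ioc] at hq
  omega

theorem VarR.Xlow (V : VarR Q g R Y k D f N₀ P Er e) {q : ℕ} (hq : q ∈ Ioc Q (2 * Q)) (hqW : q.Coprime (∏ p ∈ P, p)) :
    (1 - e) * (hm Q Y P * R) ≤ ((∑ a ∈ rows (∏ p ∈ P, p) q 0 R, Nn Y q a : ℕ) : ℝ) := by
  classical
  obtain ⟨b1, b2, b3, b4, b5, b6, b7, b8, b9⟩ := V.basic
  have he := V.he
  have he1 := V.he1
  have hQ2 := V.hQ
  have hWq := V.Wle hq
  have hR0 := V.hR0
  rw [mem_Ioc] at hq
  rw [first_moment (by omega) hWq]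
  push_cast
  have hqQ : (Q : ℝ) ≤ q := by exact_mod_cast hq.1.le
  have hq0 : (0 : ℝ) < q := by linarith
  have hk5 := V.k5
  have hk4 := V.k4
  have h1 : ∀ l ∈ Ls (∏ p ∈ P, p) Y, ((R : ℝ) / (Nat.totient (∏ p ∈ P, p) : ℝ) * (1 - e / 2)) / ((1 + e / 2) * Real.log Q) ≤
      (blk (∏ p ∈ P, p) q 0 R l : ℝ) := by
    intro l hl
    unfold Ls at hl
    rw [mem_filter, mem_Icc] at hl
    have hlx : l * q + R ≤ 2 * Xb Q Y R := by
      have h4 : l * q ≤ (Y + 1) * (2 * Q) := Nat.mul_le_mul (by omega) hq.2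
      have h5 : 2 * Xb Q Y R = (Y + 1) * (2 * Q) + 2 * R := by unfold Xb; ring
      omega
    have h2 := blk_ge' (W := ∏ p ∈ P, p) (q := q) (Q := Q) (x := Xb Q Y R) (β := R) (l := l) (Er := Er)
      V.hHW hQ2 hq.1.le hl.1.1 hlx (Nat.Coprime.mul_left hl.2 hqW)
    refine le_trans ?_ h2
    have hlq : 1 * q ≤ l * q := Nat.mul_le_mul_right q hl.1.1
    have h3 : Real.log ((l * q + R : ℕ) : ℝ) ≤ (1 + e / 2) * Real.log Q := by
      refine le_trans (Real.log_le_log (by exact_mod_cast (by omega : 0 < l * q + R)) ?_) hk5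
      exact_mod_cast hlx
    have h3' : 0 < Real.log ((l * q + R : ℕ) : ℝ) := by
      apply Real.log_pos
      exact_mod_cast (by omega : 1 < l * q + R)
    have h4 : (R : ℝ) / (Nat.totient (∏ p ∈ P, p) : ℝ) * (1 - e / 2) ≤
        (R : ℝ) / (Nat.totient (∏ p ∈ P, p) : ℝ) - 2 * Er - R2 (Xb Q Y R) := by
      linarith
    have h5 : 0 ≤ (R : ℝ) / (Nat.totient (∏ p ∈ P, p) : ℝ) * (1 - e / 2) := by
      apply mul_nonneg (by positivity); linarith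
    calc ((R : ℝ) / (Nat.totient (∏ p ∈ P, p) : ℝ) * (1 - e / 2)) / ((1 + e / 2) * Real.log Q) ≤
          ((R : ℝ) / (Nat.totient (∏ p ∈ P, p) : ℝ) * (1 - e / 2)) / Real.log ((l * q + R : ℕ) : ℝ) :=
          div_le_div_of_nonneg_left h5 h3' h3
      _ ≤ _ := by gcongr
  have h2 := card_nsmul_le_sum _ _ _ h1
  rw [nsmul_eq_mul] at h2
  refine le_trans ?_ h2
  unfold hm
  have h3 : (1 - e) * (1 + e / 2) ≤ 1 - e / 2 := by nlinarith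
  have h4 : (1 - e) ≤ (1 - e / 2) / (1 + e / 2) := by
    rw [le_div_iff₀ (by linarith)]; exact h3
  calc (1 - e) * (((Ls (∏ p ∈ P, p) Y).card : ℝ) / ((Nat.totient (∏ p ∈ P, p) : ℝ) * Real.log Q) * R) ≤
      ((1 - e / 2) / (1 + e / 2)) * (((Ls (∏ p ∈ P, p) Y).card : ℝ) / ((Nat.totient (∏ p ∈ P, p) : ℝ) * Real.log Q) * R) := by gcongr
    _ = _ := by field_simp

theorem VarR.Xupp (V : VarR Q g R Y k D f N₀ P Er e) {q : ℕ} (hq : q ∈ Ioc Q (2 * Q)) (hqW : q.Coprime (∏ p ∈ P, p)) :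
    ((∑ a ∈ rows (∏ p ∈ P, p) q 0 R, Nn Y q a : ℕ) : ℝ) ≤ (1 + e / 2) * (hm Q Y P * R) := by
  classical
  obtain ⟨b1, b2, b3, b4, b5, b6, b7, b8, b9⟩ := V.basic
  have he := V.he
  have he1 := V.he1
  have hQ2 := V.hQ
  have hWq := V.Wle hq
  have hR0 := V.hR0
  rw [mem_Ioc] at hq
  rw [first_moment (by omega) hWq]
  push_cast
  have hqQ : (Q : ℝ) ≤ q := by exact_mod_cast hq.1.le
  have hq0 : (0 : ℝ) < q := by linarith
  have hk4 := V.k4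
  have h1 : ∀ l ∈ Ls (∏ p ∈ P, p) Y, (blk (∏ p ∈ P, p) q 0 R l : ℝ) ≤
      ((R : ℝ) / (Nat.totient (∏ p ∈ P, p) : ℝ) * (1 + e / 2)) / Real.log Q := by
    intro l hl
    unfold Ls at hl
    rw [mem_filter, mem_Icc] at hl
    have hlx : l * q + R ≤ 2 * Xb Q Y R := by
      have h4 : l * q ≤ (Y + 1) * (2 * Q) := Nat.mul_le_mul (by omega) hq.2
      have h5 : 2 * Xb Q Y R = (Y + 1) * (2 * Q) + 2 * R := by unfold Xb; ring
      omega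
    have h2 := blk_le' (W := ∏ p ∈ P, p) (q := q) (Q := Q) (x := Xb Q Y R) (β := R) (l := l) (Er := Er)
      V.hHW hQ2 hq.1.le hl.1.1 hlx (Nat.Coprime.mul_left hl.2 hqW)
    refine h2.trans ?_
    have h3 : Real.log Q ≤ Real.log ((l : ℝ) * q) := by
      apply Real.log_le_log b2
      have : (1 : ℝ) ≤ l := by exact_mod_cast hl.1.1
      nlinarith
    have hR2 : 0 ≤ R2 (Xb Q Y R) := by unfold R2; positivity
    have h4 : (R : ℝ) / (Nat.totient (∏ p ∈ P, p) : ℝ) + 2 * Er ≤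
        (R : ℝ) / (Nat.totient (∏ p ∈ P, p) : ℝ) * (1 + e / 2) := by
      linarith
    have hEr := V.hEr
    calc ((R : ℝ) / (Nat.totient (∏ p ∈ P, p) : ℝ) + 2 * Er) / Real.log ((l : ℝ) * q) ≤
          ((R : ℝ) / (Nat.totient (∏ p ∈ P, p) : ℝ) + 2 * Er) / Real.log Q :=
          div_le_div_of_nonneg_left (by positivity) b1 h3
      _ ≤ _ := by gcongr
  have h2 := sum_le_card_nsmul _ _ _ h1
  rw [nsmul_eq_mul] at h2
  refine h2.trans (le_of_eq ?_)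
  unfold hm
  field_simp

theorem VarR.Rbd (V : VarR Q g R Y k D f N₀ P Er e) {q : ℕ} (hq : q ∈ Ioc Q (2 * Q)) (hqW : q.Coprime (∏ p ∈ P, p)) :
    ((rows (∏ p ∈ P, p) q 0 R).card : ℝ) ≤ (1 + e) * ((R : ℝ) / (∏ p ∈ P, p : ℕ) * ((Nat.totient q : ℝ) / q)) ∧
    (1 - e) * ((R : ℝ) / (∏ p ∈ P, p : ℕ) * ((Nat.totient q : ℝ) / q)) ≤ ((rows (∏ p ∈ P, p) q 0 R).card : ℝ) := by
  have h6 := V.k6 q hq
  have hW : 0 < ∏ p ∈ P, p := Finset.prod_pos fun p hp => (V.hP p hp).pos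
  rw [mem_Ioc] at hq
  have h1 := rows_card (∏ p ∈ P, p) q 0 R (by omega) hW (Nat.zero_le R) hqW
  rw [Nat.cast_zero, sub_zero, abs_le] at h1
  constructor <;> linarith [h1.1, h1.2]

theorem VarR.one (V : VarR Q g R Y k D f N₀ P Er e) {q : ℕ} (hq : q ∈ Ioc Q (2 * Q)) (hqW : q.Coprime (∏ p ∈ P, p)) :
    -(2 * mu Q Y P q * ((∑ a ∈ rows (∏ p ∈ P, p) q 0 R, Nn Y q a : ℕ) : ℝ)) +
      mu Q Y P q ^ 2 * ((rows (∏ p ∈ P, p) q 0 R).card : ℝ) ≤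
      -((1 - 3 * e) * (hm Q Y P ^ 2 * (∏ p ∈ P, p : ℕ) * (R * (q / (Nat.totient q : ℝ))))) := by
  have h1 := V.Xlow hq hqW
  have h2 := (V.Rbd hq hqW).1
  obtain ⟨b1, b2, b3, b4, b5, b6, b7, b8, b9⟩ := V.basic
  obtain ⟨hK, hh, _⟩ := V.KQ
  rw [mem_Ioc] at hq
  have hq0 : (0 : ℝ) < q := by exact_mod_cast (by omega : 0 < q)
  have hφq : (0 : ℝ) < (Nat.totient q : ℝ) := by exact_mod_cast Nat.totient_pos.2 (by omega : 0 < q)
  have hmu : 0 < mu Q Y P q := by unfold mu; positivity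
  have h3 : mu Q Y P q * ((1 + e) * ((R : ℝ) / (∏ p ∈ P, p : ℕ) * ((Nat.totient q : ℝ) / q))) = (1 + e) * (hm Q Y P * R) := by
    unfold mu; field_simp
  have h4 : mu Q Y P q * (hm Q Y P * R) = hm Q Y P ^ 2 * (∏ p ∈ P, p : ℕ) * (R * (q / (Nat.totient q : ℝ))) := by
    unfold mu; ring
  rw [← h4]
  have h5 : mu Q Y P q ^ 2 * ((rows (∏ p ∈ P, p) q 0 R).card : ℝ) ≤ mu Q Y P q * ((1 + e) * (hm Q Y P * R)) := by
    rw [← h3, pow_two, mul_assoc]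
    gcongr
  have h6 : mu Q Y P q * ((1 - e) * (hm Q Y P * R)) ≤ mu Q Y P q * ((∑ a ∈ rows (∏ p ∈ P, p) q 0 R, Nn Y q a : ℕ) : ℝ) := by gcongr
  nlinarith

theorem Qs_card_le {Q g W : ℕ} : ((Qs Q g W).card : ℝ) ≤ 2 * Q / g := by
  have h4 : (Qs Q g W).card ≤ ((Ioc Q (2 * Q)).filter (fun q => g ∣ q)).card := by
    apply card_le_card
    intro q hq
    unfold Qs at hq
    rw [mem_filter] at hq ⊢
    exact ⟨hq.1, hq.2.1⟩
  have h5 : ((Ioc Q (2 * Q)).filter (fun q => g ∣ q)).card ≤ ((Ioc 0 (2 * Q)).filter (fun q => g ∣ q)).card := by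
    apply card_le_card
    intro q hq
    rw [mem_filter, mem_Ioc] at hq ⊢
    exact ⟨⟨by omega, hq.1.2⟩, hq.2⟩
  rw [Nat.Ioc_filter_dvd_card_eq_div] at h5
  have h6 : ((2 * Q / g : ℕ) : ℝ) ≤ ((2 * Q : ℕ) : ℝ) / g := Nat.cast_div_le
  push_cast at h6
  have h7 : ((Qs Q g W).card : ℝ) ≤ ((2 * Q / g : ℕ) : ℝ) := by exact_mod_cast h4.trans h5
  linarith

/-- **the variance** -/
theorem VarR.variance (V : VarR Q g R Y k D f N₀ P Er e) :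
    ∑ q ∈ Qs Q g (∏ p ∈ P, p), ∑ a ∈ rows (∏ p ∈ P, p) q 0 R, ((Nn Y q a : ℝ) - mu Q Y P q) ^ 2 ≤
      60 * e * (KK Q g Y P * ((Q : ℝ) * R)) := by
  classical
  obtain ⟨b1, b2, b3, b4, b5, b6, b7, b8, b9⟩ := V.basic
  obtain ⟨hK, hh, hKh⟩ := V.KQ
  have he := V.he
  have he1 := V.he1
  have hWpos : 0 < ∏ p ∈ P, p := Finset.prod_pos fun p hp => (V.hP p hp).pos
  have hsec := second_moment (Q := Q) (g := g) (R := R) (Y := Y) V.hWQ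
  have hoff := V.off
  have hg0 : (0 : ℝ) < g := by exact_mod_cast V.hg
  obtain ⟨M, hM⟩ : ∃ M : ℝ, M = (Q : ℝ) * R := ⟨_, rfl⟩
  have hM0 : 0 < M := by rw [hM]; positivity
  -- diagonal
  have hdiag : ((∑ q ∈ Qs Q g (∏ p ∈ P, p), ∑ a ∈ rows (∏ p ∈ P, p) q 0 R, Nn Y q a : ℕ) : ℝ) ≤
      e * (KK Q g Y P * M) := by
    have h1 : ∀ q ∈ Qs Q g (∏ p ∈ P, p), ((∑ a ∈ rows (∏ p ∈ P, p) q 0 R, Nn Y q a : ℕ) : ℝ) ≤ 2 * (hm Q Y P * R) := by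
      intro q hq
      unfold Qs at hq
      rw [mem_filter] at hq
      refine (V.Xupp hq.1 hq.2.2).trans ?_
      have : 0 < hm Q Y P * R := by positivity
      nlinarith
    have h2 := sum_le_card_nsmul _ _ _ h1
    rw [nsmul_eq_mul] at h2
    have h3 := Qs_card_le (Q := Q) (g := g) (W := ∏ p ∈ P, p)
    push_cast at h2 ⊢
    refine h2.trans ?_
    have h4 : (Nat.totient g : ℝ) ≤ g := by exact_mod_cast Nat.totient_le g
    have hk0 := V.k0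
    calc ((Qs Q g (∏ p ∈ P, p)).card : ℝ) * (2 * (hm Q Y P * R)) ≤ (2 * Q / g) * (2 * (hm Q Y P * R)) := by gcongr
      _ ≤ (2 * Q / (Nat.totient g : ℝ)) * (2 * (hm Q Y P * R)) := by gcongr
      _ = (6 * Real.log Q) * (2 / 3 * (Q * R) * hm Q Y P / ((Nat.totient g : ℝ) * Real.log Q)) := by field_simp; ring
      _ ≤ (e * (Ls (∏ p ∈ P, p) Y).card) * (2 / 3 * (Q * R) * hm Q Y P / ((Nat.totient g : ℝ) * Real.log Q)) := by gcongr
      _ = 2 / 3 * (e * ((hm Q Y P * ((Ls (∏ p ∈ P, p) Y).card : ℝ) / ((Nat.totient g : ℝ) * Real.log Q)) * (Q * R))) := by ring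
      _ = 2 / 3 * (e * (KK Q g Y P * M)) := by
          rw [hM, ← hKh]
          unfold hm
          field_simp
      _ ≤ _ := by
          have : 0 ≤ e * (KK Q g Y P * M) := by positivity
          linarith
  -- the main term
  have hmain : ∑ q ∈ Qs Q g (∏ p ∈ P, p), (-(2 * mu Q Y P q * ((∑ a ∈ rows (∏ p ∈ P, p) q 0 R, Nn Y q a : ℕ) : ℝ)) +
      mu Q Y P q ^ 2 * ((rows (∏ p ∈ P, p) q 0 R).card : ℝ)) ≤
      -((1 - 3 * e) * (KK Q g Y P * (M * cc (g * ∏ p ∈ P, p) D))) + e * (KK Q g Y P * M) := by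
    have h1 : ∀ q ∈ Qs Q g (∏ p ∈ P, p), (-(2 * mu Q Y P q * ((∑ a ∈ rows (∏ p ∈ P, p) q 0 R, Nn Y q a : ℕ) : ℝ)) +
      mu Q Y P q ^ 2 * ((rows (∏ p ∈ P, p) q 0 R).card : ℝ)) ≤
      -((1 - 3 * e) * (hm Q Y P ^ 2 * (∏ p ∈ P, p : ℕ) * R)) * (q / (Nat.totient q : ℝ)) := by
      intro q hq
      unfold Qs at hq
      rw [mem_filter] at hq
      refine (V.one hq.1 hq.2.2).trans (le_of_eq ?_)
      ring
    refine (sum_le_sum h1).trans ?_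
    rw [← mul_sum]
    have h2 := sum_tot Q g (∏ p ∈ P, p) D hWpos V.hg V.hgP
    have h3 : 0 ≤ (1 - 3 * e) * (hm Q Y P ^ 2 * (∏ p ∈ P, p : ℕ) * R) := by
      apply mul_nonneg (by linarith) (by positivity)
    have h4 := mul_le_mul_of_nonneg_left h2 h3
    have h5 : (1 - 3 * e) * (hm Q Y P ^ 2 * (∏ p ∈ P, p : ℕ) * R) * (1 / (Nat.totient g : ℝ) *
        ((Nat.totient (∏ p ∈ P, p) : ℝ) / (∏ p ∈ P, p : ℕ) * Q * cc (g * ∏ p ∈ P, p) D -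
        3 * g * (2 : ℝ) ^ (∏ p ∈ P, p).primeFactors.card * D)) =
        (1 - 3 * e) * (KK Q g Y P * (M * cc (g * ∏ p ∈ P, p) D)) -
        (1 - 3 * e) * (KK Q g Y P * R * (3 * (((∏ p ∈ P, p : ℕ) : ℝ) / (Nat.totient (∏ p ∈ P, p) : ℝ)) *
          (g * (2 : ℝ) ^ (∏ p ∈ P, p).primeFactors.card * D))) := by
      rw [← hKh, hM]
      field_simp
    rw [h5] at h4
    have hk7 := V.k7
    have h6 : (1 - 3 * e) * (KK Q g Y P * R * (3 * (((∏ p ∈ P, p : ℕ) : ℝ) / (Nat.totient (∏ p ∈ P, p) : ℝ)) *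
          (g * (2 : ℝ) ^ (∏ p ∈ P, p).primeFactors.card * D))) ≤ 1 * (KK Q g Y P * R * (e * Q)) := by
      apply mul_le_mul (by linarith) _ (by positivity) (by norm_num)
      gcongr
    have h7 : 1 * (KK Q g Y P * R * (e * Q)) = e * (KK Q g Y P * M) := by rw [hM]; ring
    linarith
  have hexp : ∑ q ∈ Qs Q g (∏ p ∈ P, p), ∑ a ∈ rows (∏ p ∈ P, p) q 0 R, ((Nn Y q a : ℝ) - mu Q Y P q) ^ 2 =
      ((∑ q ∈ Qs Q g (∏ p ∈ P, p), ∑ a ∈ rows (∏ p ∈ P, p) q 0 R, (Nn Y q a) ^ 2 : ℕ) : ℝ) +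
      ∑ q ∈ Qs Q g (∏ p ∈ P, p), (-(2 * mu Q Y P q * ((∑ a ∈ rows (∏ p ∈ P, p) q 0 R, Nn Y q a : ℕ) : ℝ)) +
      mu Q Y P q ^ 2 * ((rows (∏ p ∈ P, p) q 0 R).card : ℝ)) := by
    push_cast
    rw [← sum_add_distrib]
    apply sum_congr rfl
    intro q _
    rw [mul_sum, ← sum_neg_distrib]
    have : mu Q Y P q ^ 2 * ((rows (∏ p ∈ P, p) q 0 R).card : ℝ) = ∑ a ∈ rows (∏ p ∈ P, p) q 0 R, mu Q Y P q ^ 2 := by
      rw [sum_const, nsmul_eq_mul]; ring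
    rw [this, ← sum_add_distrib, ← sum_add_distrib]
    apply sum_congr rfl
    intro a _
    ring
  have hsec' : ((∑ q ∈ Qs Q g (∏ p ∈ P, p), ∑ a ∈ rows (∏ p ∈ P, p) q 0 R, (Nn Y q a) ^ 2 : ℕ) : ℝ) ≤
      ((∑ q ∈ Qs Q g (∏ p ∈ P, p), ∑ a ∈ rows (∏ p ∈ P, p) q 0 R, Nn Y q a : ℕ) : ℝ) +
        2 * ((∑ x ∈ PL (∏ p ∈ P, p) Y, TR Q g (∏ p ∈ P, p) R x.1 x.2 : ℕ) : ℝ) := by exact_mod_cast hsec
  rw [hexp]
  rw [← hM] at hoff ⊢
  obtain ⟨Z, hZ⟩ : ∃ Z : ℝ, Z = KK Q g Y P * (M * cc (g * ∏ p ∈ P, p) D) := ⟨_, rfl⟩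
  have hZle : Z ≤ 5 * (KK Q g Y P * M) := by
    rw [hZ]
    have h1 := cc_le (g * ∏ p ∈ P, p) D
    have h2 := cc_nonneg (g * ∏ p ∈ P, p) D
    calc KK Q g Y P * (M * cc (g * ∏ p ∈ P, p) D) ≤ KK Q g Y P * (M * 5) := by gcongr
      _ = _ := by ring
  have e1 : KK Q g Y P * ((1 + e) * M * cc (g * ∏ p ∈ P, p) D) = (1 + e) * Z := by rw [hZ]; ring
  rw [e1] at hoff
  rw [← hZ] at hmain
  have h9 : e * Z ≤ e * (5 * (KK Q g Y P * M)) := by gcongr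
  have h10 : 0 ≤ e * (KK Q g Y P * M) := by positivity
  linarith

end

end Pool.Agent.H527.G
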