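import Mathlib
import Pool.Agent.H527.G.G5
import Pool.Agent.H527.N.N23

/-! Typical rows of typical moduli. -/

set_option autoImplicit false

namespace Pool.Agent.H527.G

open Finset Pool.Agent.H527.AP Pool.Agent.H527.S Pool.Agent.H527.M Pool.Agent.H527.N

/-- the rows whose number of primes is not near the mean -/
noncomputable def BadR (Q Y : ℕ) (P0 : Finset ℕ) (η : ℝ) (R q : ℕ) : Finset ℕ :=
  (rows (∏ p ∈ Pq P0 q, p) q 0 R).filter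
    (fun a => ¬ |(Nn Y q a : ℝ) - mu Q Y (Pq P0 q) q| ≤ η * mu Q Y (Pq P0 q) q)

/-- the rows which are not typical at one of the scales -/
noncomputable def BadS (Q : ℕ) (Ys : Finset ℕ) (P0 : Finset ℕ) (η : ℝ) (R q : ℕ) : Finset ℕ :=
  (rows (∏ p ∈ Pq P0 q, p) q 0 R).filter
    (fun a => ¬ ∀ Y ∈ Ys, |(Nn Y q a : ℝ) - mu Q Y (Pq P0 q) q| ≤ η * mu Q Y (Pq P0 q) q)

theorem mu_geR {Q g R Y k D f N₀ : ℕ} {P : Finset ℕ} {Er e : ℝ} (V : VarR Q g R Y k D f N₀ P Er e) {q : ℕ} (hq : 0 < q) :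
    hm Q Y P * (∏ p ∈ P, p : ℕ) ≤ mu Q Y P q := by
  obtain ⟨hK, hh, _⟩ := V.KQ
  have hφq : (0 : ℝ) < (Nat.totient q : ℝ) := by exact_mod_cast Nat.totient_pos.2 hq
  unfold mu
  apply le_mul_of_one_le_right (by positivity)
  rw [one_le_div hφq]
  exact_mod_cast Nat.totient_le q

/-- Chebyshev's inequality for one `g` -/
theorem chebR {Q g R Y k D f N₀ : ℕ} {P0 : Finset ℕ} {Er e η : ℝ} (hP0 : ∀ p ∈ P0, p.Prime) (hg : g ∣ ∏ p ∈ P0, p)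
    (V : VarR Q g R Y k D f N₀ (Pq P0 g) Er e) (hη : 0 < η) :
    ∑ q ∈ (Ioc Q (2 * Q)).filter (fun q => Nat.gcd q (∏ p ∈ P0, p) = g),
      ((∏ p ∈ Pq P0 q, p : ℕ) : ℝ) * ((BadR Q Y P0 η R q).card : ℝ) ≤
      60 * e / η ^ 2 * ((Q : ℝ) * R) * (1 / (Nat.totient g : ℝ)) := by
  classical
  obtain ⟨b1, b2, b3, b4, b5, b6, b7, b8, b9⟩ := V.basic
  obtain ⟨hK, hh, hKh⟩ := V.KQ
  have hvar := V.variance
  rw [Qs_gcd hP0 hg] at hvar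
  obtain ⟨W, hW⟩ : ∃ W : ℝ, W = ((∏ p ∈ Pq P0 g, p : ℕ) : ℝ) := ⟨_, rfl⟩
  have hW0 : 0 < W := by rw [hW]; exact b6
  have hφW : (Nat.totient (∏ p ∈ Pq P0 g, p) : ℝ) ≤ W := by rw [hW]; exact_mod_cast Nat.totient_le _
  have h1 : ∀ q ∈ (Ioc Q (2 * Q)).filter (fun q => Nat.gcd q (∏ p ∈ P0, p) = g),
      ((∏ p ∈ Pq P0 q, p : ℕ) : ℝ) * ((BadR Q Y P0 η R q).card : ℝ) * (η ^ 2 * (hm Q Y (Pq P0 g) ^ 2 * W)) ≤
      ∑ a ∈ rows (∏ p ∈ Pq P0 g, p) q 0 R, ((Nn Y q a : ℝ) - mu Q Y (Pq P0 g) q) ^ 2 := by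
    intro q hq
    rw [mem_filter, mem_Ioc] at hq
    have e1 : Pq P0 q = Pq P0 g := by rw [← hq.2, Pq_gcd]
    have hmu := mu_geR V (show 0 < q by omega)
    have hmu0 : 0 ≤ hm Q Y (Pq P0 g) * (∏ p ∈ Pq P0 g, p : ℕ) := by positivity
    unfold BadR
    rw [e1]
    have h2 : ∑ a ∈ (rows (∏ p ∈ Pq P0 g, p) q 0 R).filter
        (fun a => ¬ |(Nn Y q a : ℝ) - mu Q Y (Pq P0 g) q| ≤ η * mu Q Y (Pq P0 g) q), (η * mu Q Y (Pq P0 g) q) ^ 2 ≤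
        ∑ a ∈ rows (∏ p ∈ Pq P0 g, p) q 0 R, ((Nn Y q a : ℝ) - mu Q Y (Pq P0 g) q) ^ 2 := by
      refine le_trans (sum_le_sum ?_) (sum_le_sum_of_subset_of_nonneg (filter_subset _ _) (fun a _ _ => sq_nonneg _))
      intro a ha
      rw [mem_filter, not_le] at ha
      rw [← sq_abs ((Nn Y q a : ℝ) - mu Q Y (Pq P0 g) q)]
      have : 0 ≤ mu Q Y (Pq P0 g) q := hmu0.trans hmu
      exact pow_le_pow_left₀ (by positivity) ha.2.le 2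
    refine le_trans ?_ h2
    rw [sum_const, nsmul_eq_mul, ← hW]
    obtain ⟨c, hc⟩ : ∃ c : ℝ, c = (((rows (∏ p ∈ Pq P0 g, p) q 0 R).filter
        (fun a => ¬ |(Nn Y q a : ℝ) - mu Q Y (Pq P0 g) q| ≤ η * mu Q Y (Pq P0 g) q)).card : ℝ) := ⟨_, rfl⟩
    rw [← hc]
    have hc0 : 0 ≤ c := by rw [hc]; positivity
    rw [← hW] at hmu hmu0
    calc W * c * (η ^ 2 * (hm Q Y (Pq P0 g) ^ 2 * W)) = c * (η * (hm Q Y (Pq P0 g) * W)) ^ 2 := by ring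
      _ ≤ c * (η * mu Q Y (Pq P0 g) q) ^ 2 := by gcongr
  have h2 := (sum_le_sum h1).trans hvar
  rw [← sum_mul] at h2
  have h3 : 0 < η ^ 2 * (hm Q Y (Pq P0 g) ^ 2 * W) := by positivity
  rw [← le_div_iff₀ h3] at h2
  refine h2.trans ?_
  rw [← hKh, div_le_iff₀ h3]
  have he := V.he
  calc 60 * e * (hm Q Y (Pq P0 g) ^ 2 * (Nat.totient (∏ p ∈ Pq P0 g, p) : ℝ) / (Nat.totient g : ℝ) * ((Q : ℝ) * R)) ≤
      60 * e * (hm Q Y (Pq P0 g) ^ 2 * W / (Nat.totient g : ℝ) * ((Q : ℝ) * R)) := by gcongr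
    _ = _ := by field_simp

/-- the sum over all moduli -/
theorem cheb_allR {Q R Y k D f N₀ : ℕ} {P0 : Finset ℕ} {Er e η : ℝ} (hP0 : ∀ p ∈ P0, p.Prime)
    (hV : ∀ g, g ∣ ∏ p ∈ P0, p → VarR Q g R Y k D f N₀ (Pq P0 g) Er e) (hη : 0 < η)
    (h2 : 1 / 2 ≤ ∏ p ∈ P0, (1 - 1 / (p : ℝ))) :
    ∑ q ∈ Ioc Q (2 * Q), ((∏ p ∈ Pq P0 q, p : ℕ) : ℝ) * ((BadR Q Y P0 η R q).card : ℝ) ≤
      120 * e / η ^ 2 * ((Q : ℝ) * R) := by
  classical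
  have hV0 : 0 < ∏ p ∈ P0, p := Finset.prod_pos fun p hp => (hP0 p hp).pos
  have he : 0 < e := (hV 1 (one_dvd _)).he
  have h3 : ∑ q ∈ Ioc Q (2 * Q), ((∏ p ∈ Pq P0 q, p : ℕ) : ℝ) * ((BadR Q Y P0 η R q).card : ℝ) =
      ∑ g ∈ (∏ p ∈ P0, p).divisors, ∑ q ∈ (Ioc Q (2 * Q)).filter (fun q => Nat.gcd q (∏ p ∈ P0, p) = g),
        ((∏ p ∈ Pq P0 q, p : ℕ) : ℝ) * ((BadR Q Y P0 η R q).card : ℝ) := by
    rw [sum_fiberwise_of_maps_to]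
    intro q _
    rw [Nat.mem_divisors]
    exact ⟨Nat.gcd_dvd_right _ _, hV0.ne'⟩
  rw [h3]
  have h4 : ∀ g ∈ (∏ p ∈ P0, p).divisors, ∑ q ∈ (Ioc Q (2 * Q)).filter (fun q => Nat.gcd q (∏ p ∈ P0, p) = g),
        ((∏ p ∈ Pq P0 q, p : ℕ) : ℝ) * ((BadR Q Y P0 η R q).card : ℝ) ≤ 60 * e / η ^ 2 * ((Q : ℝ) * R) * hh 1 g := by
    intro g hg
    have hg1 := Nat.dvd_of_mem_divisors hg
    have h5 := chebR hP0 hg1 (hV g hg1) hη
    have h6 : hh 1 g = 1 / (Nat.totient g : ℝ) := by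
      unfold hh
      rw [if_pos ⟨(squarefree_prod_set P0 hP0).squarefree_of_dvd hg1, Nat.coprime_one_right g⟩]
    rw [h6]
    exact h5
  refine (sum_le_sum h4).trans ?_
  rw [← mul_sum, ← rho_eq 1 _ hV0, rho_one _ hV0]
  have h5 : ((∏ p ∈ P0, p : ℕ) : ℝ) / (Nat.totient (∏ p ∈ P0, p) : ℝ) ≤ 2 := by
    have h6 := tot_prod P0 hP0
    have h7 : (0 : ℝ) < ((∏ p ∈ P0, p : ℕ) : ℝ) := by exact_mod_cast hV0
    rw [h6, div_le_iff₀ (by positivity)]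
    nlinarith
  calc 60 * e / η ^ 2 * ((Q : ℝ) * R) * (((∏ p ∈ P0, p : ℕ) : ℝ) / (Nat.totient (∏ p ∈ P0, p) : ℝ)) ≤
      60 * e / η ^ 2 * ((Q : ℝ) * R) * 2 := by gcongr
    _ = _ := by ring

/-- **typical rows** -/
theorem typicalR {Q R Y k D f N₀ : ℕ} {P0 : Finset ℕ} {Er e η κ : ℝ} (hP0 : ∀ p ∈ P0, p.Prime)
    (hV : ∀ g, g ∣ ∏ p ∈ P0, p → VarR Q g R Y k D f N₀ (Pq P0 g) Er e) (hη : 0 < η) (hκ : 0 < κ)
    (h2 : 1 / 2 ≤ ∏ p ∈ P0, (1 - 1 / (p : ℝ))) (he : 14400 * e ≤ η ^ 2 * κ ^ 3) :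
    (((Ioc Q (2 * Q)).filter (fun q => ¬ ((∏ p ∈ Pq P0 q, p : ℕ) : ℝ) * ((BadR Q Y P0 η R q).card : ℝ) ≤
      κ * (R * ((Nat.totient q : ℝ) / q)))).card : ℝ) ≤ κ * Q := by
  classical
  have hall := cheb_allR hP0 hV hη h2
  have V1 := hV 1 (one_dvd _)
  have he0 := V1.he
  have hQ : 2 ≤ Q := V1.hQ
  have hQ0 : (0 : ℝ) < Q := by exact_mod_cast (by omega : 0 < Q)
  have hR0 : (0 : ℝ) < R := by exact_mod_cast V1.hR0
  obtain ⟨A, hA⟩ : ∃ A, A = (Ioc Q (2 * Q)).filter (fun q => ¬ ((∏ p ∈ Pq P0 q, p : ℕ) : ℝ) * ((BadR Q Y P0 η R q).card : ℝ) ≤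
      κ * (R * ((Nat.totient q : ℝ) / q))) := ⟨_, rfl⟩
  rw [← hA]
  -- the moduli with small totient
  obtain ⟨c, hc⟩ : ∃ c : ℝ, c = κ / 20 := ⟨_, rfl⟩
  have hc0 : 0 < c := by rw [hc]; positivity
  have hA1 : ((A.filter (fun q => (Nat.totient q : ℝ) < c * q)).card : ℝ) ≤ κ / 2 * Q := by
    have h3 : ∀ q ∈ A.filter (fun q => (Nat.totient q : ℝ) < c * q), 1 / c ≤ rho 1 q := by
      intro q hq
      rw [hA, mem_filter, mem_filter, mem_Ioc] at hq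
      have hq0 : 0 < q := by omega
      rw [rho_one q hq0]
      have hφq : (0 : ℝ) < (Nat.totient q : ℝ) := by exact_mod_cast Nat.totient_pos.2 hq0
      rw [div_le_div_iff₀ hc0 hφq, one_mul, mul_comm]
      exact hq.2.le
    have h4 := card_nsmul_le_sum _ _ _ h3
    rw [nsmul_eq_mul] at h4
    have h5 : ∑ q ∈ A.filter (fun q => (Nat.totient q : ℝ) < c * q), rho 1 q ≤ ∑ q ∈ Icc 1 (2 * Q), rho 1 q := by
      apply sum_le_sum_of_subset_of_nonneg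
      · intro q hq
        rw [hA, mem_filter, mem_filter, mem_Ioc] at hq
        rw [mem_Icc]
        omega
      · intro q _ _
        exact rho_nonneg 1 q
    have h6 := sum_rho (2 * Q)
    push_cast at h6
    have h7 : ((A.filter (fun q => (Nat.totient q : ℝ) < c * q)).card : ℝ) * (1 / c) ≤ 10 * Q := by linarith
    rw [mul_one_div, div_le_iff₀ hc0] at h7
    have h8 : 10 * (Q : ℝ) * c = κ / 2 * Q := by rw [hc]; ring
    linarith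
  have hA2 : ((A.filter (fun q => ¬ (Nat.totient q : ℝ) < c * q)).card : ℝ) ≤ κ / 2 * Q := by
    have h3 : ∀ q ∈ A.filter (fun q => ¬ (Nat.totient q : ℝ) < c * q), κ * c * R ≤
        ((∏ p ∈ Pq P0 q, p : ℕ) : ℝ) * ((BadR Q Y P0 η R q).card : ℝ) := by
      intro q hq
      rw [hA, mem_filter, mem_filter, mem_Ioc] at hq
      obtain ⟨⟨⟨hq1, hq2⟩, hbad⟩, hφ⟩ := hq
      rw [not_le] at hbad
      rw [not_lt] at hφ
      have hq0 : (0 : ℝ) < q := by exact_mod_cast (by omega : 0 < q)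
      refine le_trans ?_ hbad.le
      have h4 : c ≤ (Nat.totient q : ℝ) / q := by rw [le_div_iff₀ hq0]; exact hφ
      calc κ * c * R = κ * (R * c) := by ring
        _ ≤ κ * (R * ((Nat.totient q : ℝ) / q)) := by gcongr
    have h4 := card_nsmul_le_sum _ _ _ h3
    rw [nsmul_eq_mul] at h4
    have h5 : ∑ q ∈ A.filter (fun q => ¬ (Nat.totient q : ℝ) < c * q), ((∏ p ∈ Pq P0 q, p : ℕ) : ℝ) * ((BadR Q Y P0 η R q).card : ℝ) ≤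
        ∑ q ∈ Ioc Q (2 * Q), ((∏ p ∈ Pq P0 q, p : ℕ) : ℝ) * ((BadR Q Y P0 η R q).card : ℝ) := by
      apply sum_le_sum_of_subset_of_nonneg
      · intro q hq
        rw [hA, mem_filter, mem_filter] at hq
        exact hq.1.1
      · intro q _ _
        positivity
    have h6 := (h4.trans h5).trans hall
    have h7 : 120 * e / η ^ 2 * ((Q : ℝ) * R) ≤ (κ / 2 * Q) * (κ * c * R) := by
      rw [hc, div_mul_eq_mul_div, div_le_iff₀ (by positivity)]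
      have h8 : 14400 * e * ((Q : ℝ) * R) ≤ η ^ 2 * κ ^ 3 * ((Q : ℝ) * R) := by gcongr
      have h9 : 0 ≤ η ^ 2 * κ ^ 3 * ((Q : ℝ) * R) := by positivity
      have h10 : κ / 2 * Q * (κ * (κ / 20) * R) * η ^ 2 = η ^ 2 * κ ^ 3 * ((Q : ℝ) * R) / 40 := by ring
      rw [h10]
      linarith
    exact le_of_mul_le_mul_right (h6.trans h7) (by positivity)
  have h3 : (A.card : ℝ) = ((A.filter (fun q => (Nat.totient q : ℝ) < c * q)).card : ℝ) +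
      ((A.filter (fun q => ¬ (Nat.totient q : ℝ) < c * q)).card : ℝ) := by
    exact_mod_cast (card_filter_add_card_filter_not (s := A) (fun q => (Nat.totient q : ℝ) < c * q)).symm
  rw [h3]
  linarith

/-- several scales -/
theorem multiR {Q R D f N₀ : ℕ} {P0 Ys : Finset ℕ} {k : ℕ → ℕ} {Er : ℕ → ℝ} {e η κ : ℝ} (hP0 : ∀ p ∈ P0, p.Prime)
    (hV : ∀ Y ∈ Ys, ∀ g, g ∣ ∏ p ∈ P0, p → VarR Q g R Y (k Y) D f N₀ (Pq P0 g) (Er Y) e) (hη : 0 < η) (hκ : 0 < κ)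
    (h2 : 1 / 2 ≤ ∏ p ∈ P0, (1 - 1 / (p : ℝ))) (he : 14400 * e ≤ η ^ 2 * κ ^ 3) :
    (((Ioc Q (2 * Q)).filter (fun q => ¬ ((∏ p ∈ Pq P0 q, p : ℕ) : ℝ) * ((BadS Q Ys P0 η R q).card : ℝ) ≤
      κ * Ys.card * (R * ((Nat.totient q : ℝ) / q)))).card : ℝ) ≤ κ * Ys.card * Q := by
  classical
  have hsub : (Ioc Q (2 * Q)).filter (fun q => ¬ ((∏ p ∈ Pq P0 q, p : ℕ) : ℝ) * ((BadS Q Ys P0 η R q).card : ℝ) ≤
      κ * Ys.card * (R * ((Nat.totient q : ℝ) / q))) ⊆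
      Ys.biUnion (fun Y => (Ioc Q (2 * Q)).filter (fun q => ¬ ((∏ p ∈ Pq P0 q, p : ℕ) : ℝ) * ((BadR Q Y P0 η R q).card : ℝ) ≤
        κ * (R * ((Nat.totient q : ℝ) / q)))) := by
    intro q hq
    rw [mem_filter] at hq
    rw [mem_biUnion]
    by_contra hcon
    apply hq.2
    have h3 : ∀ Y ∈ Ys, ((∏ p ∈ Pq P0 q, p : ℕ) : ℝ) * ((BadR Q Y P0 η R q).card : ℝ) ≤ κ * (R * ((Nat.totient q : ℝ) / q)) := by
      intro Y hY
      by_contra h4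
      exact hcon ⟨Y, hY, mem_filter.2 ⟨hq.1, h4⟩⟩
    have h4 : BadS Q Ys P0 η R q ⊆ Ys.biUnion (fun Y => BadR Q Y P0 η R q) := by
      intro a ha
      unfold BadS at ha
      rw [mem_filter] at ha
      rw [mem_biUnion]
      obtain ⟨h5, h6⟩ := ha
      push Not at h6
      obtain ⟨Y, hY, h6⟩ := h6
      refine ⟨Y, hY, ?_⟩
      unfold BadR
      exact mem_filter.2 ⟨h5, not_le.2 h6⟩
    have h5 := (card_le_card h4).trans card_biUnion_le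
    have h6 : ((BadS Q Ys P0 η R q).card : ℝ) ≤ ∑ Y ∈ Ys, ((BadR Q Y P0 η R q).card : ℝ) := by
      exact_mod_cast h5
    calc ((∏ p ∈ Pq P0 q, p : ℕ) : ℝ) * ((BadS Q Ys P0 η R q).card : ℝ) ≤
          ((∏ p ∈ Pq P0 q, p : ℕ) : ℝ) * ∑ Y ∈ Ys, ((BadR Q Y P0 η R q).card : ℝ) := by gcongr
      _ = ∑ Y ∈ Ys, ((∏ p ∈ Pq P0 q, p : ℕ) : ℝ) * ((BadR Q Y P0 η R q).card : ℝ) := by rw [mul_sum]
      _ ≤ ∑ _Y ∈ Ys, κ * (R * ((Nat.totient q : ℝ) / q)) := sum_le_sum h3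
      _ = _ := by rw [sum_const, nsmul_eq_mul]; ring
  have h3 : (((Ioc Q (2 * Q)).filter (fun q => ¬ ((∏ p ∈ Pq P0 q, p : ℕ) : ℝ) * ((BadS Q Ys P0 η R q).card : ℝ) ≤
      κ * Ys.card * (R * ((Nat.totient q : ℝ) / q)))).card : ℝ) ≤
      ∑ Y ∈ Ys, (((Ioc Q (2 * Q)).filter (fun q => ¬ ((∏ p ∈ Pq P0 q, p : ℕ) : ℝ) * ((BadR Q Y P0 η R q).card : ℝ) ≤
        κ * (R * ((Nat.totient q : ℝ) / q)))).card : ℝ) := by
    have := (card_le_card hsub).trans card_biUnion_le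
    exact_mod_cast this
  refine h3.trans ((sum_le_sum fun Y hY => typicalR hP0 (hV Y hY) hη hκ h2 he).trans (le_of_eq ?_))
  rw [sum_const, nsmul_eq_mul]
  ring

end Pool.Agent.H527.G
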