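import Mathlib
import Pool.Agent.H527.G.G6
import Pool.Agent.H527.N.N15

/-! The hypotheses of the variance bound hold for large `Q`. -/

set_option autoImplicit false

namespace Pool.Agent.H527.G

open Finset Filter Pool.Agent.H527.AP Pool.Agent.H527.S Pool.Agent.H527.M Pool.Agent.H527.N

/-- the prime number theorem in the range which is used -/
theorem psi_okR {L l : ℝ} {Q Y R : ℕ} (b2 : 2 ≤ L) (b5 : 2 * L ≤ Real.exp (l / 48)) (hL : L = Real.log Q)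
    (hl : l = L ^ (1 / 20 : ℝ) / 2) (hX : 2 * Xb Q Y R ≤ 6 * R) (hR : Real.log (6 * (R : ℝ)) ≤ 2 * L) {fs : ℕ}
    (hAP : ∀ X : ℝ, 0 < X → 8 * l ^ 20 ≤ Real.log X → Real.log X ≤ Real.exp (l / 48) →
      ∀ m : ℕ, 1 ≤ m → Real.log m ≤ l / 8 → (fs = 0 ∨ ¬ fs ∣ m) → ∀ a : ℕ, a.Coprime m →
        |psiA X m a - X / (Nat.totient m : ℝ)| ≤ X * Real.exp (-(l / 4))) (m : ℕ) (hm : 1 ≤ m)
    (hml : Real.log m ≤ l / 8) (hmf : fs = 0 ∨ ¬ fs ∣ m) :
    Hpsi m Q (Xb Q Y R) (6 * (R : ℝ) * Real.exp (-(l / 4))) := by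
  have hL0 : 0 < L := by linarith
  have hQ0 : (0 : ℝ) < Q := by
    rcases Nat.eq_zero_or_pos Q with h | h
    · rw [h, Nat.cast_zero, Real.log_zero] at hL
      linarith
    · exact_mod_cast h
  have hpow : (L ^ (1 / 20 : ℝ)) ^ 20 = L := by
    rw [← Real.rpow_natCast, ← Real.rpow_mul hL0.le]
    norm_num
  have hl20 : 8 * l ^ 20 ≤ L := by
    rw [hl, div_pow, hpow]
    norm_num
    linarith
  intro V hqV hVx c hc
  have hVr : (Q : ℝ) ≤ V := by exact_mod_cast hqV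
  have hV2 : (V : ℝ) ≤ 6 * R := by exact_mod_cast hVx.trans hX
  have hV0 : (0 : ℝ) < V := by linarith
  have h1 : 8 * l ^ 20 ≤ Real.log V := by
    have := Real.log_le_log hQ0 hVr
    rw [← hL] at this
    linarith
  have h2 : Real.log V ≤ Real.exp (l / 48) := by
    have h3 := Real.log_le_log hV0 hV2
    linarith
  refine (hAP V hV0 h1 h2 m hm hml hmf c hc).trans ?_
  gcongr

set_option maxHeartbeats 4000000 in
/-- numerical part for `R` -/
theorem numR (e L l Yr Vr Wr Qr Rr A v v' : ℝ) (he : 0 < e) (hL : 2 ≤ L) (hW : 1 ≤ Wr) (hWV : Wr ≤ Vr)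
    (hQ : Qr = Real.exp L) (hA : 0 ≤ A * Real.log L) (hV : Vr ≤ Real.exp (3 / 2 * L ^ v)) (hLv : 0 ≤ L ^ v) (hLv' : 0 ≤ L ^ v')
    (hRQ : Qr ≤ Rr) (hR3 : Rr ≤ Qr * Real.exp (L ^ v')) (hYR : Yr * Qr ≤ Rr)
    (x1 : Real.log (64 / e) + 3 * (A * Real.log L) + Real.log L + 2 * L ^ v + L ^ v' ≤ l / 4)
    (x2 : Real.log 6 + L ^ v' ≤ L)
    (a2 : Real.log (64 / e) + 3 * (A * Real.log L) + Real.log L + 2 * L ^ v ≤ L / 4) :
    2 * (Yr * Qr + Rr) * (6 * Rr * Real.exp (-(l / 4))) * Vr * L ≤ e / 2 * (Qr * Rr) ∧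
    2 * (6 * Rr * Real.exp (-(l / 4))) + 2 * Real.sqrt (6 * Rr) * Real.log (6 * Rr) ≤ e / 2 * (Rr / Wr) ∧
    Real.log (6 * Rr) ≤ Real.log 6 + L ^ v' + L := by
  have hL0 : 0 < L := by linarith
  have hlL : 0 ≤ Real.log L := Real.log_nonneg (by linarith)
  have hQ0 : 0 < Qr := by rw [hQ]; exact Real.exp_pos _
  have hR0 : 0 < Rr := by linarith
  have hLe : L = Real.exp (Real.log L) := (Real.exp_log hL0).symm
  have hV0 : 0 < Vr := by linarith
  have he64 : 64 / e = Real.exp (Real.log (64 / e)) := (Real.exp_log (by positivity)).symm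
  have m1 : 64 / e * Vr * L * Real.exp (L ^ v') ≤ Real.exp (l / 4) := by
    calc 64 / e * Vr * L * Real.exp (L ^ v') ≤ Real.exp (Real.log (64 / e)) * Real.exp (3 / 2 * L ^ v) * Real.exp (Real.log L) * Real.exp (L ^ v') := by
          rw [← he64, ← hLe]
          gcongr
      _ = Real.exp (Real.log (64 / e) + 3 / 2 * L ^ v + Real.log L + L ^ v') := by
          rw [Real.exp_add, Real.exp_add, Real.exp_add]
      _ ≤ _ := by
          apply Real.exp_le_exp.2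
          linarith
  have m2 : 64 / e * Vr * L ≤ Real.exp (L / 4) := by
    calc 64 / e * Vr * L ≤ Real.exp (Real.log (64 / e)) * Real.exp (3 / 2 * L ^ v) * Real.exp (Real.log L) := by
          rw [← he64, ← hLe]
          gcongr
      _ = Real.exp (Real.log (64 / e) + 3 / 2 * L ^ v + Real.log L) := by
          rw [Real.exp_add, Real.exp_add]
      _ ≤ _ := by
          apply Real.exp_le_exp.2
          linarith
  have hEl : Real.exp (l / 4) * Real.exp (-(l / 4)) = 1 := by rw [← Real.exp_add]; simp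
  have hR1 : Rr ≤ Real.exp (L + L ^ v') := by
    rw [Real.exp_add, ← hQ]; exact hR3
  have h6R : Real.log (6 * Rr) ≤ Real.log 6 + L ^ v' + L := by
    rw [Real.log_mul (by norm_num) hR0.ne']
    have h1 := Real.log_le_log hR0 hR1
    rw [Real.log_exp] at h1
    linarith
  refine ⟨?_, ?_, h6R⟩
  · have h5 : 48 / e * Vr * L * Real.exp (L ^ v') * Real.exp (-(l / 4)) ≤ 1 := by
      calc 48 / e * Vr * L * Real.exp (L ^ v') * Real.exp (-(l / 4)) ≤ (64 / e * Vr * L * Real.exp (L ^ v')) * Real.exp (-(l / 4)) := by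
            gcongr
            norm_num
        _ ≤ Real.exp (l / 4) * Real.exp (-(l / 4)) := by gcongr
        _ = 1 := hEl
    calc 2 * (Yr * Qr + Rr) * (6 * Rr * Real.exp (-(l / 4))) * Vr * L ≤
          2 * (Rr + Rr) * (6 * Rr * Real.exp (-(l / 4))) * Vr * L := by gcongr
      _ = 24 * Rr * (Rr * Real.exp (-(l / 4))) * Vr * L := by ring
      _ ≤ 24 * Rr * ((Qr * Real.exp (L ^ v')) * Real.exp (-(l / 4))) * Vr * L := by gcongr
      _ = (48 / e * Vr * L * Real.exp (L ^ v') * Real.exp (-(l / 4))) * (e / 2 * (Qr * Rr)) := by field_simp; ring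
      _ ≤ 1 * (e / 2 * (Qr * Rr)) := by gcongr
      _ = _ := by ring
  · have hW0 : 0 < Wr := by linarith
    have hp1 : 2 * (6 * Rr * Real.exp (-(l / 4))) ≤ e / 4 * (Rr / Wr) := by
      have h5 : 48 / e * Wr * Real.exp (-(l / 4)) ≤ 1 := by
        calc 48 / e * Wr * Real.exp (-(l / 4)) ≤ (64 / e * Vr * L * Real.exp (L ^ v')) * Real.exp (-(l / 4)) := by
              have h6 : 1 ≤ L * Real.exp (L ^ v') := by
                have : 1 ≤ Real.exp (L ^ v') := Real.one_le_exp hLv'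
                nlinarith
              have : 48 / e * Wr ≤ 64 / e * Vr * L * Real.exp (L ^ v') := by
                calc 48 / e * Wr ≤ 64 / e * Vr := by gcongr; norm_num
                  _ ≤ 64 / e * Vr * (L * Real.exp (L ^ v')) := le_mul_of_one_le_right (by positivity) h6
                  _ = _ := by ring
              gcongr
          _ ≤ Real.exp (l / 4) * Real.exp (-(l / 4)) := by gcongr
          _ = 1 := hEl
      calc 2 * (6 * Rr * Real.exp (-(l / 4))) = (48 / e * Wr * Real.exp (-(l / 4))) * (e / 4 * (Rr / Wr)) := by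
            field_simp; ring
        _ ≤ 1 * (e / 4 * (Rr / Wr)) := by gcongr
        _ = _ := by ring
    have hp2 : 2 * Real.sqrt (6 * Rr) * Real.log (6 * Rr) ≤ e / 4 * (Rr / Wr) := by
      have h5 : Real.sqrt (6 * Rr) ≤ 3 * Real.sqrt Rr := by
        apply Real.sqrt_le_iff.2
        refine ⟨by positivity, ?_⟩
        rw [mul_pow, Real.sq_sqrt hR0.le]
        linarith
      have h6 : Real.log (6 * Rr) ≤ 2 * L := by linarith
      have h7 : 0 ≤ Real.log (6 * Rr) := by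
        apply Real.log_nonneg
        have : 1 ≤ Qr := by rw [hQ]; exact Real.one_le_exp hL0.le
        linarith
      have hsq : Real.exp (L / 2) ≤ Real.sqrt Rr := by
        apply Real.le_sqrt_of_sq_le
        rw [← Real.exp_nat_mul]
        have : ((2 : ℕ) : ℝ) * (L / 2) = L := by push_cast; ring
        rw [this, ← hQ]
        exact hRQ
      have h8 : 48 / e * Wr * L ≤ Real.sqrt Rr := by
        calc 48 / e * Wr * L ≤ 64 / e * Vr * L := by gcongr; norm_num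
          _ ≤ Real.exp (L / 4) := m2
          _ ≤ Real.exp (L / 2) := Real.exp_le_exp.2 (by linarith)
          _ ≤ _ := hsq
      have hs0 : 0 < Real.sqrt Rr := Real.sqrt_pos.2 hR0
      calc 2 * Real.sqrt (6 * Rr) * Real.log (6 * Rr) ≤ 2 * (3 * Real.sqrt Rr) * (2 * L) := by gcongr
        _ = (48 / e * Wr * L) * (e / 4 * (Real.sqrt Rr / Wr)) := by field_simp; ring
        _ ≤ Real.sqrt Rr * (e / 4 * (Real.sqrt Rr / Wr)) := by gcongr
        _ = e / 4 * ((Real.sqrt Rr * Real.sqrt Rr) / Wr) := by ring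
        _ = _ := by rw [Real.mul_self_sqrt hR0.le]
    linarith

section
variable {c1 v A β e l0 C L l : ℝ} {D N₀ Z Q fs f : ℕ} {P0 : Finset ℕ} {Y : ℕ}

set_option maxHeartbeats 4000000 in
theorem stg_varR (S : Stg c1 v A β e l0 C L l D N₀ Z Q fs f P0 Y) {R : ℕ} {v' : ℝ} (hYR : Y * Q ≤ R) (hR2 : 2 * Q ≤ R)
    (hR3 : (R : ℝ) ≤ Q * Real.exp (L ^ v'))
    (x1 : Real.log (64 / e) + 3 * (A * Real.log L) + Real.log L + 2 * L ^ v + L ^ v' ≤ l / 4)
    (x2 : Real.log 6 + L ^ v' ≤ e / 2 * L)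
    (hpsi : ∀ m : ℕ, 1 ≤ m → Real.log m ≤ l / 8 → (fs = 0 ∨ ¬ fs ∣ m) →
      Hpsi m Q (Xb Q Y R) (6 * (R : ℝ) * Real.exp (-(l / 4))))
    {g : ℕ} (hg : g ∣ ∏ p ∈ P0, p) :
    VarR Q g R Y (SY P0 Y).card D f N₀ (Pq P0 g) (6 * (R : ℝ) * Real.exp (-(l / 4))) e := by
  classical
  obtain ⟨b2, hQ0, hY1, hlY, hLv, hQe, hVpos, hl0⟩ := S.bas
  have hg0 : 0 < g := Nat.pos_of_dvd_of_pos hg hVpos
  have hmul := mul_Pq S.hpr hg
  have hPsub : Pq P0 g ⊆ P0 := filter_subset _ _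
  have hPpr : ∀ p ∈ Pq P0 g, p.Prime := fun p hp => S.hpr p (hPsub hp)
  have hWpos : 0 < ∏ p ∈ Pq P0 g, p := Finset.prod_pos fun p hp => (hPpr p hp).pos
  have hgV : g ≤ ∏ p ∈ P0, p := Nat.le_of_dvd hVpos hg
  have hWdvd : ∏ p ∈ Pq P0 g, p ∣ ∏ p ∈ P0, p := by
    rw [← hmul]; exact Nat.dvd_mul_left _ _
  have hWV : ∏ p ∈ Pq P0 g, p ≤ ∏ p ∈ P0, p := Nat.le_of_dvd hVpos hWdvd
  have hgP : g.Coprime (∏ p ∈ Pq P0 g, p) := by
    rw [Nat.coprime_comm]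
    apply Nat.Coprime.prod_left
    intro p hp
    unfold Pq at hp
    rw [mem_filter] at hp
    exact (Nat.Prime.coprime_iff_not_dvd (S.hpr p hp.1)).2 hp.2
  obtain ⟨n1, n2, n3, n4⟩ := S.num hWpos hWdvd
  have hVQ := S.VQ
  have hQ2 := S.hQ2
  have hYn1 : 1 ≤ Y := by exact_mod_cast hY1
  have hRr : (Q : ℝ) ≤ R := by exact_mod_cast (by omega : Q ≤ R)
  have hYRr : (Y : ℝ) * Q ≤ R := by exact_mod_cast hYR
  have hL0 : 0 < L := by linarith
  have hLv' : 0 ≤ L ^ v' := Real.rpow_nonneg hL0.le _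
  have he := S.he
  have he1 := S.he1
  have x2' : Real.log 6 + L ^ v' ≤ L := by
    have : e / 2 * L ≤ 1 * L := by gcongr; linarith
    linarith
  obtain ⟨r1, r2, r3⟩ := numR e L l Y ((∏ p ∈ P0, p : ℕ) : ℝ) ((∏ p ∈ Pq P0 g, p : ℕ) : ℝ) Q R A v v' he b2
    (by exact_mod_cast hWpos) (by exact_mod_cast hWV) hQe (by have := S.has.b1; have := S.hA; positivity) S.hprod
    (by linarith) hLv' hRr hR3 hYRr x1 x2' S.has.b14
  have hsP : ∑ p ∈ Pq P0 g, 1 / (p : ℝ) ≤ 1 / 2 := by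
    refine le_trans ?_ S.hsum
    apply sum_le_sum_of_subset_of_nonneg hPsub
    intro p _ _
    positivity
  have hell := Ls_card_ge (Pq P0 g) hPpr Y hsP
  have hSk := SY_ok S.has S.hs (subset_refl P0)
  have hφV : (Nat.totient (g * ∏ p ∈ Pq P0 g, p) : ℝ) ≤ ((∏ p ∈ P0, p : ℕ) : ℝ) := by
    rw [hmul]; exact_mod_cast Nat.totient_le _
  have hφW1 : (1 : ℝ) ≤ (Nat.totient (∏ p ∈ Pq P0 g, p) : ℝ) := by exact_mod_cast Nat.totient_pos.2 hWpos
  have hφWW : (Nat.totient (∏ p ∈ Pq P0 g, p) : ℝ) ≤ ((∏ p ∈ Pq P0 g, p : ℕ) : ℝ) := by exact_mod_cast Nat.totient_le _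
  have hprodW : ((∏ p ∈ Pq P0 g, p : ℕ) : ℝ) ≤ Real.exp (3 / 2 * L ^ v) :=
    le_trans (by exact_mod_cast hWV) S.hprod
  have hY0 : (0 : ℝ) < Y := by linarith
  have hR0 : (0 : ℝ) < R := by linarith
  have hEr : 0 ≤ 6 * (R : ℝ) * Real.exp (-(l / 4)) := by positivity
  have hX3 : 2 * Xb Q Y R ≤ 6 * R := by
    unfold Xb
    have : (Y + 1) * Q = Y * Q + Q := by ring
    omega
  have hX0 : 0 < 2 * Xb Q Y R := by
    unfold Xb
    have : (Y + 1) * Q = Y * Q + Q := by ring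
    omega
  have hpsiR : ∀ (W r : ℕ), 0 < W → W ∣ ∏ p ∈ P0, p → 1 ≤ r → r ≤ Y → ¬ f ∣ r →
      Hpsi (r * W) Q (Xb Q Y R) (6 * (R : ℝ) * Real.exp (-(l / 4))) := by
    intro W r hW hWV hr hrY hfr
    apply hpsi _ (Nat.mul_pos (by omega) hW)
    · have hr0 : (0 : ℝ) < r := by exact_mod_cast (by omega : 0 < r)
      have hW0 : (0 : ℝ) < W := by exact_mod_cast hW
      rw [Nat.cast_mul, Real.log_mul hr0.ne' hW0.ne']
      have h2 : Real.log r ≤ Real.log Y := by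
        apply Real.log_le_log hr0
        exact_mod_cast hrY
      have h3 := S.logV hW hWV
      linarith
    · rcases S.hexc r hfr with h | h
      · exact Or.inl h
      · exact Or.inr fun h2 => h (h2.trans (Nat.mul_dvd_mul_left r hWV))
  refine ⟨hPpr, hg0, hgP, by exact_mod_cast hR0, S.hQ2, S.hD1, S.hf0, he, S.he1, hEr, ?_, ?_, ?_, S.hbt, ?_, ?_, ?_, ?_, ?_, ?_, ?_, ?_,
    ?_, ?_, ?_, ?_, ?_, ?_⟩
  · intro d c hd hPd
    refine (cls_SY _ hPpr Y d c hd hPd).trans ?_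
    have : ((SY (Pq P0 g) Y).card : ℝ) ≤ (SY P0 Y).card := by exact_mod_cast SY_mono hPsub Y
    linarith
  · -- Y V ≤ Q
    rw [hmul]
    exact_mod_cast hVQ.1
  · have h2 : ((∏ p ∈ Pq P0 g, p : ℕ) : ℝ) ≤ ((∏ p ∈ P0, p : ℕ) : ℝ) := by exact_mod_cast hWV
    exact_mod_cast h2.trans hVQ.2
  · -- N₀ ≤ sqrt Q
    rw [Nat.le_sqrt']
    have b17 := S.has.b17
    have h1 : ((N₀ : ℝ)) ^ 2 ≤ Q := by
      have h2 : (N₀ : ℝ) ≤ Real.exp (L / 4) := by linarith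
      calc ((N₀ : ℝ)) ^ 2 ≤ (Real.exp (L / 4)) ^ 2 := by gcongr
        _ = Real.exp (L / 2) := by rw [← Real.exp_nat_mul]; congr 1; push_cast; ring
        _ ≤ Q := by rw [hQe]; exact Real.exp_le_exp.2 (by linarith)
    exact_mod_cast h1
  · -- modulus 1
    have h := hpsiR 1 1 one_pos (one_dvd _) le_rfl hYn1 S.hf1
    rwa [one_mul] at h
  · -- modulus W
    have h := hpsiR _ 1 hWpos hWdvd le_rfl hYn1 S.hf1
    rwa [one_mul] at h
  · -- modulus r V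
    intro r hr1 hrY hfr
    rw [hmul]
    exact hpsiR _ r hVpos dvd_rfl hr1 hrY hfr
  · -- the sifted set is not empty
    have : (0 : ℝ) < ((Ls (∏ p ∈ Pq P0 g, p) Y).card : ℝ) := by linarith
    exact_mod_cast this
  · -- k0
    rw [← S.hL]
    have b7 := S.has.b7
    have y1 := S.hs.y1
    obtain ⟨ell, hellr⟩ : ∃ ell : ℝ, ell = ((Ls (∏ p ∈ Pq P0 g, p) Y).card : ℝ) := ⟨_, rfl⟩
    rw [← hellr] at hell ⊢
    have h1 : e * (Y / 2) ≤ e * ell := mul_le_mul_of_nonneg_left hell he.le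
    have h2 : e * L ^ (1 + β) ≤ e * Y := mul_le_mul_of_nonneg_left y1 he.le
    linarith
  · -- k1
    exact k1_ok he S.hD hY0 hell hSk
  · -- k2
    rw [← S.hL]
    refine le_trans ?_ r1
    gcongr
  · -- k3
    exact k3_ok he S.hfsq hY0 hell
  · -- k3'
    rw [← S.hL]
    have h1 : (g : ℝ) * ((∏ p ∈ Pq P0 g, p : ℕ) : ℝ) = ((∏ p ∈ P0, p : ℕ) : ℝ) := by rw [← Nat.cast_mul, hmul]
    rw [h1]
    have h2 : ((Nat.sqrt Q : ℕ) : ℝ) + 2 ≤ 2 * Real.sqrt Q := by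
      have := Real.nat_sqrt_le_real_sqrt (a := Q)
      linarith
    calc ((Y : ℝ) * Q + R) * (((∏ p ∈ P0, p : ℕ) : ℝ) * (((Nat.sqrt Q : ℕ) : ℝ) + 2)) * L ≤
          ((R : ℝ) + R) * (((∏ p ∈ P0, p : ℕ) : ℝ) * (2 * Real.sqrt Q)) * L := by gcongr
      _ = (4 * 1 * ((∏ p ∈ P0, p : ℕ) : ℝ) * Real.sqrt Q * L) * R := by ring
      _ ≤ (4 * Y * ((∏ p ∈ P0, p : ℕ) : ℝ) * Real.sqrt Q * L) * R := by gcongr
      _ ≤ Q * R := by gcongr
  · -- k4
    have hφ0 : (0 : ℝ) < (Nat.totient (∏ p ∈ Pq P0 g, p) : ℝ) := by linarith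
    have h1 : e / 2 * (R / ((∏ p ∈ Pq P0 g, p : ℕ) : ℝ)) ≤ e / 2 * (R / (Nat.totient (∏ p ∈ Pq P0 g, p) : ℝ)) := by gcongr
    refine le_trans ?_ h1
    refine le_trans ?_ r2
    have h2 : R2 (Xb Q Y R) ≤ 2 * Real.sqrt (6 * R) * Real.log (6 * R) := by
      unfold R2
      have h3 : ((2 * Xb Q Y R : ℕ) : ℝ) ≤ 6 * R := by exact_mod_cast hX3
      have h4 : (0 : ℝ) < ((2 * Xb Q Y R : ℕ) : ℝ) := by exact_mod_cast hX0
      have h5 := Real.log_le_log h4 h3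
      have h6 := Real.sqrt_le_sqrt h3
      have h7 : 0 ≤ Real.log ((2 * Xb Q Y R : ℕ) : ℝ) := Real.log_natCast_nonneg _
      gcongr
    linarith
  · -- k5
    rw [← S.hL]
    have h3 : ((2 * Xb Q Y R : ℕ) : ℝ) ≤ 6 * R := by exact_mod_cast hX3
    have h4 : (0 : ℝ) < ((2 * Xb Q Y R : ℕ) : ℝ) := by exact_mod_cast hX0
    have h5 := Real.log_le_log h4 h3
    have h6 : (1 + e / 2) * L = L + e / 2 * L := by ring
    rw [h6]
    linarith
  · -- k6
    intro q hq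
    refine (k6_ok S.has S.hL he hWpos hprodW hq).trans ?_
    rw [mem_Ioc] at hq
    have hq0 : (0 : ℝ) < q := by exact_mod_cast (by omega : 0 < q)
    have hqR : (q : ℝ) ≤ R := by exact_mod_cast (by omega : q ≤ R)
    have hW0 : (0 : ℝ) < ((∏ p ∈ Pq P0 g, p : ℕ) : ℝ) := by exact_mod_cast hWpos
    have h1 : (R : ℝ) / ((∏ p ∈ Pq P0 g, p : ℕ) : ℝ) * ((Nat.totient q : ℝ) / q) =
        ((Nat.totient q : ℝ) / ((∏ p ∈ Pq P0 g, p : ℕ) : ℝ)) * (R / q) := by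
      field_simp
    rw [h1]
    have h2 : 1 ≤ (R : ℝ) / q := by rw [one_le_div hq0]; exact hqR
    have h3 : 0 ≤ (Nat.totient q : ℝ) / ((∏ p ∈ Pq P0 g, p : ℕ) : ℝ) := by positivity
    exact mul_le_mul_of_nonneg_left (le_mul_of_one_le_right h3 h2) he.le
  · -- k7
    have hom : ((2 : ℝ) ^ (∏ p ∈ Pq P0 g, p).primeFactors.card) ≤ ((∏ p ∈ Pq P0 g, p : ℕ) : ℝ) := by
      exact_mod_cast pow_omega_le_self hWpos
    have h2 : (1 : ℝ) ≤ ((∏ p ∈ Pq P0 g, p : ℕ) : ℝ) := by exact_mod_cast hWpos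
    have h3 := num3 e L v ((∏ p ∈ P0, p : ℕ) : ℝ) _ _ g _ D Q he (by exact_mod_cast S.hD1) (Nat.cast_nonneg _)
      (by exact_mod_cast hgV) h2 (by exact_mod_cast hWV) hφW1 (by positivity) hom S.hprod hLv.le hQe S.has.b16
    refine le_trans ?_ h3
    have h4 : 0 ≤ (((∏ p ∈ Pq P0 g, p : ℕ) : ℝ) / (Nat.totient (∏ p ∈ Pq P0 g, p) : ℝ)) *
      (g * (2 : ℝ) ^ (∏ p ∈ Pq P0 g, p).primeFactors.card * D) := by positivity
    linarith

end

theorem xev (v v' A e : ℝ) (hv : 0 < v) (hv1 : v ≤ 1 / 40) (hv' : 0 < v') (hv1' : v' ≤ 1 / 40) (hA : 0 < A) (he : 0 < e) :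
    ∀ᶠ L : ℝ in atTop, Real.log (64 / e) + 3 * (A * Real.log L) + Real.log L + 2 * L ^ v + L ^ v' ≤ L ^ (1 / 20 : ℝ) / 2 / 4 ∧
      Real.log 6 + L ^ v' ≤ e / 2 * L := by
  have t1 : Tendsto (fun L : ℝ => L ^ (1 / 20 : ℝ)) atTop atTop := tendsto_rpow_atTop (by norm_num)
  filter_upwards [as_log_pow (1 / 20) (8 * 5 * (3 * A + 1)) (by norm_num) 1, as_pow_pow v (1 / 20) (8 * 5 * 2) (by linarith),
    as_pow_pow v' (1 / 20) (8 * 5) (by linarith), t1.eventually_ge_atTop (8 * 5 * Real.log (64 / e)),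
    as_pow_pow v' 1 (4 / e) (by linarith), eventually_ge_atTop (4 * Real.log 6 / e), eventually_ge_atTop 0] with L a1 a2 a3 a4 a5 a6 a7
  have a8 : 0 ≤ L ^ (1 / 20 : ℝ) := Real.rpow_nonneg a7 _
  rw [pow_one] at a1
  rw [Real.rpow_one, div_mul_eq_mul_div, div_le_iff₀ he] at a5
  rw [div_le_iff₀ he] at a6
  constructor
  · linarith
  · linarith

theorem exists_varR (c1 v v' A β C e : ℝ) (hc1 : 0 < c1) (hcv : c1 ≤ v) (hv1 : v ≤ 1 / 40) (hv' : 0 < v') (hv1' : v' ≤ 1 / 40)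
    (hβ : 0 < β) (hA : 0 < A) (he : 0 < e) (he1 : e ≤ 1 / 3) :
    ∃ D N₀ : ℕ, ∀ᶠ Q : ℕ in atTop, ∃ ps f : ℕ, ∀ P0 : Finset ℕ, P0 ⊆ win c1 v Q → ps ∉ P0 →
      ∑ p ∈ P0, 1 / (p : ℝ) ≤ 1 / 2 → ∀ Y : ℕ, Sc A β (Real.log Q) C P0 Y →
      ∀ R : ℕ, Y * Q ≤ R → 2 * Q ≤ R → (R : ℝ) ≤ Q * Real.exp ((Real.log Q) ^ v') →
      ∃ Er : ℝ, ∀ g, g ∣ ∏ p ∈ P0, p → VarR Q g R Y (SY P0 Y).card D f N₀ (Pq P0 g) Er e := by
  classical
  have hv : 0 < v := by linarith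
  obtain ⟨N₀, hN₀3, hbt⟩ := bt3
  obtain ⟨D, hD⟩ : ∃ D : ℕ, D = ⌈(64 / e) ^ 2⌉₊ := ⟨_, rfl⟩
  obtain ⟨Z, hZ⟩ : ∃ Z : ℕ, Z = ⌈(480 / e) ^ 2⌉₊ := ⟨_, rfl⟩
  obtain ⟨l0, hl04, hpap⟩ := pap Z
  have hDr : (64 / e) ^ 2 ≤ (D : ℝ) := by rw [hD]; exact Nat.le_ceil _
  have hZr : (480 / e) ^ 2 ≤ (Z : ℝ) := by rw [hZ]; exact Nat.le_ceil _
  have hD1 : 1 ≤ D := by rw [hD]; exact Nat.one_le_iff_ne_zero.2 (Nat.ceil_pos.2 (by positivity)).ne'
  have hZ1 : 1 ≤ Z := by rw [hZ]; exact Nat.one_le_iff_ne_zero.2 (Nat.ceil_pos.2 (by positivity)).ne'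
  clear hD hZ
  have tL : Tendsto (fun x : ℕ => Real.log (x : ℝ)) atTop atTop :=
    Real.tendsto_log_atTop.comp tendsto_natCast_atTop_atTop
  refine ⟨D, N₀, ?_⟩
  filter_upwards [tL.eventually (As_ev c1 v A β e l0 D (N₀ + 1) Z C hc1 hv hv1 hβ he hA), eventually_ge_atTop 2,
    tL.eventually (xev v v' A e hv hv1 hv' hv1' hA he)] with Q has hQ2 hx
  have hwinprime : ∀ p ∈ win c1 v Q, p.Prime := by
    intro p hp
    unfold win at hp
    exact (mem_filter.1 hp).2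
  have b2 := has.b2
  obtain ⟨fs, hfs, hAP⟩ := hpap _ has.b3
  obtain ⟨ps, f, hfZ, hf0, hexc⟩ := exc_choice (win c1 v Q) hwinprime fs Z hfs
  refine ⟨ps, f, ?_⟩
  intro P0 hP0 hps hsP Y hsc R hYR hR2 hR3
  obtain ⟨w1, w2, w3, w4⟩ := win_facts c1 v Q (by linarith) P0 hP0 hv
  have hf1 : ¬ f ∣ 1 := by
    intro h
    have h2 := Nat.le_of_dvd one_pos h
    rcases hfZ with h1 | h1
    · omega
    · have := (hwinprime f h1).one_lt
      omega
  have hfsqrt : 480 / e ≤ Real.sqrt f := by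
    apply Real.le_sqrt_of_sq_le
    rcases hfZ with h1 | h1
    · have : (Z : ℝ) ≤ f := by exact_mod_cast h1.le
      linarith
    · unfold win at h1
      rw [mem_filter, mem_Ioc] at h1
      have h3 : (Real.log Q) ^ c1 < (f : ℝ) := (Nat.floor_lt (Real.rpow_nonneg (by linarith) _)).1 h1.1.1
      have := has.b11
      linarith
  have S : Stg c1 v A β e l0 C (Real.log Q) ((Real.log Q) ^ (1 / 20 : ℝ) / 2) D N₀ Z Q fs f P0 Y :=
    { hv := hv, hβ := hβ, he := he, he1 := he1, hA := hA, hL := rfl, hl := rfl, hQ2 := hQ2, has := has, hs := hsc,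
      hD := hDr, hD1 := hD1, hf0 := hf0, hf1 := hf1, hfsq := hfsqrt, hsum := hsP, hpr := w1,
      hprod := w4, hpsi := fun m hm hml hmf => psi_ok has hsc hβ rfl rfl hAP m hm hml hmf,
      hexc := fun r hr => hexc P0 hP0 hps r hr, hbt := hbt }
  have hQ0 : (0 : ℝ) < Q := by exact_mod_cast (by omega : 0 < Q)
  have hR0 : (0 : ℝ) < R := by exact_mod_cast (by omega : 0 < R)
  have hX3 : 2 * Xb Q Y R ≤ 6 * R := by
    unfold Xb
    have : (Y + 1) * Q = Y * Q + Q := by ring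
    omega
  have h6R : Real.log (6 * (R : ℝ)) ≤ 2 * Real.log Q := by
    rw [Real.log_mul (by norm_num) hR0.ne']
    have h1 := Real.log_le_log hR0 hR3
    rw [Real.log_mul hQ0.ne' (Real.exp_pos _).ne', Real.log_exp] at h1
    have h2 := hx.2
    have h3 : e / 2 * Real.log Q ≤ 1 * Real.log Q := by gcongr; linarith
    linarith
  exact ⟨_, fun g hg => stg_varR S hYR hR2 hR3 hx.1 hx.2
    (fun m hm hml hmf => psi_okR b2 has.b5 rfl rfl hX3 h6R hAP m hm hml hmf) hg⟩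

end Pool.Agent.H527.G
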