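import Mathlib
import Pool.Agent.H527.G.G7

/-! Tuples of classes: most of them have a common good shift. -/

set_option autoImplicit false

namespace Pool.Agent.H527.G

open Finset Pool.Agent.H527.M

/-- the reduced residues in `(0, q]` -/
def Rd (q : ℕ) : Finset ℕ := (Ioc 0 q).filter (fun a => a.Coprime q)

theorem Rd_card (q : ℕ) : (Rd q).card = Nat.totient q := by
  rcases Nat.eq_zero_or_pos q with h | h
  · subst h; rfl
  · have h1 := Nat.filter_coprime_Ico_eq_totient q 1
    rw [← h1]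
    unfold Rd
    congr 1
    ext a
    simp only [mem_filter, mem_Ioc, mem_Ico]
    constructor
    · rintro ⟨⟨a1, a2⟩, a3⟩
      exact ⟨⟨by omega, by omega⟩, a3.symm⟩
    · rintro ⟨⟨a1, a2⟩, a3⟩
      exact ⟨⟨by omega, by omega⟩, a3.symm⟩

/-- the shifts which are valid for the tuple `c` -/
def Vd {K : ℕ} (q R : ℕ) (W : Fin K → ℕ) (c : Fin K → ℕ) : Finset ℕ :=
  (range (R / q)).filter (fun u => ∀ i, W i ∣ c i + u * q)

theorem exists_shift {q W a : ℕ} (hq : 0 < q) (hW : 0 < W) (hcop : W.Coprime q) : ∃ x, W ∣ a + x * q := by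
  obtain ⟨k, hk1, hk2⟩ := Nat.chineseRemainder hcop 0 a
  have h1 : a ≤ k + a * (W * q) := by
    have h2 : a * 1 ≤ a * (W * q) := Nat.mul_le_mul_left a (Nat.mul_pos hW hq)
    omega
  have h2 : a ≡ k + a * (W * q) [MOD q] := by
    have h3 : k + a * (W * q) = k + (a * W) * q := by ring
    rw [h3]
    unfold Nat.ModEq
    rw [Nat.add_mul_mod_self_right]
    exact hk2.symm
  obtain ⟨x, hx⟩ := (Nat.modEq_iff_dvd' h1).1 h2
  refine ⟨x, ?_⟩
  have h3 : a + x * q = k + a * (W * q) := by
    rw [mul_comm x q, ← hx]; omega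
  rw [h3]
  exact dvd_add ((Nat.modEq_zero_iff_dvd).1 hk1) ⟨a * q, by ring⟩

theorem valid_card {K q R : ℕ} (hq : 0 < q) (W : Fin K → ℕ) (hW : ∀ i, 0 < W i) (hcop : ∀ i, (W i).Coprime q)
    (hpc : ∀ i j, i ≠ j → (W i).Coprime (W j)) (c : Fin K → ℕ) : R / q / (∏ i, W i) ≤ (Vd q R W c).card := by
  classical
  choose x hx using fun i => exists_shift (a := c i) hq (hW i) (hcop i)
  obtain ⟨k, hk⟩ := Nat.chineseRemainderOfFinset x W (univ : Finset (Fin K)) (fun i _ => (hW i).ne')
    (fun i _ j _ hij => hpc i j hij)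
  have hP : 0 < ∏ i, W i := Finset.prod_pos fun i _ => hW i
  obtain ⟨P, hPd⟩ : ∃ P, P = ∏ i, W i := ⟨_, rfl⟩
  have hWP : ∀ i, W i ∣ P := fun i => by rw [hPd]; exact dvd_prod_of_mem _ (mem_univ i)
  rw [← hPd] at hP ⊢
  have h1 : (range (R / q / P)).card ≤ (Vd q R W c).card := by
    apply card_le_card_of_injOn (fun t => k % P + t * P)
    · intro t ht
      rw [mem_coe, mem_range] at ht
      rw [mem_coe]
      unfold Vd
      rw [mem_filter, mem_range]
      beta_reduce
      refine ⟨?_, ?_⟩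
      · have h2 : k % P < P := Nat.mod_lt _ hP
        have h3 : (t + 1) * P ≤ (R / q / P) * P := Nat.mul_le_mul_right P ht
        have h4 : (R / q / P) * P ≤ R / q := Nat.div_mul_le_self _ _
        have h5 : (t + 1) * P = t * P + P := by ring
        omega
      · intro i
        have h2 : k % P + t * P ≡ x i [MOD W i] := by
          have e1 : k % P + t * P ≡ k % P [MOD W i] := by
            have : t * P ≡ 0 [MOD W i] := (Nat.modEq_zero_iff_dvd).2 (Dvd.dvd.mul_left (hWP i) t)
            have e2 := Nat.ModEq.add_left (k % P) this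
            rwa [add_zero] at e2
          have e2 : k % P ≡ k [MOD W i] := (Nat.mod_modEq k P).of_dvd (hWP i)
          exact e1.trans (e2.trans (hk i (mem_univ i)))
        have h3 : c i + (k % P + t * P) * q ≡ c i + x i * q [MOD W i] :=
          Nat.ModEq.add_left _ (Nat.ModEq.mul_right _ h2)
        exact (Nat.modEq_zero_iff_dvd).1 (h3.trans ((Nat.modEq_zero_iff_dvd).2 (hx i)))
    · intro t _ t' _ h
      simp only at h
      have : t * P = t' * P := by omega
      exact Nat.eq_of_mul_eq_mul_right hP this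
  rwa [card_range] at h1

/-- the tuples of reduced residues -/
def Tp (K q : ℕ) : Finset (Fin K → ℕ) := Fintype.piFinset (fun _ => Rd q)

theorem Tp_card (K q : ℕ) : (Tp K q).card = Nat.totient q ^ K := by
  unfold Tp
  rw [Fintype.card_piFinset, prod_const, card_univ, Fintype.card_fin, Rd_card]

/-- the rows of one block -/
theorem block_card {q W u : ℕ} (hq : 0 < q) (hW : 0 < W) (hcop : W.Coprime q)
    (hrow : 3 * (2 : ℝ) ^ q.primeFactors.card ≤ (Nat.totient q : ℝ) / W) :
    (((Rd q).filter (fun a => W ∣ a + u * q)).card : ℝ) ≤ 2 * (Nat.totient q : ℝ) / W := by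
  have h1 : ((Rd q).filter (fun a => W ∣ a + u * q)).card ≤ (rows W q (u * q) ((u + 1) * q)).card := by
    apply card_le_card_of_injOn (fun a => a + u * q)
    · intro a ha
      rw [mem_coe, mem_filter] at ha
      unfold Rd at ha
      rw [mem_filter, mem_Ioc] at ha
      rw [mem_coe]
      unfold rows
      rw [mem_filter, mem_Ioc]
      beta_reduce
      have h2 : (u + 1) * q = u * q + q := by ring
      refine ⟨⟨by omega, by omega⟩, ha.2, ?_⟩
      rw [Nat.coprime_add_mul_right_left]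
      exact ha.1.2
    · intro a _ a' _ h
      simp only at h
      omega
  have h2 := rows_card W q (u * q) ((u + 1) * q) hq hW (Nat.mul_le_mul_right q (Nat.le_succ u)) hcop.symm
  have hq0 : (0 : ℝ) < q := by exact_mod_cast hq
  have hW0 : (0 : ℝ) < W := by exact_mod_cast hW
  have h3 : (((((u + 1) * q : ℕ) : ℝ)) - ((u * q : ℕ) : ℝ)) / W * ((Nat.totient q : ℝ) / q) = (Nat.totient q : ℝ) / W := by
    push_cast
    field_simp
    ring
  rw [h3, abs_le] at h2
  have h4 : (((Rd q).filter (fun a => W ∣ a + u * q)).card : ℝ) ≤ ((rows W q (u * q) ((u + 1) * q)).card : ℝ) := by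
    exact_mod_cast h1
  have h5 : 2 * (Nat.totient q : ℝ) / W = (Nat.totient q : ℝ) / W + (Nat.totient q : ℝ) / W := by ring
  rw [h5]
  linarith [h2.2]

theorem sum_block {q U : ℕ} (B : Finset ℕ) :
    ∑ u ∈ range U, ((Rd q).filter (fun a => a + u * q ∈ B)).card ≤ B.card := by
  classical
  rw [← card_sigma]
  apply card_le_card_of_injOn (fun x : (_ : ℕ) × ℕ => x.2 + x.1 * q)
  · intro x hx
    rw [mem_coe, mem_sigma, mem_filter] at hx
    exact hx.2.2
  · intro x hx y hy h
    rw [mem_coe, mem_sigma, mem_filter] at hx hy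
    obtain ⟨u, a⟩ := x
    obtain ⟨u', a'⟩ := y
    simp only at h hx hy
    unfold Rd at hx hy
    rw [mem_filter, mem_Ioc] at hx hy
    have h1 : u = u' := by
      rcases lt_trichotomy u u' with h2 | h2 | h2
      · exfalso
        have h3 : (u + 1) * q ≤ u' * q := Nat.mul_le_mul_right q h2
        have h4 : (u + 1) * q = u * q + q := by ring
        omega
      · exact h2
      · exfalso
        have h3 : (u' + 1) * q ≤ u * q := Nat.mul_le_mul_right q h2
        have h4 : (u' + 1) * q = u' * q + q := by ring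
        omega
    subst h1
    have h2 : a = a' := by omega
    rw [h2]

/-- the number of the bad valid shifts -/
def Nb {K : ℕ} (q R : ℕ) (W : Fin K → ℕ) (B : Finset ℕ) (i : Fin K) (c : Fin K → ℕ) : ℕ :=
  ((Vd q R W c).filter (fun u => c i + u * q ∈ B)).card

theorem sum_Nb {K q R : ℕ} (hq : 0 < q) (W : Fin K → ℕ) (hW : ∀ i, 0 < W i) (hcop : ∀ i, (W i).Coprime q)
    (hrow : ∀ i, 3 * (2 : ℝ) ^ q.primeFactors.card ≤ (Nat.totient q : ℝ) / W i) (B : Finset ℕ) (i : Fin K) :
    ∑ c ∈ Tp K q, (Nb q R W B i c : ℝ) ≤ (B.card : ℝ) * ∏ j ∈ univ.erase i, (2 * (Nat.totient q : ℝ) / W j) := by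
  classical
  have h1 : ∑ c ∈ Tp K q, Nb q R W B i c = ∑ u ∈ range (R / q),
      ((Tp K q).filter (fun c => (∀ j, W j ∣ c j + u * q) ∧ c i + u * q ∈ B)).card := by
    have e1 : ∀ c ∈ Tp K q, Nb q R W B i c = ∑ u ∈ range (R / q),
        (if (∀ j, W j ∣ c j + u * q) ∧ c i + u * q ∈ B then 1 else 0) := by
      intro c _
      unfold Nb Vd
      rw [filter_filter, card_filter]
    rw [sum_congr rfl e1, sum_comm]
    apply sum_congr rfl
    intro u _
    rw [card_filter]
  have h2 : ∀ u ∈ range (R / q), (((Tp K q).filter (fun c => (∀ j, W j ∣ c j + u * q) ∧ c i + u * q ∈ B)).card : ℝ) ≤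
      (((Rd q).filter (fun a => a + u * q ∈ B)).card : ℝ) * ∏ j ∈ univ.erase i, (2 * (Nat.totient q : ℝ) / W j) := by
    intro u _
    have e1 : (Tp K q).filter (fun c => (∀ j, W j ∣ c j + u * q) ∧ c i + u * q ∈ B) ⊆
        Fintype.piFinset (fun j => if j = i then (Rd q).filter (fun a => a + u * q ∈ B) else (Rd q).filter (fun a => W j ∣ a + u * q)) := by
      intro c hc
      rw [mem_filter] at hc
      unfold Tp at hc
      rw [Fintype.mem_piFinset] at hc ⊢
      intro j
      split_ifs with hj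
      · rw [mem_filter]
        subst hj
        exact ⟨hc.1 _, hc.2.2⟩
      · rw [mem_filter]
        exact ⟨hc.1 _, hc.2.1 j⟩
    have e2 : (((Tp K q).filter (fun c => (∀ j, W j ∣ c j + u * q) ∧ c i + u * q ∈ B)).card : ℝ) ≤
        ((Fintype.piFinset (fun j => if j = i then (Rd q).filter (fun a => a + u * q ∈ B) else (Rd q).filter (fun a => W j ∣ a + u * q))).card : ℝ) := by
      exact_mod_cast card_le_card e1
    refine e2.trans ?_
    rw [Fintype.card_piFinset, ← mul_prod_erase univ _ (mem_univ i)]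
    simp only [if_true]
    push_cast
    apply mul_le_mul_of_nonneg_left _ (Nat.cast_nonneg _)
    apply prod_le_prod
    · intro j _
      exact Nat.cast_nonneg _
    · intro j hj
      rw [if_neg (ne_of_mem_erase hj)]
      exact block_card hq (hW j) (hcop j) (hrow j)
  have h3 : ∑ c ∈ Tp K q, (Nb q R W B i c : ℝ) = ((∑ c ∈ Tp K q, Nb q R W B i c : ℕ) : ℝ) := by push_cast; rfl
  rw [h3, h1]
  push_cast
  refine (sum_le_sum h2).trans ?_
  rw [← sum_mul]
  apply mul_le_mul_of_nonneg_right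
  · have := sum_block (q := q) (U := R / q) B
    exact_mod_cast this
  · apply prod_nonneg
    intro j _
    positivity

set_option maxHeartbeats 4000000 in
/-- **the joint choice** -/
theorem joint {K q R : ℕ} (hq : 0 < q) (W : Fin K → ℕ) (hW : ∀ i, 0 < W i) (hcop : ∀ i, (W i).Coprime q)
    (hpc : ∀ i j, i ≠ j → (W i).Coprime (W j))
    (hrow : ∀ i, 3 * (2 : ℝ) ^ q.primeFactors.card ≤ (Nat.totient q : ℝ) / W i)
    (hU : (∏ i, W i) * q ≤ R) (B : Fin K → Finset ℕ) (κ : ℝ) (hκ : 0 ≤ κ)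
    (hB : ∀ i, (W i : ℝ) * ((B i).card : ℝ) ≤ κ * (R * ((Nat.totient q : ℝ) / q))) :
    (((Tp K q).filter (fun c => ¬ ∃ u, u < R / q ∧ (∀ i, W i ∣ c i + u * q) ∧ ∀ i, c i + u * q ∉ B i)).card : ℝ) ≤
      κ * (K * (K + 1) * 2 ^ (K + 1)) * (Nat.totient q : ℝ) ^ K := by
  classical
  obtain ⟨P, hPd⟩ : ∃ P, P = ∏ i, W i := ⟨_, rfl⟩
  have hP : 0 < P := by rw [hPd]; exact Finset.prod_pos fun i _ => hW i
  have hP0 : (0 : ℝ) < P := by exact_mod_cast hP
  have hq0 : (0 : ℝ) < q := by exact_mod_cast hq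
  have hφ : 0 < Nat.totient q := Nat.totient_pos.2 hq
  have hφ0 : (0 : ℝ) < (Nat.totient q : ℝ) := by exact_mod_cast hφ
  rw [← hPd] at hU
  have hPU : P ≤ R / q := (Nat.le_div_iff_mul_le hq).2 hU
  have hU0 : 0 < R / q := by omega
  obtain ⟨U, hUd⟩ : ∃ U, U = R / q := ⟨_, rfl⟩
  rw [← hUd] at hPU hU0
  have hU0r : (0 : ℝ) < U := by exact_mod_cast hU0
  -- R ≤ 2 U q
  have hRU : (R : ℝ) ≤ 2 * (U * q) := by
    have h1 : R < (U + 1) * q := by rw [hUd, mul_comm]; exact Nat.lt_mul_div_succ R hq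
    have h2 : (U + 1) * q = U * q + q := by ring
    have h3 : 1 * q ≤ U * q := Nat.mul_le_mul_right q hU0
    have h4 : R ≤ 2 * (U * q) := by omega
    exact_mod_cast h4
  -- the number of the valid shifts
  have hval : ∀ c, (U : ℝ) / (2 * P) ≤ ((Vd q R W c).card : ℝ) := by
    intro c
    have h1 := valid_card (R := R) hq W hW hcop hpc c
    rw [← hPd, ← hUd] at h1
    have h2 : (U : ℝ) / (2 * P) ≤ ((U / P : ℕ) : ℝ) := by
      have h3 : U < (U / P + 1) * P := by rw [mul_comm]; exact Nat.lt_mul_div_succ U hP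
      have h4 : 1 ≤ U / P := (Nat.one_le_div_iff hP).2 hPU
      have h5 : (U / P + 1) * P = (U / P) * P + P := by ring
      have h6 : 1 * P ≤ (U / P) * P := Nat.mul_le_mul_right P h4
      have h7 : U ≤ 2 * ((U / P) * P) := by omega
      have h8 : (U : ℝ) ≤ 2 * (((U / P : ℕ) : ℝ) * P) := by exact_mod_cast h7
      rw [div_le_iff₀ (by positivity)]
      linarith
    exact h2.trans (by exact_mod_cast h1)
  -- the bad tuples for one index
  obtain ⟨τ, hτ⟩ : ∃ τ : ℝ, τ = U / (2 * P * (K + 1)) := ⟨_, rfl⟩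
  have hτ0 : 0 < τ := by rw [hτ]; positivity
  have hsub : (Tp K q).filter (fun c => ¬ ∃ u, u < R / q ∧ (∀ i, W i ∣ c i + u * q) ∧ ∀ i, c i + u * q ∉ B i) ⊆
      (univ : Finset (Fin K)).biUnion (fun i => (Tp K q).filter (fun c => τ ≤ (Nb q R W (B i) i c : ℝ))) := by
    intro c hc
    rw [mem_filter] at hc
    rw [mem_biUnion]
    by_contra hcon
    push Not at hcon
    apply hc.2
    have h1 : ∀ i, (Nb q R W (B i) i c : ℝ) ≤ τ := by
      intro i
      have := hcon i (mem_univ i)
      rw [mem_filter, not_and, not_le] at this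
      exact (this hc.1).le
    by_contra hno
    have h2 : Vd q R W c ⊆ (univ : Finset (Fin K)).biUnion (fun i => (Vd q R W c).filter (fun u => c i + u * q ∈ B i)) := by
      intro u hu
      rw [mem_biUnion]
      by_contra h3
      apply hno
      have hu' := hu
      unfold Vd at hu'
      rw [mem_filter, mem_range] at hu'
      refine ⟨u, hu'.1, hu'.2, fun i hi => h3 ⟨i, mem_univ i, mem_filter.2 ⟨hu, hi⟩⟩⟩
    have h3 := (card_le_card h2).trans card_biUnion_le
    have h4 : ((Vd q R W c).card : ℝ) ≤ ∑ i : Fin K, (Nb q R W (B i) i c : ℝ) := by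
      unfold Nb
      exact_mod_cast h3
    have h5 : ∑ i : Fin K, (Nb q R W (B i) i c : ℝ) ≤ K * τ := by
      refine (sum_le_sum fun i _ => h1 i).trans (le_of_eq ?_)
      rw [sum_const, card_univ, Fintype.card_fin, nsmul_eq_mul]
    have h6 : (K : ℝ) * τ < (U : ℝ) / (2 * P) := by
      rw [hτ, lt_div_iff₀ (by positivity)]
      have : (K : ℝ) * (U / (2 * P * (K + 1))) * (2 * P) = U * (K / (K + 1)) := by field_simp
      rw [this]
      have h7 : (K : ℝ) / (K + 1) < 1 := by rw [div_lt_one (by positivity)]; linarith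
      nlinarith
    have := hval c
    linarith
  have hone : ∀ i : Fin K, (((Tp K q).filter (fun c => τ ≤ (Nb q R W (B i) i c : ℝ))).card : ℝ) ≤
      κ * ((K + 1) * 2 ^ (K + 1)) * (Nat.totient q : ℝ) ^ K := by
    intro i
    have h1 := sum_Nb (R := R) hq W hW hcop hrow (B i) i
    have h2 : (((Tp K q).filter (fun c => τ ≤ (Nb q R W (B i) i c : ℝ))).card : ℝ) * τ ≤ ∑ c ∈ Tp K q, (Nb q R W (B i) i c : ℝ) := by
      have h3 := card_nsmul_le_sum ((Tp K q).filter (fun c => τ ≤ (Nb q R W (B i) i c : ℝ))) (fun c => (Nb q R W (B i) i c : ℝ)) τ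
        (fun c hc => (mem_filter.1 hc).2)
      rw [nsmul_eq_mul] at h3
      refine h3.trans ?_
      apply sum_le_sum_of_subset_of_nonneg (filter_subset _ _)
      intro c _ _
      exact Nat.cast_nonneg _
    obtain ⟨M, hM⟩ : ∃ M : ℝ, M = ∏ j ∈ univ.erase i, (2 * (Nat.totient q : ℝ) / W j) := ⟨_, rfl⟩
    have hM0 : 0 ≤ M := by
      rw [hM]
      apply prod_nonneg
      intro j _
      positivity
    rw [← hM] at h1
    have hWi : (0 : ℝ) < W i := by exact_mod_cast hW i
    have hprod : (2 * (Nat.totient q : ℝ) / W i) * M = 2 ^ K * (Nat.totient q : ℝ) ^ K / P := by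
      rw [hM, mul_prod_erase univ (fun j => 2 * (Nat.totient q : ℝ) / W j) (mem_univ i), prod_div_distrib, prod_const,
        card_univ, Fintype.card_fin, mul_pow, hPd]
      push_cast
      rfl
    have h3 : ((B i).card : ℝ) * M ≤ κ * (R / q) * (2 ^ K * (Nat.totient q : ℝ) ^ K / P) / 2 := by
      rw [← hprod]
      have h4 := hB i
      calc ((B i).card : ℝ) * M = ((W i : ℝ) * ((B i).card : ℝ)) * (M / W i) := by field_simp
        _ ≤ (κ * (R * ((Nat.totient q : ℝ) / q))) * (M / W i) := by gcongr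
        _ = _ := by field_simp
    have h4 : (((Tp K q).filter (fun c => τ ≤ (Nb q R W (B i) i c : ℝ))).card : ℝ) * τ ≤
        (κ * ((K + 1) * 2 ^ (K + 1)) * (Nat.totient q : ℝ) ^ K) * τ := by
      refine (h2.trans (h1.trans h3)).trans ?_
      have h5 : (R : ℝ) / q ≤ 2 * U := by
        rw [div_le_iff₀ hq0]; linarith
      calc κ * (R / q) * (2 ^ K * (Nat.totient q : ℝ) ^ K / P) / 2 ≤ κ * (2 * U) * (2 ^ K * (Nat.totient q : ℝ) ^ K / P) / 2 := by gcongr
        _ = (κ * ((K + 1) * 2 ^ (K + 1)) * (Nat.totient q : ℝ) ^ K) * τ := by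
            rw [hτ, pow_succ]
            field_simp
    exact le_of_mul_le_mul_right h4 hτ0
  have h1 := (card_le_card hsub).trans card_biUnion_le
  have h2 : (((Tp K q).filter (fun c => ¬ ∃ u, u < R / q ∧ (∀ i, W i ∣ c i + u * q) ∧ ∀ i, c i + u * q ∉ B i)).card : ℝ) ≤
      ∑ i : Fin K, (((Tp K q).filter (fun c => τ ≤ (Nb q R W (B i) i c : ℝ))).card : ℝ) := by exact_mod_cast h1
  refine h2.trans ((sum_le_sum fun i _ => hone i).trans (le_of_eq ?_))
  rw [sum_const, card_univ, Fintype.card_fin, nsmul_eq_mul]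
  ring

end Pool.Agent.H527.G
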