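import Mathlib
import Pool.Agent.H527.G.G8
import Pool.Agent.H527.N.N28

/-! Families of parameters with disjoint windows; the profile of a row. -/

set_option autoImplicit false

namespace Pool.Agent.H527.G

open Finset Filter Topology Pool.Agent.H527.AP Pool.Agent.H527.S Pool.Agent.H527.M Pool.Agent.H527.N

/-- the data of a profile -/
structure PD (J : ℕ) where
  v : ℝ
  u : Fin J × Bool → ℝ
  k : Fin J → Fin J × Bool → ℕ
  g : ℝ
  z : ℝ
  c1 : ℝ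
  β : ℝ
  δ1 : ℝ

/-- the conditions -/
def PD.ok {J : ℕ} (D : PD J) (B : Fin J → ℝ) (par : Fin J → ℕ) : Prop := Pf B par D.v D.u D.k D.g D.z D.c1 D.β D.δ1

theorem exists_PD {J : ℕ} (B : Fin J → ℝ) (hB1 : ∀ j, 1 < B j) (hB : StrictMono B) (par : Fin J → ℕ) (v : ℝ)
    (hv : 0 < v) (hv1 : v ≤ 1 / 40) : ∃ D : PD J, D.v = v ∧ D.ok B par := by
  obtain ⟨u, k, g, z, c1, β, δ1, H⟩ := exists_Pf B hB1 hB par v hv hv1
  exact ⟨⟨v, u, k, g, z, c1, β, δ1⟩, rfl, H⟩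

/-- a family with disjoint windows -/
theorem exists_fam {J : ℕ} (B : Fin J → ℝ) (hB1 : ∀ j, 1 < B j) (hB : StrictMono B) (K : ℕ) :
    ∀ (par : Fin K → Fin J → ℕ) (v : ℝ), 0 < v → v ≤ 1 / 40 → ∃ D : Fin K → PD J, (∀ i, (D i).ok B (par i)) ∧
      (∀ i, (D i).v ≤ v) ∧ ∀ i j, i < j → (D j).v ≤ (D i).c1 := by
  induction K with
  | zero =>
    intro par v _ _
    exact ⟨fun i => i.elim0, fun i => i.elim0, fun i => i.elim0, fun i => i.elim0⟩
  | succ K ih =>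
    intro par v hv hv1
    obtain ⟨D0, h0v, h0⟩ := exists_PD B hB1 hB (par 0) v hv hv1
    have hc1 : 0 < D0.c1 := h0.hc1
    have hc1v : D0.c1 ≤ v := by rw [← h0v]; exact h0.c1v
    obtain ⟨D, h1, h2, h3⟩ := ih (fun i => par i.succ) D0.c1 hc1 (by linarith)
    refine ⟨Fin.cons D0 D, ?_, ?_, ?_⟩
    · intro i
      refine Fin.cases ?_ (fun i => ?_) i
      · exact h0
      · exact h1 i
    · intro i
      refine Fin.cases ?_ (fun i => ?_) i
      · rw [Fin.cons_zero, h0v]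
      · rw [Fin.cons_succ]; exact (h2 i).trans hc1v
    · intro i j hij
      induction i using Fin.cases with
      | zero =>
        induction j using Fin.cases with
        | zero => exact absurd hij (lt_irrefl _)
        | succ j => rw [Fin.cons_zero, Fin.cons_succ]; exact h2 j
      | succ i =>
        induction j using Fin.cases with
        | zero => exact absurd hij (Fin.not_lt_zero _)
        | succ j =>
          rw [Fin.cons_succ, Fin.cons_succ]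
          exact h3 i j (Fin.succ_lt_succ_iff.1 hij)

/-- the profile of one row -/
def Prof {J : ℕ} (B : Fin J → ℝ) (par : Fin J → ℕ) (δ : ℝ) (C : Finset ℝ) (Q q a : ℕ) : Prop :=
  ∀ j, ∀ c ∈ C,
    (par j % 2 = 1 → (1 + δ) * ((Ysc c (B j) Q : ℝ) * ((q : ℝ) / (Nat.totient q * Real.log Q))) ≤
      (Nn (Ysc c (B j) Q) q a : ℝ)) ∧
    (par j % 2 = 0 → (Nn (Ysc c (B j) Q) q a : ℝ) ≤
      (1 - δ) * ((Ysc c (B j) Q : ℝ) * ((q : ℝ) / (Nat.totient q * Real.log Q))))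

section
variable {J : ℕ} {B : Fin J → ℝ} {par : Fin J → ℕ} {v : ℝ} {u : Fin J × Bool → ℝ} {k : Fin J → Fin J × Bool → ℕ}
    {g z c1 β δ1 η0 A : ℝ} {C : Finset ℝ} {Q : ℕ}

theorem prof_row (H : Pf B par v u k g z c1 β δ1) (F : Lq B u k g z c1 β δ1 η0 A C Q) (ps : ℕ) {q R a : ℕ} {Ys : Finset ℕ}
    (hYs : ∀ j, ∀ c ∈ C, Ysc c (B j) Q ∈ Ys) (hq0 : 0 < q)
    (hq : ∑ p ∈ (PU (Wn u z Q ps)).filter (fun p => p ∣ q), 1 / (p : ℝ) ≤ η0)
    (ha : a ∈ rows (∏ p ∈ Pq (PU (Wn u z Q ps)) q, p) q 0 R) (hgood : a ∉ BadS Q Ys (PU (Wn u z Q ps)) (δ1 / 8) R q) :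
    Prof B par (δ1 / 2) C Q q a := by
  classical
  obtain ⟨g1, g2, g3, g4, g5⟩ := H.P0 F ps
  have hL := F.hL
  have hall : ∀ Y ∈ Ys, |(Nn Y q a : ℝ) - mu Q Y (Pq (PU (Wn u z Q ps)) q) q| ≤ (δ1 / 8) * mu Q Y (Pq (PU (Wn u z Q ps)) q) q := by
    by_contra h
    apply hgood
    unfold BadS
    rw [mem_filter]
    exact ⟨ha, h⟩
  have hsubP : Pq (PU (Wn u z Q ps)) q ⊆ PU (Wn u z Q ps) := filter_subset _ _
  have hPpr : ∀ p ∈ Pq (PU (Wn u z Q ps)) q, p.Prime := fun p hp => g4 p (hsubP hp)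
  have hPr1 : ∏ p ∈ Pq (PU (Wn u z Q ps)) q, (1 - 1 / (p : ℝ)) ≤ 1 := by
    apply prod_le_one
    · intro p hp
      have := (hPpr p hp).one_lt
      have h2 : (1 : ℝ) ≤ p := by exact_mod_cast this.le
      have h3 : 1 / (p : ℝ) ≤ 1 := by rw [div_le_one (by linarith)]; exact h2
      linarith
    · intro p _
      have : (0 : ℝ) ≤ 1 / (p : ℝ) := by positivity
      linarith
  have hPr0 : 0 < ∏ p ∈ Pq (PU (Wn u z Q ps)) q, (1 - 1 / (p : ℝ)) := by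
    apply prod_pos
    intro p hp
    have := (hPpr p hp).one_lt
    have h2 : (1 : ℝ) < p := by exact_mod_cast this
    have h3 : 1 / (p : ℝ) < 1 := by rw [div_lt_one (by linarith)]; exact h2
    linarith
  have hφ : (0 : ℝ) < (Nat.totient q : ℝ) := by exact_mod_cast Nat.totient_pos.2 hq0
  have hδ := H.hδ
  have hδ1 := H.hδ1
  intro j c hc
  have hY := hall _ (hYs j c hc)
  rw [mu_eq hPpr] at hY
  have hdev := H.dev_q F ps q hq j hc
  have hS := (H.SY_q F ps j hc).1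
  have hS2 : ((SY (Pq (PU (Wn u z Q ps)) q) (Ysc c (B j) Q)).card : ℝ) ≤ δ1 / 8 * (Ysc c (B j) Q : ℝ) := by
    refine le_trans ?_ hS
    exact_mod_cast SY_mono hsubP _
  have hcnt := count_all_SY _ hPpr (Ysc c (B j) Q)
  have hY0 : (0 : ℝ) < (Ysc c (B j) Q : ℝ) := by
    have h1 := F.y1 j c hc
    have h2 : 0 < (Real.log Q) ^ (B j - g / 2) := Real.rpow_pos_of_pos (by linarith) _
    linarith
  rw [abs_le] at hcnt hY
  have hq' : 0 ≤ (q : ℝ) / (Nat.totient q * Real.log Q) := by positivity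
  constructor
  · intro hp
    have hn : (-1 : ℝ) ^ (∑ i, k j i) = -1 := by
      apply Odd.neg_one_pow
      rw [Nat.odd_iff, H.hpar j, hp]
    rw [hn] at hdev
    have h1 := fin_pos (Nn (Ysc c (B j) Q) q a) (((Ls (∏ p ∈ Pq (PU (Wn u z Q ps)) q, p) (Ysc c (B j) Q)).card : ℝ))
      (Ysc c (B j) Q) (EY (Pq (PU (Wn u z Q ps)) q) (Ysc c (B j) Q)) (∏ p ∈ Pq (PU (Wn u z Q ps)) q, (1 - 1 / (p : ℝ)))
      ((SY (Pq (PU (Wn u z Q ps)) q) (Ysc c (B j) Q)).card : ℝ) δ1 ((q : ℝ) / (Nat.totient q * Real.log Q)) hY0 hPr0 hPr1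
      hδ hδ1 (by linarith) (by linarith [hcnt.1]) hS2 hq' (by linarith [hY.1])
    exact h1
  · intro hp
    have hn : (-1 : ℝ) ^ (∑ i, k j i) = 1 := by
      apply Even.neg_one_pow
      rw [Nat.even_iff, H.hpar j, hp]
    rw [hn] at hdev
    have h1 := fin_neg (Nn (Ysc c (B j) Q) q a) (((Ls (∏ p ∈ Pq (PU (Wn u z Q ps)) q, p) (Ysc c (B j) Q)).card : ℝ))
      (Ysc c (B j) Q) (EY (Pq (PU (Wn u z Q ps)) q) (Ysc c (B j) Q)) (∏ p ∈ Pq (PU (Wn u z Q ps)) q, (1 - 1 / (p : ℝ)))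
      ((SY (Pq (PU (Wn u z Q ps)) q) (Ysc c (B j) Q)).card : ℝ) δ1 ((q : ℝ) / (Nat.totient q * Real.log Q)) hY0 hPr0 hPr1
      hδ (by linarith) (by linarith [hcnt.2]) hS2 hq' (by linarith [hY.2])
    exact h1

end

theorem Prof.mono {J : ℕ} {B : Fin J → ℝ} {par : Fin J → ℕ} {δ δ' : ℝ} {C : Finset ℝ} {Q q a : ℕ} (h : Prof B par δ C Q q a)
    (hδ : δ' ≤ δ) (hQ : 0 ≤ Real.log Q) : Prof B par δ' C Q q a := by
  intro j c hc
  have h1 := h j c hc
  have h2 : 0 ≤ (Ysc c (B j) Q : ℝ) * ((q : ℝ) / (Nat.totient q * Real.log Q)) := by positivity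
  refine ⟨fun hp => le_trans ?_ (h1.1 hp), fun hp => (h1.2 hp).trans ?_⟩
  · exact mul_le_mul_of_nonneg_right (by linarith) h2
  · exact mul_le_mul_of_nonneg_right (by linarith) h2

/-- disjoint windows -/
theorem win_disjoint {c1 v c1' v' : ℝ} {Q : ℕ} (hL : 1 ≤ Real.log Q) (h : v' ≤ c1) {p : ℕ} (hp : p ∈ win c1 v Q)
    (hp' : p ∈ win c1' v' Q) : False := by
  unfold win at hp hp'
  rw [mem_filter, mem_Ioc] at hp hp'
  have h1 : ⌊(Real.log Q) ^ v'⌋₊ ≤ ⌊(Real.log Q) ^ c1⌋₊ :=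
    Nat.floor_le_floor (Real.rpow_le_rpow_of_exponent_le hL h)
  omega

theorem prod_coprime {P P' : Finset ℕ} (hP : ∀ p ∈ P, p.Prime) (hP' : ∀ p ∈ P', p.Prime) (hd : ∀ p ∈ P, p ∉ P') :
    (∏ p ∈ P, p).Coprime (∏ p ∈ P', p) := by
  apply Nat.Coprime.prod_left
  intro p hp
  apply Nat.Coprime.prod_right
  intro p' hp'
  rw [Nat.coprime_primes (hP p hp) (hP' p' hp')]
  rintro rfl
  exact hd _ hp hp'

end Pool.Agent.H527.G
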