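import Mathlib
import Pool.Agent.H527.G.G9

/-! One class: the bad rows. -/

set_option autoImplicit false

namespace Pool.Agent.H527.G

open Finset Filter Topology Pool.Agent.H527.AP Pool.Agent.H527.S Pool.Agent.H527.M Pool.Agent.H527.N

/-- the number of the shifts -/
noncomputable def Tf (v' : ℝ) (Q : ℕ) : ℕ := ⌊Real.exp ((Real.log Q) ^ v')⌋₊

theorem Tf_ev (v' v A M : ℝ) (hv' : 0 < v') (hv : v < v') : ∀ᶠ Q : ℕ in atTop,
    2 ≤ Tf v' Q ∧ (Tf v' Q : ℝ) ≤ Real.exp ((Real.log Q) ^ v') ∧ (Real.log Q) ^ A ≤ (Tf v' Q : ℝ) ∧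
    2 * Real.exp (M * (Real.log Q) ^ v) ≤ (Tf v' Q : ℝ) := by
  have e1 : ∀ᶠ L : ℝ in atTop, (3 : ℝ) ≤ Real.exp (L ^ v') := by
    filter_upwards [(tendsto_rpow_atTop hv').eventually_ge_atTop 2] with L h
    have := Real.add_one_le_exp (L ^ v')
    linarith
  have e2 : ∀ᶠ L : ℝ in atTop, 2 * L ^ A ≤ Real.exp (L ^ v') := by
    filter_upwards [as_log_pow v' (2 * |A|) hv' 1, (tendsto_rpow_atTop hv').eventually_ge_atTop (2 * Real.log 2),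
      eventually_gt_atTop 1] with L h1 h2 h3
    have hL : 0 < L := by linarith
    have hlog : 0 < Real.log L := Real.log_pos h3
    rw [pow_one] at h1
    have h4 : 2 * L ^ A = Real.exp (Real.log 2 + A * Real.log L) := by
      rw [Real.exp_add, Real.exp_log (by norm_num), Real.rpow_def_of_pos hL, mul_comm A]
    rw [h4]
    apply Real.exp_le_exp.2
    have h5 : A * Real.log L ≤ |A| * Real.log L := mul_le_mul_of_nonneg_right (le_abs_self A) hlog.le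
    linarith
  have e3 : ∀ᶠ L : ℝ in atTop, 4 * Real.exp (M * L ^ v) ≤ Real.exp (L ^ v') := by
    filter_upwards [as_pow_pow v v' (2 * |M|) hv, (tendsto_rpow_atTop hv').eventually_ge_atTop (2 * Real.log 4),
      eventually_gt_atTop 0] with L h1 h2 h3
    have h4 : 4 * Real.exp (M * L ^ v) = Real.exp (Real.log 4 + M * L ^ v) := by
      rw [Real.exp_add, Real.exp_log (by norm_num)]
    rw [h4]
    apply Real.exp_le_exp.2
    have h5 : M * L ^ v ≤ |M| * L ^ v := mul_le_mul_of_nonneg_right (le_abs_self M) (Real.rpow_nonneg h3.le _)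
    linarith
  filter_upwards [tendsto_logN.eventually e1, tendsto_logN.eventually e2, tendsto_logN.eventually e3] with Q h1 h2 h3
  have h4 := Nat.floor_le (Real.exp_pos ((Real.log Q) ^ v')).le
  have h5 := Nat.lt_floor_add_one (Real.exp ((Real.log Q) ^ v'))
  unfold Tf
  refine ⟨?_, h4, ?_, ?_⟩
  · apply Nat.le_floor
    push_cast
    linarith
  · linarith
  · linarith

open Classical in
set_option maxHeartbeats 4000000 in
theorem one_class {J : ℕ} (B : Fin J → ℝ) (par : Fin J → ℕ) {v : ℝ} {u : Fin J × Bool → ℝ} {k : Fin J → Fin J × Bool → ℕ}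
    {g z c1 β δ1 : ℝ} (H : Pf B par v u k g z c1 β δ1) (v' : ℝ) (hv' : v < v') (hv1' : v' ≤ 1 / 40)
    (κ : ℝ) (hκ : 0 < κ) (C : Finset ℝ) (hC : ∀ c ∈ C, 0 < c) : ∀ᶠ Q : ℕ in atTop, ∃ P0 : Finset ℕ, P0 ⊆ win c1 v Q ∧
      ∃ Bd : ℕ → Finset ℕ, (((Ioc Q (2 * Q)).filter (fun q => ¬ (((∏ p ∈ Pq P0 q, p : ℕ) : ℝ) * ((Bd q).card : ℝ) ≤
        κ * (((Q * Tf v' Q : ℕ) : ℝ) * ((Nat.totient q : ℝ) / q)) ∧
        ∀ a ∈ rows (∏ p ∈ Pq P0 q, p) q 0 (Q * Tf v' Q), a ∉ Bd q → Prof B par (δ1 / 2) C Q q a))).card : ℝ) ≤ κ * Q := by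
  have hδ := H.hδ
  have hδ1 := H.hδ1
  have hv0 := H.hv
  obtain ⟨η0, A, hη0, hA, hF⟩ := H.ev C hC
  obtain ⟨N, hN⟩ : ∃ N : ℕ, N = ((univ : Finset (Fin J)) ×ˢ C).card := ⟨_, rfl⟩
  obtain ⟨κ1, hκ1⟩ : ∃ κ1 : ℝ, κ1 = κ / (2 * (N + 1)) := ⟨_, rfl⟩
  have hN0 : (0 : ℝ) ≤ N := Nat.cast_nonneg _
  have hκ10 : 0 < κ1 := by rw [hκ1]; positivity
  have hκ1a : κ1 * (N + 1) ≤ κ / 2 := by
    rw [hκ1]
    apply le_of_eq
    field_simp
  obtain ⟨e, he⟩ : ∃ e : ℝ, e = min (1 / 3) ((δ1 / 8) ^ 2 * κ1 ^ 3 / 14400) := ⟨_, rfl⟩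
  have he0 : 0 < e := by rw [he]; exact lt_min (by norm_num) (by positivity)
  have he3 : e ≤ 1 / 3 := by rw [he]; exact min_le_left _ _
  have he4 : 14400 * e ≤ (δ1 / 8) ^ 2 * κ1 ^ 3 := by
    have : e ≤ (δ1 / 8) ^ 2 * κ1 ^ 3 / 14400 := by rw [he]; exact min_le_right _ _
    linarith
  obtain ⟨D, N₀, hvar⟩ := exists_varR c1 v v' A β (Real.exp (Fintype.card (Fin J × Bool))) e H.hc1 H.c1v H.hv1
    (by linarith) hv1' H.hβ hA he0 he3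
  have t1 : Tendsto (fun Q : ℕ => (Real.log Q) ^ (-c1)) atTop (𝓝 0) := (tendsto_rpow_neg_atTop H.hc1).comp tendsto_logN
  have e1 : ∀ᶠ Q : ℕ in atTop, (Real.log Q) ^ (-c1) < κ / 2 * η0 := t1.eventually (gt_mem_nhds (by positivity))
  filter_upwards [hF, hvar, e1, Tf_ev v' v A 0 (by linarith) hv', eventually_ge_atTop 2] with Q F hvQ f1 hT hQ2
  obtain ⟨ps, f, hV⟩ := hvQ
  obtain ⟨g1, g2, g3, g4, g5⟩ := H.P0 F ps
  have hL := F.hL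
  have hQ0 : (0 : ℝ) < Q := by exact_mod_cast (by omega : 0 < Q)
  obtain ⟨T, hTd⟩ : ∃ T, T = Tf v' Q := ⟨_, rfl⟩
  rw [← hTd] at hT ⊢
  obtain ⟨hT1, hT2, hT3, _⟩ := hT
  obtain ⟨R, hR⟩ : ∃ R, R = Q * T := ⟨_, rfl⟩
  rw [← hR]
  obtain ⟨P0, hP0⟩ : ∃ P0, P0 = PU (Wn u z Q ps) := ⟨_, rfl⟩
  obtain ⟨Ys, hYs⟩ : ∃ Ys, Ys = ((univ : Finset (Fin J)) ×ˢ C).image (fun x => Ysc x.2 (B x.1) Q) := ⟨_, rfl⟩
  have hYscard : (Ys.card : ℝ) ≤ N := by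
    rw [hYs, hN]; exact_mod_cast card_image_le
  have hYsm : ∀ j, ∀ c ∈ C, Ysc c (B j) Q ∈ Ys := by
    intro j c hc
    rw [hYs, mem_image]
    exact ⟨(j, c), mem_product.2 ⟨mem_univ j, hc⟩, rfl⟩
  have hR2 : 2 * Q ≤ R := by
    rw [hR, mul_comm]; exact Nat.mul_le_mul_left Q hT1
  have hR3 : (R : ℝ) ≤ Q * Real.exp ((Real.log Q) ^ v') := by
    rw [hR]; push_cast
    gcongr
  have hSc : ∀ Y ∈ Ys, ∃ Er : ℝ, ∀ g', g' ∣ ∏ p ∈ P0, p → VarR Q g' R Y (SY P0 Y).card D f N₀ (Pq P0 g') Er e := by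
    intro Y hY
    rw [hYs, mem_image] at hY
    obtain ⟨⟨j, c⟩, hjc, rfl⟩ := hY
    rw [mem_product] at hjc
    rw [hP0]
    have hYT : Ysc c (B j) Q ≤ T := by exact_mod_cast (F.y4 j c hjc.2).trans hT3
    refine hV (PU (Wn u z Q ps)) g1 g2 g3 _ ⟨F.y3 j c hjc.2, F.y4 j c hjc.2, (H.SY_q F ps j hjc.2).2⟩ R ?_ hR2 hR3
    rw [hR, mul_comm]
    exact Nat.mul_le_mul_left Q hYT
  choose! Er hEr using hSc
  rw [← hP0] at g1 g2 g3 g4 g5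
  have hprod : 1 / 2 ≤ ∏ p ∈ P0, (1 - 1 / (p : ℝ)) := by
    have h1 := prod_ge P0 (fun p hp => by exact_mod_cast (g4 p hp).one_lt.le)
    linarith
  have hm := multiR (k := fun Y => (SY P0 Y).card) g4 hEr (by linarith : 0 < δ1 / 8) hκ10 hprod he4
  have hfew := few_div P0 Q ((Real.log Q) ^ (-c1)) η0 g5 g3 hη0 (Real.rpow_nonneg (by linarith) _)
  have hκY : κ1 * Ys.card ≤ κ / 2 := by
    calc κ1 * Ys.card ≤ κ1 * (N + 1) := by
          apply mul_le_mul_of_nonneg_left _ hκ10.le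
          linarith
      _ ≤ _ := hκ1a
  refine ⟨P0, g1, fun q => BadS Q Ys P0 (δ1 / 8) R q, ?_⟩
  have hsub : (Ioc Q (2 * Q)).filter (fun q => ¬ (((∏ p ∈ Pq P0 q, p : ℕ) : ℝ) * ((BadS Q Ys P0 (δ1 / 8) R q).card : ℝ) ≤
        κ * ((R : ℝ) * ((Nat.totient q : ℝ) / q)) ∧
        ∀ a ∈ rows (∏ p ∈ Pq P0 q, p) q 0 R, a ∉ BadS Q Ys P0 (δ1 / 8) R q → Prof B par (δ1 / 2) C Q q a)) ⊆
      ((Ioc Q (2 * Q)).filter (fun q => ¬ ((∏ p ∈ Pq P0 q, p : ℕ) : ℝ) * ((BadS Q Ys P0 (δ1 / 8) R q).card : ℝ) ≤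
      κ1 * Ys.card * (R * ((Nat.totient q : ℝ) / q)))) ∪
      ((Ioc Q (2 * Q)).filter (fun q => η0 < ∑ p ∈ P0.filter (fun p => p ∣ q), 1 / (p : ℝ))) := by
    intro q hq
    rw [mem_filter] at hq
    rw [mem_union]
    by_contra hcon
    rw [not_or, mem_filter, mem_filter] at hcon
    obtain ⟨hc1', hc2⟩ := hcon
    apply hq.2
    have hq1 : 0 < q := by
      have := mem_Ioc.1 hq.1
      omega
    have h1 : ((∏ p ∈ Pq P0 q, p : ℕ) : ℝ) * ((BadS Q Ys P0 (δ1 / 8) R q).card : ℝ) ≤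
      κ1 * Ys.card * (R * ((Nat.totient q : ℝ) / q)) := by
      by_contra h; exact hc1' ⟨hq.1, h⟩
    have h2 : ∑ p ∈ P0.filter (fun p => p ∣ q), 1 / (p : ℝ) ≤ η0 := by
      by_contra h; exact hc2 ⟨hq.1, not_le.1 h⟩
    refine ⟨h1.trans ?_, fun a ha hgood => ?_⟩
    · apply mul_le_mul_of_nonneg_right _ (by positivity)
      linarith
    · rw [hP0] at h2 ha hgood
      exact prof_row H F ps hYsm hq1 h2 ha hgood
  have h1 := (card_le_card hsub).trans (card_union_le _ _)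
  have h2 : (((Ioc Q (2 * Q)).filter (fun q => ¬ (((∏ p ∈ Pq P0 q, p : ℕ) : ℝ) * ((BadS Q Ys P0 (δ1 / 8) R q).card : ℝ) ≤
        κ * ((R : ℝ) * ((Nat.totient q : ℝ) / q)) ∧
        ∀ a ∈ rows (∏ p ∈ Pq P0 q, p) q 0 R, a ∉ BadS Q Ys P0 (δ1 / 8) R q → Prof B par (δ1 / 2) C Q q a))).card : ℝ) ≤
      (((Ioc Q (2 * Q)).filter (fun q => ¬ ((∏ p ∈ Pq P0 q, p : ℕ) : ℝ) * ((BadS Q Ys P0 (δ1 / 8) R q).card : ℝ) ≤
      κ1 * Ys.card * (R * ((Nat.totient q : ℝ) / q)))).card : ℝ) +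
      (((Ioc Q (2 * Q)).filter (fun q => η0 < ∑ p ∈ P0.filter (fun p => p ∣ q), 1 / (p : ℝ))).card : ℝ) := by
    exact_mod_cast h1
  refine h2.trans ?_
  have h3 : κ1 * Ys.card * Q ≤ κ / 2 * Q := mul_le_mul_of_nonneg_right hκY hQ0.le
  have h4 : (Real.log Q) ^ (-c1) / η0 * Q ≤ κ / 2 * Q := by
    apply mul_le_mul_of_nonneg_right _ hQ0.le
    rw [div_le_iff₀ hη0]
    exact f1.le
  linarith

end Pool.Agent.H527.G
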