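import Mathlib
import Pool.Agent.H527.G.G11

/-! From rows to windows. -/

set_option autoImplicit false

namespace Pool.Agent.H527.G

open Finset Filter Topology Pool.Agent.H527.AP Pool.Agent.H527.S Pool.Agent.H527.M Pool.Agent.H527.N

/-- the number of primes `p ≡ c` modulo `q` with `x < p ≤ x + h` -/
def wc (x h q c : ℕ) : ℕ := ((Ioc x (x + h)).filter (fun p => p.Prime ∧ p ≡ c [MOD q])).card

theorem w_ge {q c u Y h : ℕ} (hc : 0 < c) (hcq : c ≤ q) (hY : Y * q ≤ h) : Nn Y q (c + u * q) ≤ wc ((u + 1) * q) h q c := by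
  unfold Nn wc
  apply card_le_card_of_injOn (fun l => c + u * q + l * q)
  · intro l hl
    rw [mem_coe, mem_filter, mem_Icc] at hl
    rw [mem_coe, mem_filter, mem_Ioc]
    have h1 : l * q ≤ Y * q := Nat.mul_le_mul_right q hl.1.2
    have h2 : 1 * q ≤ l * q := Nat.mul_le_mul_right q hl.1.1
    have h3 : (u + 1) * q = u * q + q := by ring
    beta_reduce
    refine ⟨⟨by omega, by omega⟩, hl.2, ?_⟩
    have h4 : c + u * q + l * q = c + (u + l) * q := by ring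
    rw [h4]
    exact Nat.add_mul_mod_self_right c (u + l) q
  · intro l _ l' _ h
    simp only at h
    have : l * q = l' * q := by omega
    exact Nat.eq_of_mul_eq_mul_right (by omega) this

theorem w_le {q c u Y h : ℕ} (hc : 0 < c) (hcq : c ≤ q) (hY : h ≤ Y * q) : wc ((u + 1) * q) h q c ≤ Nn Y q (c + u * q) := by
  classical
  have hq : 0 < q := by omega
  unfold Nn wc
  have h1 : (Ioc ((u + 1) * q) ((u + 1) * q + h)).filter (fun p => p.Prime ∧ p ≡ c [MOD q]) ⊆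
      ((Icc 1 Y).filter (fun l => (c + u * q + l * q).Prime)).image (fun l => c + u * q + l * q) := by
    intro p hp
    rw [mem_filter, mem_Ioc] at hp
    obtain ⟨⟨h2, h3⟩, h4, h5⟩ := hp
    have h6 : (u + 1) * q = u * q + q := by ring
    have h7 : c + u * q ≤ p := by omega
    have h8 : c + u * q ≡ p [MOD q] := by
      have : c + u * q ≡ c [MOD q] := Nat.add_mul_mod_self_right c u q
      exact this.trans h5.symm
    obtain ⟨l, hl⟩ := (Nat.modEq_iff_dvd' h7).1 h8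
    have hpe : p = c + u * q + l * q := by rw [mul_comm q l] at hl; omega
    rw [mem_image]
    refine ⟨l, ?_, hpe.symm⟩
    rw [mem_filter, mem_Icc, ← hpe]
    refine ⟨⟨?_, ?_⟩, h4⟩
    · rcases Nat.eq_zero_or_pos l with h9 | h9
      · rw [h9, zero_mul] at hpe; omega
      · exact h9
    · have h9 : l * q < (Y + 1) * q := by
        have : (Y + 1) * q = Y * q + q := by ring
        omega
      have := Nat.lt_of_mul_lt_mul_right h9
      omega
  exact (card_le_card h1).trans card_image_le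

set_option maxHeartbeats 4000000 in
theorem transferW {J : ℕ} (B : Fin J → ℝ) (hB1 : ∀ j, 1 < B j) (s : Fin J → Bool) (δ Λ v' : ℝ) (hδ : 0 < δ) (hδ1 : δ ≤ 1 / 2)
    (hv1' : v' ≤ 1 / 40) :
    ∃ N : ℕ, ∀ᶠ Q : ℕ in atTop, ∀ q ∈ Ioc Q (2 * Q), ∀ c u : ℕ, 0 < c → c ≤ q →
      (((u + 1) * q : ℕ) : ℝ) ≤ Q * Real.exp ((Real.log Q) ^ v') →
      Prof B (fun j => if s j then 1 else 0) δ (Cs (δ / 32) N) Q q (c + u * q) →
      ∀ j, ∀ h : ℕ, q * (Real.log q) ^ B j ≤ (h : ℝ) → (h : ℝ) ≤ Λ * (q * (Real.log q) ^ B j) →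
        (s j = true → (1 + δ / 2) * ((h : ℝ) / (Nat.totient q * Real.log (((u + 1) * q : ℕ) : ℝ))) ≤
          (wc ((u + 1) * q) h q c : ℝ)) ∧
        (s j = false → (wc ((u + 1) * q) h q c : ℝ) ≤
          (1 - δ / 2) * ((h : ℝ) / (Nat.totient q * Real.log (((u + 1) * q : ℕ) : ℝ)))) := by
  classical
  obtain ⟨η, hη⟩ : ∃ η : ℝ, η = δ / 32 := ⟨_, rfl⟩
  have hη0 : 0 < η := by rw [hη]; linarith
  have hη1 : η ≤ 1 / 64 := by rw [hη]; linarith
  obtain ⟨Bm, hBm, hBm1⟩ : ∃ Bm : ℝ, (∀ j, B j ≤ Bm) ∧ 1 ≤ Bm := by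
    refine ⟨∑ j, B j + 1, fun j => ?_, ?_⟩
    · have := single_le_sum (f := B) (fun j _ => by linarith [hB1 j]) (mem_univ j)
      linarith
    · have : 0 ≤ ∑ j, B j := sum_nonneg fun j _ => by linarith [hB1 j]
      linarith
  obtain ⟨T, hT⟩ : ∃ T : ℝ, T = max 1 Λ * 2 ^ Bm := ⟨_, rfl⟩
  have hΛ1 : 1 ≤ max 1 Λ := le_max_left _ _
  have hT1 : 1 ≤ T := by
    rw [hT]
    have : 1 ≤ (2 : ℝ) ^ Bm := Real.one_le_rpow (by norm_num) (by linarith)
    nlinarith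
  obtain ⟨N, hN⟩ := pow_unbounded_of_one_lt T (show (1 : ℝ) < 1 + η by linarith)
  refine ⟨N, ?_⟩
  have e1 : ∀ᶠ L : ℝ in atTop, ∀ j, 1 ≤ η / 2 * L ^ B j := by
    rw [eventually_all]; intro j
    filter_upwards [(tendsto_rpow_atTop (show 0 < B j by linarith [hB1 j])).eventually_ge_atTop (2 / η)] with L h
    rw [div_le_iff₀ hη0] at h
    linarith
  have e2 : ∀ᶠ L : ℝ in atTop, L ^ v' ≤ η * L := by
    filter_upwards [as_pow_pow v' 1 (1 / η) (by linarith)] with L h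
    rw [Real.rpow_one, one_div, inv_mul_le_iff₀ hη0] at h
    exact h
  filter_upwards [tendsto_logN.eventually e1, tendsto_logN.eventually e2,
    tendsto_logN.eventually_ge_atTop 2, eventually_ge_atTop 2] with Q a1 a2 a5 a6 q hqQ c u hc0 hcq hxQ hall j h hx1 hx2
  rw [mem_Ioc] at hqQ
  have hq0n : 0 < q := by omega
  have hQ0 : (0 : ℝ) < Q := by exact_mod_cast (by omega : 0 < Q)
  have hq0 : (0 : ℝ) < q := by exact_mod_cast hq0n
  have hQq : (Q : ℝ) ≤ q := by exact_mod_cast hqQ.1.le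
  have hqQ2 : (q : ℝ) ≤ 2 * Q := by exact_mod_cast hqQ.2
  have b1 := a1 j
  obtain ⟨L, hL⟩ : ∃ L : ℝ, L = Real.log Q := ⟨_, rfl⟩
  rw [← hL] at b1 a2 a5 hxQ
  have hL0 : 0 < L := by linarith
  have hlq1 : L ≤ Real.log q := by rw [hL]; exact Real.log_le_log hQ0 hQq
  have hlq2 : Real.log q ≤ 2 * L := by
    have h5 : Real.log q ≤ Real.log (2 * Q) := Real.log_le_log hq0 hqQ2
    rw [Real.log_mul (by norm_num) hQ0.ne', ← hL] at h5
    have := Real.log_two_lt_d9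
    linarith
  have hLb : 0 < L ^ B j := Real.rpow_pos_of_pos hL0 _
  have hB0 : 0 < B j := by linarith [hB1 j]
  -- the logarithm of the window
  obtain ⟨X, hX⟩ : ∃ X : ℝ, X = (((u + 1) * q : ℕ) : ℝ) := ⟨_, rfl⟩
  rw [← hX] at hxQ ⊢
  have hqX : (Q : ℝ) ≤ X := by
    rw [hX]
    have h1 : 1 * q ≤ (u + 1) * q := Nat.mul_le_mul_right q (by omega)
    have h2 : (q : ℝ) ≤ (((u + 1) * q : ℕ) : ℝ) := by exact_mod_cast (by omega : q ≤ (u + 1) * q)
    linarith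
  have hlX1 : L ≤ Real.log X := by rw [hL]; exact Real.log_le_log hQ0 hqX
  have hlX2 : Real.log X ≤ (1 + η) * L := by
    have h1 := Real.log_le_log (by linarith) hxQ
    rw [Real.log_mul hQ0.ne' (Real.exp_pos _).ne', Real.log_exp, ← hL] at h1
    linarith
  obtain ⟨lX, hlX⟩ : ∃ lX : ℝ, lX = Real.log X := ⟨_, rfl⟩
  rw [← hlX] at hlX1 hlX2 ⊢
  have hlX0 : 0 < lX := by linarith
  obtain ⟨y, hy⟩ : ∃ y : ℝ, y = (h : ℝ) / q := ⟨_, rfl⟩
  have hxy : (h : ℝ) = y * q := by rw [hy]; field_simp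
  have hy1 : L ^ B j ≤ y := by
    rw [hy, le_div_iff₀ hq0, mul_comm]
    refine le_trans ?_ hx1
    have := Real.rpow_le_rpow hL0.le hlq1 hB0.le
    gcongr
  have hy2 : y ≤ T * L ^ B j := by
    rw [hy, div_le_iff₀ hq0]
    have h1 : (Real.log q) ^ B j ≤ 2 ^ Bm * L ^ B j := by
      calc (Real.log q) ^ B j ≤ (2 * L) ^ B j := Real.rpow_le_rpow (by linarith) hlq2 hB0.le
        _ = 2 ^ B j * L ^ B j := Real.mul_rpow (by norm_num) hL0.le
        _ ≤ 2 ^ Bm * L ^ B j := by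
            have := Real.rpow_le_rpow_of_exponent_le (show (1 : ℝ) ≤ 2 by norm_num) (hBm j)
            gcongr
    have h2 : 0 ≤ (q : ℝ) * (Real.log q) ^ B j := by
      have : 0 ≤ (Real.log q) ^ B j := Real.rpow_nonneg (by linarith) _
      positivity
    calc (h : ℝ) ≤ Λ * (q * (Real.log q) ^ B j) := hx2
      _ ≤ max 1 Λ * (q * (Real.log q) ^ B j) := by
          have := le_max_right 1 Λ
          gcongr
      _ ≤ max 1 Λ * (q * (2 ^ Bm * L ^ B j)) := by gcongr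
      _ = T * L ^ B j * q := by rw [hT]; ring
  -- the scale
  obtain ⟨n, hn1, hn2⟩ := exists_nat_pow_near (show 1 ≤ y / L ^ B j by rw [le_div_iff₀ hLb]; linarith)
    (show (1 : ℝ) < 1 + η by linarith)
  rw [le_div_iff₀ hLb] at hn1
  rw [div_lt_iff₀ hLb] at hn2
  have hnN : n < N := by
    by_contra h
    push Not at h
    have h1 : (1 + η) ^ N ≤ (1 + η) ^ n := pow_le_pow_right₀ (by linarith) h
    have h2 : T * L ^ B j < (1 + η) ^ n * L ^ B j := by
      apply mul_lt_mul_of_pos_right _ hLb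
      linarith
    linarith
  obtain ⟨s1, s2, s3, s4⟩ := scales hL0 hη0 (by linarith) b1 hn1 hn2
  have hc1 := hall j _ (Cs_mem (η := δ / 32) (N := N) (show n < N + 4 by omega))
  have hc2 := hall j _ (Cs_mem (η := δ / 32) (N := N) (show n + 3 < N + 4 by omega))
  rw [← hη] at hc1 hc2
  unfold Ysc at hc1 hc2
  rw [← hL] at hc1 hc2
  have hφ : (0 : ℝ) < (Nat.totient q : ℝ) := by exact_mod_cast Nat.totient_pos.2 hq0n
  obtain ⟨φ, hφe⟩ : ∃ φ : ℝ, φ = (Nat.totient q : ℝ) := ⟨_, rfl⟩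
  rw [← hφe] at hc1 hc2 hφ ⊢
  clear hall a1
  have hy0 : 0 < y := by linarith
  constructor
  · intro hs
    have h1 := hc1.1 (by simp [hs])
    have h2 : (Nn ⌊(1 + η) ^ n / (1 + η) * L ^ B j⌋₊ q (c + u * q) : ℝ) ≤ (wc ((u + 1) * q) h q c : ℝ) := by
      have h3 : ⌊(1 + η) ^ n / (1 + η) * L ^ B j⌋₊ * q ≤ h := by
        have h4 : ((⌊(1 + η) ^ n / (1 + η) * L ^ B j⌋₊ : ℕ) : ℝ) * q ≤ h := by
          rw [hxy]
          gcongr
          linarith
        exact_mod_cast h4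
      exact_mod_cast w_ge (u := u) hc0 hcq h3
    refine le_trans ?_ (h1.trans h2)
    obtain ⟨Y, hY⟩ : ∃ Y : ℝ, Y = (⌊(1 + η) ^ n / (1 + η) * L ^ B j⌋₊ : ℝ) := ⟨_, rfl⟩
    rw [← hY] at s2 ⊢
    have h3 : (1 + δ / 2) * y * (1 + η) ^ 2 ≤ (1 + δ) * Y * (1 + η) ^ 2 := by
      calc (1 + δ / 2) * y * (1 + η) ^ 2 ≤ (1 + δ / 2) * y * (1 + η) ^ 2 * (1 + η) := le_mul_of_one_le_right (by positivity) (by linarith)
        _ = ((1 + δ / 2) * (1 + η) * (1 + η) ^ 2) * y := by ring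
        _ ≤ ((1 + δ) * (1 - η)) * y := mul_le_mul_of_nonneg_right (num_pos δ η hδ hδ1 hη) hy0.le
        _ = (1 + δ) * ((1 - η) * y) := by ring
        _ ≤ (1 + δ) * ((1 + η) ^ 2 * Y) := by gcongr
        _ = _ := by ring
    have h4 := le_of_mul_le_mul_right h3 (by positivity)
    calc (1 + δ / 2) * ((h : ℝ) / (φ * lX)) ≤ (1 + δ / 2) * ((h : ℝ) / (φ * L)) := by gcongr
      _ = ((1 + δ / 2) * y) * (q / (φ * L)) := by rw [hxy]; ring
      _ ≤ ((1 + δ) * Y) * (q / (φ * L)) := by gcongr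
      _ = _ := by ring
  · intro hs
    have h1 := hc2.2 (by simp [hs])
    have h2 : (wc ((u + 1) * q) h q c : ℝ) ≤ (Nn ⌊(1 + η) ^ (n + 3) / (1 + η) * L ^ B j⌋₊ q (c + u * q) : ℝ) := by
      have h3 : h ≤ ⌊(1 + η) ^ (n + 3) / (1 + η) * L ^ B j⌋₊ * q := by
        have h4 : (h : ℝ) ≤ ((⌊(1 + η) ^ (n + 3) / (1 + η) * L ^ B j⌋₊ : ℕ) : ℝ) * q := by
          rw [hxy]
          gcongr
        exact_mod_cast h4
      exact_mod_cast w_le (u := u) hc0 hcq h3
    refine h2.trans (h1.trans ?_)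
    obtain ⟨Y, hY⟩ : ∃ Y : ℝ, Y = (⌊(1 + η) ^ (n + 3) / (1 + η) * L ^ B j⌋₊ : ℝ) := ⟨_, rfl⟩
    rw [← hY] at s4 ⊢
    have hδ' : 0 ≤ 1 - δ := by linarith
    have h3 : (1 - δ) * Y * (1 + η) ≤ (1 - δ / 2) * y := by
      have h5 := num_neg δ η hδ hδ1 hη
      have h6 : (1 - η) * (1 + η) ≤ 1 := by nlinarith
      have h7 : 0 ≤ 1 - δ / 2 - η := by linarith
      calc (1 - δ) * Y * (1 + η) ≤ (1 - δ) * ((1 + η) ^ 2 * y) * (1 + η) := by gcongr
        _ = ((1 - δ) * (1 + η) ^ 2) * (1 + η) * y := by ring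
        _ ≤ ((1 - δ / 2 - η) * (1 - η)) * (1 + η) * y := by gcongr
        _ = (1 - δ / 2 - η) * ((1 - η) * (1 + η)) * y := by ring
        _ ≤ (1 - δ / 2 - η) * 1 * y := by gcongr
        _ ≤ _ := by
            rw [mul_one]
            apply mul_le_mul_of_nonneg_right _ hy0.le
            linarith
    have h4 : q / (φ * L) ≤ (1 + η) * (q / (φ * lX)) := by
      rw [← mul_div_assoc, div_le_div_iff₀ (by positivity) (by positivity)]
      calc (q : ℝ) * (φ * lX) ≤ q * (φ * ((1 + η) * L)) := by gcongr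
        _ = _ := by ring
    have hY0 : 0 ≤ Y := by rw [hY]; positivity
    calc (1 - δ) * (Y * (q / (φ * L))) = ((1 - δ) * Y) * (q / (φ * L)) := by ring
      _ ≤ ((1 - δ) * Y) * ((1 + η) * (q / (φ * lX))) := by gcongr
      _ = ((1 - δ) * Y * (1 + η)) * (q / (φ * lX)) := by ring
      _ ≤ ((1 - δ / 2) * y) * (q / (φ * lX)) := by gcongr
      _ = _ := by rw [hxy]; ring

end Pool.Agent.H527.G
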