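import Mathlib
import Pool.Agent.H527.G.G12

/-! From the number of primes to the function `ψ`. -/

set_option autoImplicit false

namespace Pool.Agent.H527.G

open Finset Filter Topology Pool.Agent.H527.AP Pool.Agent.H527.S Pool.Agent.H527.M Pool.Agent.H527.N

/-- `ψ(x; q, a)` -/
noncomputable def psiN (x q a : ℕ) : ℝ := ∑ n ∈ (Icc 1 x).filter (fun n => n ≡ a [MOD q]), ArithmeticFunction.vonMangoldt n

theorem psiN_sub (x h q a : ℕ) : psiN (x + h) q a - psiN x q a =
    ∑ n ∈ (Ioc x (x + h)).filter (fun n => n ≡ a [MOD q]), ArithmeticFunction.vonMangoldt n := by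
  have h1 : (Icc 1 (x + h)).filter (fun n => n ≡ a [MOD q]) = (Icc 1 x).filter (fun n => n ≡ a [MOD q]) ∪
      (Ioc x (x + h)).filter (fun n => n ≡ a [MOD q]) := by
    rw [← filter_union]
    congr 1
    ext n
    simp only [mem_union, mem_Icc, mem_Ioc]
    omega
  have h2 : Disjoint ((Icc 1 x).filter (fun n => n ≡ a [MOD q])) ((Ioc x (x + h)).filter (fun n => n ≡ a [MOD q])) := by
    rw [Finset.disjoint_left]
    intro n hn hn'
    rw [mem_filter, mem_Icc] at hn
    rw [mem_filter, mem_Ioc] at hn'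
    omega
  unfold psiN
  rw [h1, sum_union h2]
  ring

theorem psiN_ge {x h q a : ℕ} (hx : 1 ≤ x) : Real.log x * (wc x h q a : ℝ) ≤ psiN (x + h) q a - psiN x q a := by
  rw [psiN_sub]
  have h1 : ∑ p ∈ (Ioc x (x + h)).filter (fun p => p.Prime ∧ p ≡ a [MOD q]), ArithmeticFunction.vonMangoldt p ≤
      ∑ n ∈ (Ioc x (x + h)).filter (fun n => n ≡ a [MOD q]), ArithmeticFunction.vonMangoldt n := by
    apply sum_le_sum_of_subset_of_nonneg
    · intro p hp
      rw [mem_filter] at hp ⊢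
      exact ⟨hp.1, hp.2.2⟩
    · intro n _ _
      exact ArithmeticFunction.vonMangoldt_nonneg
  refine le_trans ?_ h1
  have h2 : ∀ p ∈ (Ioc x (x + h)).filter (fun p => p.Prime ∧ p ≡ a [MOD q]), Real.log x ≤ ArithmeticFunction.vonMangoldt p := by
    intro p hp
    rw [mem_filter, mem_Ioc] at hp
    rw [ArithmeticFunction.vonMangoldt_apply_prime hp.2.1]
    apply Real.log_le_log
    · exact_mod_cast hx
    · exact_mod_cast hp.1.1.le
  have h3 := card_nsmul_le_sum _ _ _ h2
  rw [nsmul_eq_mul] at h3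
  unfold wc
  rw [mul_comm]
  exact h3

theorem psiN_le {x h q a : ℕ} (hpp : ∀ n, x < n → n ≤ x + h → n ≡ a [MOD q] → IsPrimePow n → n.Prime) :
    psiN (x + h) q a - psiN x q a ≤ Real.log ((x + h : ℕ) : ℝ) * (wc x h q a : ℝ) := by
  rw [psiN_sub]
  have h1 : ∑ n ∈ (Ioc x (x + h)).filter (fun n => n ≡ a [MOD q]), ArithmeticFunction.vonMangoldt n ≤
      ∑ p ∈ (Ioc x (x + h)).filter (fun p => p.Prime ∧ p ≡ a [MOD q]), Real.log ((x + h : ℕ) : ℝ) := by
    rw [← sum_filter_add_sum_filter_not ((Ioc x (x + h)).filter (fun n => n ≡ a [MOD q])) (fun n => n.Prime)]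
    have h2 : ∑ n ∈ ((Ioc x (x + h)).filter (fun n => n ≡ a [MOD q])).filter (fun n => ¬ n.Prime), ArithmeticFunction.vonMangoldt n = 0 := by
      apply sum_eq_zero
      intro n hn
      rw [mem_filter, mem_filter, mem_Ioc] at hn
      rw [ArithmeticFunction.vonMangoldt_eq_zero_iff]
      intro h3
      exact hn.2 (hpp n hn.1.1.1 hn.1.1.2 hn.1.2 h3)
    rw [h2, add_zero, filter_filter]
    have h3 : (Ioc x (x + h)).filter (fun n => n ≡ a [MOD q] ∧ n.Prime) = (Ioc x (x + h)).filter (fun p => p.Prime ∧ p ≡ a [MOD q]) := by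
      apply filter_congr
      intro n _
      exact and_comm
    rw [h3]
    apply sum_le_sum
    intro p hp
    rw [mem_filter, mem_Ioc] at hp
    rw [ArithmeticFunction.vonMangoldt_apply_prime hp.2.1]
    apply Real.log_le_log
    · exact_mod_cast hp.2.1.pos
    · exact_mod_cast hp.1.2
  refine h1.trans (le_of_eq ?_)
  rw [sum_const, nsmul_eq_mul]
  unfold wc
  ring

/-- the classes which contain a proper prime power up to `X` -/
noncomputable def Npp (X q : ℕ) : Finset ℕ := by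
  classical
  exact (Rd q).filter (fun c => ∃ n, n ≤ X ∧ n ≡ c [MOD q] ∧ IsPrimePow n ∧ ¬ n.Prime)

theorem Npp_card (X q : ℕ) : (Npp X q).card ≤ (Nat.sqrt X + 1) * (Nat.log 2 X + 1) := by
  classical
  have h1 : Npp X q ⊆ ((range (Nat.sqrt X + 1)) ×ˢ (range (Nat.log 2 X + 1))).image (fun y => (y.1 ^ y.2 - 1) % q + 1) := by
    intro c hc
    unfold Npp at hc
    rw [mem_filter] at hc
    obtain ⟨hc1, n, hnX, hnc, hpp, hnp⟩ := hc
    unfold Rd at hc1
    rw [mem_filter, mem_Ioc] at hc1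
    rw [isPrimePow_nat_iff] at hpp
    obtain ⟨p, k, hp, hk, hpk⟩ := hpp
    have hk2 : 2 ≤ k := by
      rcases Nat.lt_or_ge k 2 with h | h
      · have : k = 1 := by omega
        rw [this, pow_one] at hpk
        rw [← hpk] at hnp
        exact absurd hp hnp
      · exact h
    have hn1 : 1 ≤ n := by rw [← hpk]; exact Nat.one_le_pow _ _ hp.pos
    rw [mem_image]
    refine ⟨(p, k), ?_, ?_⟩
    · rw [mem_product, mem_range, mem_range]
      constructor
      · have h2 : p * p ≤ X := by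
          calc p * p = p ^ 2 := by ring
            _ ≤ p ^ k := Nat.pow_le_pow_right hp.pos hk2
            _ ≤ X := by rw [hpk]; exact hnX
        have := Nat.le_sqrt.2 h2
        show p < Nat.sqrt X + 1
        omega
      · have h2 : 2 ^ k ≤ X := (Nat.pow_le_pow_left hp.two_le k).trans (by rw [hpk]; exact hnX)
        have := Nat.le_log_of_pow_le (by norm_num) h2
        show k < Nat.log 2 X + 1
        omega
    · show (p ^ k - 1) % q + 1 = c
      rw [hpk]
      have h2 : n - 1 ≡ c - 1 [MOD q] := by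
        have h3 : (n - 1) + 1 ≡ (c - 1) + 1 [MOD q] := by
          rw [Nat.sub_add_cancel hn1, Nat.sub_add_cancel (by omega : 1 ≤ c)]
          exact hnc
        exact Nat.ModEq.add_right_cancel' 1 h3
      have h3 : (n - 1) % q = (c - 1) % q := h2
      rw [h3, Nat.mod_eq_of_lt (by omega)]
      omega
  refine (card_le_card h1).trans (card_image_le.trans ?_)
  rw [card_product, card_range, card_range]

/-- the bound for the range -/
noncomputable def Xp (Q : ℕ) : ℕ := ⌊(Q : ℝ) * Real.exp (Real.log Q / 4)⌋₊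

set_option maxHeartbeats 4000000 in
theorem few_pp (η : ℝ) (hη : 0 < η) : ∀ᶠ Q : ℕ in atTop, ∀ q ∈ Ioc Q (2 * Q), ((Npp (Xp Q) q).card : ℝ) ≤ η * Nat.totient q := by
  filter_upwards [tendsto_logN.eventually (as_pow_exp (3 / 8) (36 / η) (by norm_num) 2), tendsto_logN.eventually_ge_atTop 2,
    eventually_ge_atTop 2] with Q a1 a2 a3 q hq
  rw [mem_Ioc] at hq
  have hQ0 : (0 : ℝ) < Q := by exact_mod_cast (by omega : 0 < Q)
  have hq0 : (0 : ℝ) < q := by exact_mod_cast (by omega : 0 < q)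
  have hQq : (Q : ℝ) ≤ q := by exact_mod_cast hq.1.le
  have hqQ2 : (q : ℝ) ≤ 2 * Q := by exact_mod_cast hq.2
  obtain ⟨L, hL⟩ : ∃ L : ℝ, L = Real.log Q := ⟨_, rfl⟩
  have hQe : (Q : ℝ) = Real.exp L := by rw [hL, Real.exp_log hQ0]
  rw [← hL] at a1 a2
  have hL0 : 0 < L := by linarith
  have hlq1 : L ≤ Real.log q := by rw [hL]; exact Real.log_le_log hQ0 hQq
  have hlq2 : Real.log q ≤ 2 * L := by
    have h5 : Real.log q ≤ Real.log (2 * Q) := Real.log_le_log hq0 hqQ2
    rw [Real.log_mul (by norm_num) hQ0.ne', ← hL] at h5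
    have := Real.log_two_lt_d9
    linarith
  have hX : (Xp Q : ℝ) ≤ Real.exp (5 / 4 * L) := by
    unfold Xp
    refine (Nat.floor_le (by positivity)).trans (le_of_eq ?_)
    rw [← hL, hQe, ← Real.exp_add]
    congr 1
    ring
  have h1 : ((Nat.sqrt (Xp Q) : ℕ) : ℝ) + 1 ≤ 2 * Real.exp (5 / 8 * L) := by
    have h2 : ((Nat.sqrt (Xp Q) : ℕ) : ℝ) ≤ Real.sqrt (Xp Q) := Real.nat_sqrt_le_real_sqrt
    have h3 : Real.sqrt (Xp Q) ≤ Real.exp (5 / 8 * L) := by
      apply Real.sqrt_le_iff.2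
      refine ⟨(Real.exp_pos _).le, hX.trans (le_of_eq ?_)⟩
      rw [← Real.exp_nat_mul]
      congr 1
      push_cast
      ring
    have h4 : 1 ≤ Real.exp (5 / 8 * L) := Real.one_le_exp (by linarith)
    linarith
  have h2 : ((Nat.log 2 (Xp Q) : ℕ) : ℝ) + 1 ≤ 3 * L := by
    rcases Nat.eq_zero_or_pos (Xp Q) with h0 | h0
    · rw [h0, Nat.log_zero_right]
      push_cast
      linarith
    · have h3 : 2 ^ Nat.log 2 (Xp Q) ≤ Xp Q := Nat.pow_log_le_self 2 h0.ne'
      have h4 : (2 : ℝ) ^ Nat.log 2 (Xp Q) ≤ Real.exp (5 / 4 * L) := le_trans (by exact_mod_cast h3) hX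
      have h5 := Real.log_le_log (by positivity) h4
      rw [Real.log_exp, Real.log_pow] at h5
      have h6 := Real.log_two_gt_d9
      have h7 : ((Nat.log 2 (Xp Q) : ℕ) : ℝ) * 0.6 ≤ ((Nat.log 2 (Xp Q) : ℕ) : ℝ) * Real.log 2 := by gcongr; linarith
      linarith
  have h3 : ((Npp (Xp Q) q).card : ℝ) ≤ (2 * Real.exp (5 / 8 * L)) * (3 * L) := by
    have h4 : ((Npp (Xp Q) q).card : ℝ) ≤ (((Nat.sqrt (Xp Q) : ℕ) : ℝ) + 1) * (((Nat.log 2 (Xp Q) : ℕ) : ℝ) + 1) := by
      exact_mod_cast Npp_card (Xp Q) q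
    refine h4.trans ?_
    gcongr
  have h4 := tot_low (show 0 < q by omega) (by linarith)
  have h5 : q / (6 * L) ≤ (Nat.totient q : ℝ) := by
    rw [div_le_div_iff₀ (by linarith) hq0] at h4
    rw [div_le_iff₀ (by positivity)]
    have : (0 : ℝ) ≤ (Nat.totient q : ℝ) := Nat.cast_nonneg _
    nlinarith
  refine h3.trans (le_trans ?_ (mul_le_mul_of_nonneg_left h5 hη.le))
  have h6 : Real.exp L / (6 * L) ≤ q / (6 * L) := by
    rw [← hQe]
    gcongr
  refine le_trans ?_ (mul_le_mul_of_nonneg_left h6 hη.le)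
  rw [← mul_div_assoc, le_div_iff₀ (by positivity)]
  have h7 : Real.exp L = Real.exp (5 / 8 * L) * Real.exp (3 / 8 * L) := by
    rw [← Real.exp_add]; congr 1; ring
  rw [h7]
  rw [div_mul_eq_mul_div, div_le_iff₀ hη] at a1
  calc (2 * Real.exp (5 / 8 * L)) * (3 * L) * (6 * L) = Real.exp (5 / 8 * L) * (36 * L ^ 2) := by ring
    _ ≤ Real.exp (5 / 8 * L) * (Real.exp (3 / 8 * L) * η) := by gcongr
    _ = _ := by ring

/-- the tuples with a component in a small set -/
theorem tuples_few {K q : ℕ} (S : Finset ℕ) (η : ℝ) (hη : 0 ≤ η) (hS : (S.card : ℝ) ≤ η * Nat.totient q) :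
    (((Tp K q).filter (fun c => ∃ i, c i ∈ S)).card : ℝ) ≤ K * η * (Nat.totient q : ℝ) ^ K := by
  classical
  have h1 : (Tp K q).filter (fun c => ∃ i, c i ∈ S) ⊆
      (univ : Finset (Fin K)).biUnion (fun i => Fintype.piFinset (fun j => if j = i then S else Rd q)) := by
    intro c hc
    rw [mem_filter] at hc
    obtain ⟨hc1, i, hi⟩ := hc
    rw [mem_biUnion]
    refine ⟨i, mem_univ i, ?_⟩
    unfold Tp at hc1
    rw [Fintype.mem_piFinset] at hc1 ⊢
    intro j
    split_ifs with hj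
    · rw [hj]; exact hi
    · exact hc1 j
  have h2 := (card_le_card h1).trans card_biUnion_le
  have h3 : ∀ i : Fin K, ((Fintype.piFinset (fun j => if j = i then S else Rd q)).card : ℝ) ≤ η * (Nat.totient q : ℝ) ^ K := by
    intro i
    rw [Fintype.card_piFinset, ← mul_prod_erase univ _ (mem_univ i)]
    simp only [if_true]
    have h4 : ∏ j ∈ univ.erase i, (if j = i then S else Rd q).card = ∏ j ∈ (univ : Finset (Fin K)).erase i, Nat.totient q := by
      apply prod_congr rfl
      intro j hj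
      rw [if_neg (ne_of_mem_erase hj), Rd_card]
    rw [h4]
    push_cast
    have h5 : (Nat.totient q : ℝ) ^ K = (Nat.totient q : ℝ) * ∏ j ∈ (univ : Finset (Fin K)).erase i, (Nat.totient q : ℝ) := by
      rw [mul_prod_erase univ (fun _ => (Nat.totient q : ℝ)) (mem_univ i), prod_const, card_univ, Fintype.card_fin]
    rw [h5, ← mul_assoc]
    apply mul_le_mul_of_nonneg_right hS
    apply prod_nonneg
    intro j _
    positivity
  have h4 : (((Tp K q).filter (fun c => ∃ i, c i ∈ S)).card : ℝ) ≤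
      ∑ i : Fin K, ((Fintype.piFinset (fun j => if j = i then S else Rd q)).card : ℝ) := by exact_mod_cast h2
  refine h4.trans ((sum_le_sum fun i _ => h3 i).trans (le_of_eq ?_))
  rw [sum_const, card_univ, Fintype.card_fin, nsmul_eq_mul]
  ring

end Pool.Agent.H527.G
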