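import Mathlib
import Pool.Agent.H527.G.G13

/-! The joint irregularities, final form. -/

set_option autoImplicit false

namespace Pool.Agent.H527.G

open Finset Filter Topology Pool.Agent.H527.AP Pool.Agent.H527.S Pool.Agent.H527.M Pool.Agent.H527.N

/-- the tuple `c` shows the matrix of signs `s` -/
def Fits {J K : ℕ} (B : Fin J → ℝ) (ε δ Λ : ℝ) (q : ℕ) (c : Fin K → ℕ) (s : Fin K → Fin J → Bool) : Prop :=
  ∃ x : ℕ, q ≤ x ∧ (x : ℝ) ≤ q * Real.exp ((Real.log q) ^ ε) ∧ ∀ i j, ∀ h : ℕ,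
    q * (Real.log q) ^ B j ≤ (h : ℝ) → (h : ℝ) ≤ Λ * (q * (Real.log q) ^ B j) →
      (s i j = true → (1 + δ) * ((h : ℝ) / Nat.totient q) ≤ psiN (x + h) q (c i) - psiN x q (c i)) ∧
      (s i j = false → psiN (x + h) q (c i) - psiN x q (c i) ≤ (1 - δ) * ((h : ℝ) / Nat.totient q))

theorem size_ev (M b v' ρ : ℝ) (hv' : v' < 1) (hρ : 0 < ρ) : ∀ᶠ L : ℝ in atTop, Real.exp (L ^ v') + M * L ^ b ≤ Real.exp (ρ * L) := by
  obtain ⟨n, hn⟩ := exists_nat_ge b
  filter_upwards [as_pow_pow v' 1 (2 / ρ) hv', eventually_ge_atTop (2 * Real.log 2 / ρ), as_pow_exp ρ (2 * |M|) hρ n,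
    eventually_ge_atTop 1] with L h1 h2 h3 h4
  rw [Real.rpow_one, div_mul_eq_mul_div, div_le_iff₀ hρ] at h1
  rw [div_le_iff₀ hρ] at h2
  have h5 : 2 * Real.exp (L ^ v') ≤ Real.exp (ρ * L) := by
    have : 2 * Real.exp (L ^ v') = Real.exp (Real.log 2 + L ^ v') := by
      rw [Real.exp_add, Real.exp_log (by norm_num)]
    rw [this]
    apply Real.exp_le_exp.2
    linarith
  have h6 : M * L ^ b ≤ |M| * L ^ n := by
    have h7 : L ^ b ≤ L ^ n := by
      rw [← Real.rpow_natCast]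
      exact Real.rpow_le_rpow_of_exponent_le h4 hn
    calc M * L ^ b ≤ |M| * L ^ b := mul_le_mul_of_nonneg_right (le_abs_self M) (Real.rpow_nonneg (by linarith) _)
      _ ≤ _ := by gcongr
  linarith

theorem Fits.mono {J K : ℕ} {B : Fin J → ℝ} {ε δ δ' Λ : ℝ} {q : ℕ} {c : Fin K → ℕ} {s : Fin K → Fin J → Bool}
    (h : Fits B ε δ Λ q c s) (hδ : δ' ≤ δ) : Fits B ε δ' Λ q c s := by
  obtain ⟨x, h1, h2, h3⟩ := h
  refine ⟨x, h1, h2, fun i j h a1 a2 => ?_⟩
  have h4 := h3 i j h a1 a2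
  have h5 : 0 ≤ (h : ℝ) / Nat.totient q := by positivity
  refine ⟨fun hs => le_trans ?_ (h4.1 hs), fun hs => (h4.2 hs).trans ?_⟩
  · exact mul_le_mul_of_nonneg_right (by linarith) h5
  · exact mul_le_mul_of_nonneg_right (by linarith) h5

open Classical in
set_option maxHeartbeats 4000000 in
theorem one_matrix {J K : ℕ} (B : Fin J → ℝ) (hB1 : ∀ j, 1 < B j) (hB : StrictMono B) (ε : ℝ) (hε : 0 < ε)
    (s : Fin K → Fin J → Bool) : ∃ d : ℝ, 0 < d ∧ ∀ Λ κ : ℝ, 0 < κ → ∀ᶠ Q : ℕ in atTop,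
      (((Ioc Q (2 * Q)).filter (fun q : ℕ => ¬ (((Tp K q).filter (fun c => ¬ Fits B ε d Λ q c s)).card : ℝ) ≤
        κ * (Nat.totient q : ℝ) ^ K)).card : ℝ) ≤ κ * Q := by
  obtain ⟨v', hv'⟩ : ∃ v' : ℝ, v' = min ε (1 / 40) := ⟨_, rfl⟩
  have hv'0 : 0 < v' := by rw [hv']; exact lt_min hε (by norm_num)
  have hv'1 : v' ≤ 1 / 40 := by rw [hv']; exact min_le_right _ _
  have hv'ε : v' ≤ ε := by rw [hv']; exact min_le_left _ _
  obtain ⟨δ, hδ, hδ1, hmat⟩ := matrix B hB1 hB (fun i j => if s i j then 1 else 0) v' hv'0 hv'1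
  refine ⟨δ / 4, by linarith, fun Λ κ hκ => ?_⟩
  choose N hN using fun i => transferW B hB1 (s i) δ Λ v' hδ hδ1 hv'1
  obtain ⟨C, hC⟩ : ∃ C : Finset ℝ, C = (univ : Finset (Fin K)).biUnion (fun i => Cs (δ / 32) (N i)) := ⟨_, rfl⟩
  have hCpos : ∀ c ∈ C, 0 < c := by
    intro c hc
    rw [hC, mem_biUnion] at hc
    obtain ⟨i, _, hi⟩ := hc
    exact Cs_pos (by linarith) (N i) c hi
  have h1 := hmat (κ / 2) (by linarith) C hCpos
  have h2 := eventually_all.2 hN
  obtain ⟨Bm, hBm, hBm1⟩ : ∃ Bm : ℝ, (∀ j, B j ≤ Bm) ∧ 1 ≤ Bm := by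
    refine ⟨∑ j, B j + 1, fun j => ?_, ?_⟩
    · have := single_le_sum (f := B) (fun j _ => by linarith [hB1 j]) (mem_univ j)
      linarith
    · have : 0 ≤ ∑ j, B j := sum_nonneg fun j _ => by linarith [hB1 j]
      linarith
  obtain ⟨M, hM⟩ : ∃ M : ℝ, M = max 1 Λ * 2 * 2 ^ Bm := ⟨_, rfl⟩
  filter_upwards [h1, h2, few_pp (κ / (2 * (K + 1))) (by positivity),
    tendsto_logN.eventually (size_ev M Bm v' (δ / 8) (by linarith) (by linarith)),
    Tf_ev v' (v' / 2) 0 0 hv'0 (by linarith), tendsto_logN.eventually_ge_atTop 2, eventually_ge_atTop 2] with Q g1 g2 g3 g4 g5 g6 g7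
  have hQ0 : (0 : ℝ) < Q := by exact_mod_cast (by omega : 0 < Q)
  obtain ⟨R, hR⟩ : ∃ R, R = Q * Tf v' Q := ⟨_, rfl⟩
  have hRle : (R : ℝ) ≤ Q * Real.exp ((Real.log Q) ^ v') := by
    rw [hR]; push_cast
    have := g5.2.1
    gcongr
  rw [← hR] at g1
  refine le_trans ?_ (le_trans g1 (by nlinarith))
  have hsub : (Ioc Q (2 * Q)).filter (fun q : ℕ => ¬ (((Tp K q).filter (fun c => ¬ Fits B ε (δ / 4) Λ q c s)).card : ℝ) ≤
        κ * (Nat.totient q : ℝ) ^ K) ⊆ (Ioc Q (2 * Q)).filter (fun q => ¬ (((Tp K q).filter (fun c => ¬ ∃ u, u < R / q ∧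
        ∀ i, Prof B (fun j => if s i j then 1 else 0) δ C Q q (c i + u * q))).card : ℝ) ≤ κ / 2 * (Nat.totient q : ℝ) ^ K) := by
    intro q hq
    rw [mem_filter] at hq ⊢
    refine ⟨hq.1, fun hgood => hq.2 ?_⟩
    have hqI := mem_Ioc.1 hq.1
    have hq0n : 0 < q := by omega
    have hq0 : (0 : ℝ) < q := by exact_mod_cast hq0n
    have hQq : (Q : ℝ) ≤ q := by exact_mod_cast hqI.1.le
    have hqQ2 : (q : ℝ) ≤ 2 * Q := by exact_mod_cast hqI.2
    obtain ⟨L, hL⟩ : ∃ L : ℝ, L = Real.log Q := ⟨_, rfl⟩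
    rw [← hL] at g4 g6 hRle
    have hL0 : 0 < L := by linarith
    have hlq1 : L ≤ Real.log q := by rw [hL]; exact Real.log_le_log hQ0 hQq
    have hlq2 : Real.log q ≤ 2 * L := by
      have h5 : Real.log q ≤ Real.log (2 * Q) := Real.log_le_log hq0 hqQ2
      rw [Real.log_mul (by norm_num) hQ0.ne', ← hL] at h5
      have := Real.log_two_lt_d9
      linarith
    have hfew := tuples_few (K := K) (Npp (Xp Q) q) (κ / (2 * (K + 1))) (by positivity) (g3 q hq.1)
    have hsub2 : (Tp K q).filter (fun c => ¬ Fits B ε (δ / 4) Λ q c s) ⊆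
        (Tp K q).filter (fun c => ¬ ∃ u, u < R / q ∧ ∀ i, Prof B (fun j => if s i j then 1 else 0) δ C Q q (c i + u * q)) ∪
        (Tp K q).filter (fun c => ∃ i, c i ∈ Npp (Xp Q) q) := by
      intro c hc
      rw [mem_filter] at hc
      rw [mem_union, mem_filter, mem_filter]
      by_contra hcon
      rw [not_or] at hcon
      obtain ⟨hc1, hc2⟩ := hcon
      apply hc.2
      have hu : ∃ u, u < R / q ∧ ∀ i, Prof B (fun j => if s i j then 1 else 0) δ C Q q (c i + u * q) := by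
        by_contra h
        exact hc1 ⟨hc.1, h⟩
      have hnp : ∀ i, c i ∉ Npp (Xp Q) q := fun i hi => hc2 ⟨hc.1, i, hi⟩
      obtain ⟨u, hu1, hu2⟩ := hu
      have hci : ∀ i, c i ∈ Rd q := by
        have h2 := hc.1
        unfold Tp at h2
        rw [Fintype.mem_piFinset] at h2
        exact h2
      have hxR : (u + 1) * q ≤ R := by
        have h2 : (u + 1) * q ≤ (R / q) * q := Nat.mul_le_mul_right q hu1
        exact h2.trans (Nat.div_mul_le_self _ _)
      have hxr : (((u + 1) * q : ℕ) : ℝ) ≤ Q * Real.exp (L ^ v') := le_trans (by exact_mod_cast hxR) hRle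
      have hqx : q ≤ (u + 1) * q := by
        have h2 : 1 * q ≤ (u + 1) * q := Nat.mul_le_mul_right q (by omega)
        omega
      refine ⟨(u + 1) * q, hqx, ?_, ?_⟩
      · refine hxr.trans ?_
        have h2 : L ^ v' ≤ (Real.log q) ^ ε := by
          calc L ^ v' ≤ (Real.log q) ^ v' := Real.rpow_le_rpow hL0.le hlq1 hv'0.le
            _ ≤ (Real.log q) ^ ε := Real.rpow_le_rpow_of_exponent_le (by linarith) hv'ε
        have h3 := Real.exp_le_exp.2 h2
        gcongr
      · intro i j h hh1 hh2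
        have hcr := hci i
        unfold Rd at hcr
        rw [mem_filter, mem_Ioc] at hcr
        have hpr : Prof B (fun j => if s i j then 1 else 0) δ (Cs (δ / 32) (N i)) Q q (c i + u * q) := by
          intro j c' hc'
          exact hu2 i j c' (by rw [hC, mem_biUnion]; exact ⟨i, mem_univ i, hc'⟩)
        rw [hL] at hxr
        have h3 := g2 i q hq.1 (c i) u hcr.1.1 hcr.1.2 hxr hpr j h hh1 hh2
        rw [← hL] at hxr
        -- the size of the window
        obtain ⟨x, hx⟩ : ∃ x : ℕ, x = (u + 1) * q := ⟨_, rfl⟩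
        rw [← hx] at h3 hxr hqx hxR ⊢
        have hh3 : (h : ℝ) ≤ Q * (M * L ^ Bm) := by
          have hLq : (Real.log q) ^ B j ≤ 2 ^ Bm * L ^ Bm := by
            have hB0 : 0 < B j := by linarith [hB1 j]
            calc (Real.log q) ^ B j ≤ (Real.log q) ^ Bm := Real.rpow_le_rpow_of_exponent_le (by linarith) (hBm j)
              _ ≤ (2 * L) ^ Bm := Real.rpow_le_rpow (by linarith) hlq2 (by linarith)
              _ = 2 ^ Bm * L ^ Bm := Real.mul_rpow (by norm_num) hL0.le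
          have h4 : 0 ≤ (Real.log q) ^ B j := Real.rpow_nonneg (by linarith) _
          calc (h : ℝ) ≤ Λ * (q * (Real.log q) ^ B j) := hh2
            _ ≤ max 1 Λ * (q * (Real.log q) ^ B j) := by
                have := le_max_right 1 Λ
                gcongr
            _ ≤ max 1 Λ * ((2 * Q) * (2 ^ Bm * L ^ Bm)) := by gcongr
            _ = Q * (M * L ^ Bm) := by rw [hM]; ring
        have hxh : ((x + h : ℕ) : ℝ) ≤ Q * Real.exp (δ / 8 * L) := by
          push_cast
          calc (x : ℝ) + h ≤ Q * Real.exp (L ^ v') + Q * (M * L ^ Bm) := by linarith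
            _ = Q * (Real.exp (L ^ v') + M * L ^ Bm) := by ring
            _ ≤ _ := by gcongr
        have hx1 : 1 ≤ x := by omega
        have hQx : (Q : ℝ) ≤ x := hQq.trans (by exact_mod_cast hqx)
        have hlx : L ≤ Real.log x := by rw [hL]; exact Real.log_le_log hQ0 hQx
        have hlx0 : 0 < Real.log x := by linarith
        have hlxh : Real.log ((x + h : ℕ) : ℝ) ≤ (1 + δ / 8) * Real.log x := by
          have h4 : (0 : ℝ) < ((x + h : ℕ) : ℝ) := by exact_mod_cast (by omega : 0 < x + h)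
          have h5 := Real.log_le_log h4 hxh
          rw [Real.log_mul hQ0.ne' (Real.exp_pos _).ne', Real.log_exp, ← hL] at h5
          have h6 : (1 + δ / 8) * L ≤ (1 + δ / 8) * Real.log x := by gcongr
          linarith
        have hφ : (0 : ℝ) < (Nat.totient q : ℝ) := by exact_mod_cast Nat.totient_pos.2 hq0n
        constructor
        · intro hs
          have h4 := h3.1 hs
          refine le_trans ?_ (psiN_ge hx1)
          calc (1 + δ / 4) * ((h : ℝ) / Nat.totient q) ≤ (1 + δ / 2) * ((h : ℝ) / Nat.totient q) := by gcongr; linarith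
            _ = Real.log x * ((1 + δ / 2) * ((h : ℝ) / (Nat.totient q * Real.log x))) := by field_simp
            _ ≤ _ := by gcongr
        · intro hs
          have h4 := h3.2 hs
          have h5 : psiN (x + h) q (c i) - psiN x q (c i) ≤ Real.log ((x + h : ℕ) : ℝ) * (wc x h q (c i) : ℝ) := by
            apply psiN_le
            intro n hn1 hn2 hn3 hn4
            by_contra hn5
            apply hnp i
            unfold Npp
            rw [mem_filter]
            refine ⟨hci i, n, ?_, hn3, hn4, hn5⟩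
            unfold Xp
            apply Nat.le_floor
            have h6 : (n : ℝ) ≤ ((x + h : ℕ) : ℝ) := by exact_mod_cast hn2
            refine h6.trans (hxh.trans ?_)
            have h7 : Real.exp (δ / 8 * L) ≤ Real.exp (Real.log Q / 4) := by
              apply Real.exp_le_exp.2
              rw [← hL]
              have : δ / 8 * L ≤ 1 / 16 * L := mul_le_mul_of_nonneg_right (by linarith) hL0.le
              linarith
            gcongr
          refine h5.trans ?_
          have hwn : (0 : ℝ) ≤ (wc x h q (c i) : ℝ) := Nat.cast_nonneg _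
          have h6 : 0 ≤ (h : ℝ) / Nat.totient q := by positivity
          calc Real.log ((x + h : ℕ) : ℝ) * (wc x h q (c i) : ℝ) ≤ ((1 + δ / 8) * Real.log x) * (wc x h q (c i) : ℝ) := by gcongr
            _ ≤ ((1 + δ / 8) * Real.log x) * ((1 - δ / 2) * ((h : ℝ) / (Nat.totient q * Real.log x))) := by gcongr
            _ = ((1 + δ / 8) * (1 - δ / 2)) * ((h : ℝ) / Nat.totient q) := by field_simp
            _ ≤ _ := by
                apply mul_le_mul_of_nonneg_right _ h6
                nlinarith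
    have h3 := (card_le_card hsub2).trans (card_union_le _ _)
    have h4 : (((Tp K q).filter (fun c => ¬ Fits B ε (δ / 4) Λ q c s)).card : ℝ) ≤
        (((Tp K q).filter (fun c => ¬ ∃ u, u < R / q ∧ ∀ i, Prof B (fun j => if s i j then 1 else 0) δ C Q q (c i + u * q))).card : ℝ) +
        (((Tp K q).filter (fun c => ∃ i, c i ∈ Npp (Xp Q) q)).card : ℝ) := by exact_mod_cast h3
    refine h4.trans ?_
    have h5 : (K : ℝ) * (κ / (2 * (K + 1))) ≤ κ / 2 := by
      have e1 : (K : ℝ) * (κ / (2 * (K + 1))) = κ / 2 * (K / (K + 1)) := by field_simp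
      have e2 : (K : ℝ) / (K + 1) ≤ 1 := by rw [div_le_one (by positivity)]; linarith
      rw [e1]
      calc κ / 2 * (K / (K + 1)) ≤ κ / 2 * 1 := by gcongr
        _ = κ / 2 := mul_one _
    have h6 : (0 : ℝ) ≤ (Nat.totient q : ℝ) ^ K := by positivity
    have h7 := mul_le_mul_of_nonneg_right h5 h6
    have hfew' : (((Tp K q).filter (fun c => ∃ i, c i ∈ Npp (Xp Q) q)).card : ℝ) ≤ K * (κ / (2 * (K + 1))) * (Nat.totient q : ℝ) ^ K := by
      refine le_trans (le_of_eq ?_) hfew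
      congr 2
    linarith
  exact_mod_cast card_le_card hsub

open Classical in
/-- **the joint irregularities** -/
theorem joint_signs {J K : ℕ} (B : Fin J → ℝ) (hB1 : ∀ j, 1 < B j) (hB : StrictMono B) (ε : ℝ) (hε : 0 < ε) :
    ∃ δ : ℝ, 0 < δ ∧ ∀ Λ η : ℝ, 0 < η → Tendsto (fun X : ℕ => (((Icc 1 X).filter (fun q : ℕ =>
      ¬ (((Tp K q).filter (fun c => ¬ ∀ s : Fin K → Fin J → Bool, Fits B ε δ Λ q c s)).card : ℝ) ≤
        η * (Nat.totient q : ℝ) ^ K)).card : ℝ) / X) atTop (𝓝 0) := by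
  choose d hd0 hd using fun s : Fin K → Fin J → Bool => one_matrix B hB1 hB ε hε s
  obtain ⟨δ, hδ, hδ'⟩ := fin_gap (Set.univ : Set (Fin K → Fin J → Bool)) Set.finite_univ d (fun s _ => hd0 s)
  refine ⟨δ, hδ, fun Λ η hη => ?_⟩
  apply dyadic
  intro κ hκ
  obtain ⟨n, hn⟩ : ∃ n : ℝ, n = (Fintype.card (Fin K → Fin J → Bool) : ℝ) := ⟨_, rfl⟩
  have hn0 : 0 < n := by rw [hn]; exact_mod_cast Fintype.card_pos
  obtain ⟨κ', hκ'⟩ : ∃ κ' : ℝ, κ' = min (κ / n) (η / n) := ⟨_, rfl⟩
  have hκ'0 : 0 < κ' := by rw [hκ']; exact lt_min (by positivity) (by positivity)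
  have hκ'1 : n * κ' ≤ κ := by
    have h1 : κ' ≤ κ / n := by rw [hκ']; exact min_le_left _ _
    calc n * κ' ≤ n * (κ / n) := by gcongr
      _ = κ := by field_simp
  have hκ'2 : n * κ' ≤ η := by
    have h1 : κ' ≤ η / n := by rw [hκ']; exact min_le_right _ _
    calc n * κ' ≤ n * (η / n) := by gcongr
      _ = η := by field_simp
  have hall := eventually_all.2 (fun s => hd s Λ κ' hκ'0)
  filter_upwards [hall] with Q h1
  have h2 : (Ioc Q (2 * Q)).filter (fun q : ℕ => ¬ (((Tp K q).filter (fun c => ¬ ∀ s : Fin K → Fin J → Bool, Fits B ε δ Λ q c s)).card : ℝ) ≤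
        η * (Nat.totient q : ℝ) ^ K) ⊆
      (univ : Finset (Fin K → Fin J → Bool)).biUnion (fun s => (Ioc Q (2 * Q)).filter (fun q : ℕ =>
        ¬ (((Tp K q).filter (fun c => ¬ Fits B ε (d s) Λ q c s)).card : ℝ) ≤ κ' * (Nat.totient q : ℝ) ^ K)) := by
    intro q hq
    rw [mem_filter] at hq
    rw [mem_biUnion]
    by_contra hcon
    apply hq.2
    have h3 : ∀ s, (((Tp K q).filter (fun c => ¬ Fits B ε (d s) Λ q c s)).card : ℝ) ≤ κ' * (Nat.totient q : ℝ) ^ K := by
      intro s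
      by_contra h
      exact hcon ⟨s, mem_univ s, mem_filter.2 ⟨hq.1, h⟩⟩
    have h4 : (Tp K q).filter (fun c => ¬ ∀ s : Fin K → Fin J → Bool, Fits B ε δ Λ q c s) ⊆
        (univ : Finset (Fin K → Fin J → Bool)).biUnion (fun s => (Tp K q).filter (fun c => ¬ Fits B ε (d s) Λ q c s)) := by
      intro c hc
      rw [mem_filter] at hc
      rw [mem_biUnion]
      by_contra hcon2
      apply hc.2
      intro s
      have h5 : Fits B ε (d s) Λ q c s := by
        by_contra h6
        exact hcon2 ⟨s, mem_univ s, mem_filter.2 ⟨hc.1, h6⟩⟩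
      exact h5.mono (hδ' s (Set.mem_univ s))
    have h5 := (card_le_card h4).trans card_biUnion_le
    have h6 : (((Tp K q).filter (fun c => ¬ ∀ s : Fin K → Fin J → Bool, Fits B ε δ Λ q c s)).card : ℝ) ≤
        ∑ s : Fin K → Fin J → Bool, (((Tp K q).filter (fun c => ¬ Fits B ε (d s) Λ q c s)).card : ℝ) := by exact_mod_cast h5
    refine h6.trans ((sum_le_sum fun s _ => h3 s).trans ?_)
    rw [sum_const, nsmul_eq_mul, card_univ, ← hn, ← mul_assoc]
    exact mul_le_mul_of_nonneg_right hκ'2 (by positivity)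
  have h3 := (card_le_card h2).trans card_biUnion_le
  have h4 : (((Ioc Q (2 * Q)).filter (fun q : ℕ => ¬ (((Tp K q).filter (fun c => ¬ ∀ s : Fin K → Fin J → Bool, Fits B ε δ Λ q c s)).card : ℝ) ≤
        η * (Nat.totient q : ℝ) ^ K)).card : ℝ) ≤
      ∑ s : Fin K → Fin J → Bool, (((Ioc Q (2 * Q)).filter (fun q : ℕ =>
        ¬ (((Tp K q).filter (fun c => ¬ Fits B ε (d s) Λ q c s)).card : ℝ) ≤ κ' * (Nat.totient q : ℝ) ^ K)).card : ℝ) := by
    exact_mod_cast h3
  refine h4.trans ((sum_le_sum fun s _ => h1 s).trans ?_)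
  rw [sum_const, nsmul_eq_mul, card_univ, ← hn, ← mul_assoc]
  exact mul_le_mul_of_nonneg_right hκ'1 (Nat.cast_nonneg _)

end Pool.Agent.H527.G
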