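import Mathlib
import Pool.Agent.H527.G.G14
import Pool.Agent.H527.N.N33

/-! One class with a prescribed ratio: the bad rows. -/

set_option autoImplicit false

namespace Pool.Agent.H527.G

open Finset Filter Topology Pool.Agent.H527.AP Pool.Agent.H527.S Pool.Agent.H527.M Pool.Agent.H527.N

/-- the row has the ratio `lam`, up to `κ'` -/
def Rat (b lam κ' : ℝ) (C : Finset ℝ) (Q q a : ℕ) : Prop :=
  ∀ c ∈ C, |(Nn (Ysc c b Q) q a : ℝ) - lam * ((Ysc c b Q : ℝ) * ((q : ℝ) / (Nat.totient q * Real.log Q)))| ≤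
      κ' * ((Ysc c b Q : ℝ) * ((q : ℝ) / (Nat.totient q * Real.log Q)))

/-- the data of a class -/
def PD.okR (D : PD 1) (b sg : ℝ) : Prop :=
  (sg = 1 ∧ D.ok (fun _ => b) (fun _ => 1)) ∨ (sg = -1 ∧ D.ok (fun _ => b) (fun _ => 0))

open Classical in
set_option maxHeartbeats 4000000 in
theorem one_class3 (b : ℝ) {v : ℝ} {u : Fin 1 × Bool → ℝ} {k : Fin 1 → Fin 1 × Bool → ℕ} {par0 : ℕ}
    {g z c1 β δ1 : ℝ} (H : Pf (fun _ : Fin 1 => b) (fun _ : Fin 1 => par0) v u k g z c1 β δ1)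
    (sg : ℝ) (hsg : (sg = 1 ∧ par0 = 1) ∨ (sg = -1 ∧ par0 = 0)) (v' : ℝ) (hv' : v < v') (hv1' : v' ≤ 1 / 40)
    (lam : ℝ) (hlam1 : sg * 1 ≤ sg * lam) (hlam2 : sg * lam ≤ sg * 1 + δ1) (κ κ' : ℝ) (hκ : 0 < κ) (hκ' : 0 < κ') (hκ'1 : κ' ≤ 1)
    (C : Finset ℝ) (hCn : C.Nonempty) (hC : ∀ c ∈ C, 0 < c) : ∀ᶠ Q : ℕ in atTop, ∃ P0 : Finset ℕ, P0 ⊆ win c1 v Q ∧
      ∃ Bd : ℕ → Finset ℕ, (((Ioc Q (2 * Q)).filter (fun q => ¬ (((∏ p ∈ Pq P0 q, p : ℕ) : ℝ) * ((Bd q).card : ℝ) ≤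
        κ * (((Q * Tf v' Q : ℕ) : ℝ) * ((Nat.totient q : ℝ) / q)) ∧
        ∀ a ∈ rows (∏ p ∈ Pq P0 q, p) q 0 (Q * Tf v' Q), a ∉ Bd q → Rat b lam κ' C Q q a))).card : ℝ) ≤ κ * Q := by
  have hδ := H.hδ
  have hδ1 := H.hδ1
  have hv0 := H.hv
  have hsg' : sg = 1 ∨ sg = -1 := hsg.imp (fun h => h.1) (fun h => h.1)
  have hlam : |lam - 1| ≤ 1 := by
    rw [abs_le]
    rcases hsg' with h | h <;> rw [h] at hlam1 hlam2 <;> constructor <;> linarith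
  obtain ⟨δ', hδ'⟩ : ∃ δ' : ℝ, δ' = min δ1 (κ' / 2) := ⟨_, rfl⟩
  have hδ'0 : 0 < δ' := by rw [hδ']; exact lt_min hδ (by linarith)
  have hδ'1 : δ' ≤ δ1 := by rw [hδ']; exact min_le_left _ _
  have hδ'2 : δ' ≤ κ' / 2 := by rw [hδ']; exact min_le_right _ _
  have H' := H.shrink hδ'0 hδ'1
  obtain ⟨η1, A, hη1, hA, hF⟩ := H'.ev C hC
  obtain ⟨η0, hη0⟩ : ∃ η0 : ℝ, η0 = min η1 (κ' / 64) := ⟨_, rfl⟩
  have hη00 : 0 < η0 := by rw [hη0]; exact lt_min hη1 (by linarith)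
  have hη01 : η0 ≤ η1 := by rw [hη0]; exact min_le_left _ _
  have hη02 : η0 ≤ κ' / 64 := by rw [hη0]; exact min_le_right _ _
  obtain ⟨N, hN⟩ : ∃ N : ℕ, N = C.card := ⟨_, rfl⟩
  obtain ⟨κ1, hκ1⟩ : ∃ κ1 : ℝ, κ1 = κ / (2 * (N + 1)) := ⟨_, rfl⟩
  have hN0 : (0 : ℝ) ≤ N := Nat.cast_nonneg _
  have hκ10 : 0 < κ1 := by rw [hκ1]; positivity
  have hκ1a : κ1 * (N + 1) ≤ κ / 2 := by
    rw [hκ1]
    apply le_of_eq
    field_simp
  obtain ⟨e, he⟩ : ∃ e : ℝ, e = min (1 / 3) ((κ' / 16) ^ 2 * κ1 ^ 3 / 14400) := ⟨_, rfl⟩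
  have he0 : 0 < e := by rw [he]; exact lt_min (by norm_num) (by positivity)
  have he3 : e ≤ 1 / 3 := by rw [he]; exact min_le_left _ _
  have he4 : 14400 * e ≤ (κ' / 16) ^ 2 * κ1 ^ 3 := by
    have : e ≤ (κ' / 16) ^ 2 * κ1 ^ 3 / 14400 := by rw [he]; exact min_le_right _ _
    linarith
  obtain ⟨D, N₀, hvar⟩ := exists_varR c1 v v' A β (Real.exp (Fintype.card (Fin 1 × Bool))) e H.hc1 H.c1v H.hv1
    (by linarith) hv1' H.hβ hA he0 he3
  have t1 : Tendsto (fun Q : ℕ => (Real.log Q) ^ (-c1)) atTop (𝓝 0) := (tendsto_rpow_neg_atTop H.hc1).comp tendsto_logN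
  have e1 : ∀ᶠ Q : ℕ in atTop, (Real.log Q) ^ (-c1) < κ / 2 * η0 := t1.eventually (gt_mem_nhds (by positivity))
  have e1' : ∀ᶠ Q : ℕ in atTop, (Real.log Q) ^ (-c1) < κ' / 64 := t1.eventually (gt_mem_nhds (by positivity))
  filter_upwards [hF, hvar, e1, e1', Tf_ev v' v A 0 (by linarith) hv', eventually_ge_atTop 2] with Q F0 hvQ f1 f3 hT hQ2
  have F' := F0.eta hη01
  have F := F'.grow hδ'1
  clear F0 hF hvar e1 e1' t1
  obtain ⟨ps, f, hV⟩ := hvQ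
  obtain ⟨g1, g2, g3, g4, g5⟩ := H.P0 F ps
  have hL := F.hL
  have hLc : 0 ≤ (Real.log Q) ^ (-c1) := Real.rpow_nonneg (by linarith) _
  have hQ0 : (0 : ℝ) < Q := by exact_mod_cast (by omega : 0 < Q)
  obtain ⟨c0, hc0⟩ := hCn
  have hY0 : 1 ≤ Ysc c0 b Q := by
    have h1 := F.y3 0 c0 hc0
    have h2 : 1 ≤ (Real.log Q) ^ (1 + β) := Real.one_le_rpow (by linarith) (by linarith [H.hβ])
    have h3 : (1 : ℝ) ≤ (Ysc c0 b Q : ℝ) := h2.trans h1
    exact_mod_cast h3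
  -- the full set
  have hPq1 : Pq (PU (Wn u z Q ps)) 1 = PU (Wn u z Q ps) := by
    unfold Pq
    apply filter_true_of_mem
    intro p hp hd
    exact (g4 p hp).one_lt.ne' (Nat.dvd_one.1 hd)
  have hdev : sg * lam ≤ sg * Rr (PU (Wn u z Q ps)) (Ysc c0 b Q) := by
    have h1 := H.dev_q F ps 1 (by
      have h2 : (PU (Wn u z Q ps)).filter (fun p => p ∣ 1) = ∅ := by
        rw [filter_eq_empty_iff]
        intro p hp hd
        exact (g4 p hp).one_lt.ne' (Nat.dvd_one.1 hd)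
      rw [h2, sum_empty]
      exact hη00.le) 0 hc0
    rw [hPq1] at h1
    have hPr1 : ∏ p ∈ PU (Wn u z Q ps), (1 - 1 / (p : ℝ)) ≤ 1 := by
      apply prod_le_one
      · intro p hp
        have h2 : (1 : ℝ) ≤ p := by exact_mod_cast (g4 p hp).one_lt.le
        have h3 : 1 / (p : ℝ) ≤ 1 := by rw [div_le_one (by linarith)]; exact h2
        linarith
      · intro p _
        have : (0 : ℝ) ≤ 1 / (p : ℝ) := by positivity
        linarith
    have hPr0 := prod_ge (PU (Wn u z Q ps)) (fun p hp => by exact_mod_cast (g4 p hp).one_lt.le)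
    unfold Rr
    obtain ⟨Pr, hPr⟩ : ∃ Pr : ℝ, Pr = ∏ p ∈ PU (Wn u z Q ps), (1 - 1 / (p : ℝ)) := ⟨_, rfl⟩
    obtain ⟨Ev, hEv⟩ : ∃ Ev : ℝ, Ev = EY (PU (Wn u z Q ps)) (Ysc c0 b Q) := ⟨_, rfl⟩
    rw [← hPr] at h1 hPr0 hPr1 ⊢
    rw [← hEv] at h1 ⊢
    have hPr' : 0 < Pr := by linarith
    have h4 : (-1 : ℝ) ^ (∑ i, k 0 i) = -sg := by
      have h5 := H.hpar 0
      rcases hsg with ⟨h6, h7⟩ | ⟨h6, h7⟩
      · rw [h6]
        apply Odd.neg_one_pow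
        rw [Nat.odd_iff]; simp only [h7] at h5; exact h5
      · rw [h6, neg_neg]
        apply Even.neg_one_pow
        rw [Nat.even_iff]; simp only [h7] at h5; exact h5
    rw [h4] at h1
    have h5 : sg * 1 + δ1 ≤ sg * (Ev / Pr) := by
      have e3 : sg * (Ev / Pr) = (sg * Ev) / Pr := by ring
      rw [e3, le_div_iff₀ hPr']
      have h6 : δ1 * Pr ≤ δ1 := mul_le_of_le_one_right hδ.le hPr1
      have h7 : -sg * (Pr - Ev) = sg * Ev - sg * Pr := by ring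
      rw [h7] at h1
      have h8 : (sg * 1 + δ1) * Pr = sg * Pr + δ1 * Pr := by ring
      rw [h8]
      linarith
    linarith
  obtain ⟨P', hP', hRP'⟩ := Rr_ivt (Ysc c0 b Q) hY0 ((Real.log Q) ^ (-c1)) lam hLc sg hsg' hlam1 _ g4 g3 g5 hdev
  have p1 : P' ⊆ win c1 v Q := hP'.trans g1
  have p2 : ps ∉ P' := fun h => g2 (hP' h)
  have p3 : ∑ p ∈ P', 1 / (p : ℝ) ≤ 1 / 2 :=
    le_trans (sum_le_sum_of_subset_of_nonneg hP' fun p _ _ => by positivity) g3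
  have p4 : ∀ p ∈ P', p.Prime := fun p hp => g4 p (hP' hp)
  obtain ⟨T, hTd⟩ : ∃ T, T = Tf v' Q := ⟨_, rfl⟩
  rw [← hTd] at hT ⊢
  obtain ⟨hT1, hT2, hT3, _⟩ := hT
  obtain ⟨R, hR⟩ : ∃ R, R = Q * T := ⟨_, rfl⟩
  rw [← hR]
  obtain ⟨Ys, hYs⟩ : ∃ Ys, Ys = C.image (fun c => Ysc c b Q) := ⟨_, rfl⟩
  have hYscard : (Ys.card : ℝ) ≤ N := by
    rw [hYs, hN]; exact_mod_cast card_image_le
  have hYsm : ∀ c ∈ C, Ysc c b Q ∈ Ys := by
    intro c hc
    rw [hYs, mem_image]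
    exact ⟨c, hc, rfl⟩
  have hR2 : 2 * Q ≤ R := by
    rw [hR, mul_comm]; exact Nat.mul_le_mul_left Q hT1
  have hR3 : (R : ℝ) ≤ Q * Real.exp ((Real.log Q) ^ v') := by
    rw [hR]; push_cast
    gcongr
  have hSc : ∀ Y ∈ Ys, ∃ Er : ℝ, ∀ g', g' ∣ ∏ p ∈ P', p → VarR Q g' R Y (SY P' Y).card D f N₀ (Pq P' g') Er e := by
    intro Y hY
    rw [hYs, mem_image] at hY
    obtain ⟨c, hc, rfl⟩ := hY
    have hYT : Ysc c b Q ≤ T := by exact_mod_cast (F.y4 0 c hc).trans hT3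
    refine hV P' p1 p2 p3 _ ⟨F.y3 0 c hc, F.y4 0 c hc, ?_⟩ R ?_ hR2 hR3
    · refine le_trans ?_ (H.SY_q F ps 0 hc).2
      apply mul_le_mul_of_nonneg_right _ (Real.rpow_nonneg (by linarith) _)
      exact_mod_cast SY_mono hP' _
    · rw [hR, mul_comm]
      exact Nat.mul_le_mul_left Q hYT
  choose! Er hEr using hSc
  have hprod : 1 / 2 ≤ ∏ p ∈ P', (1 - 1 / (p : ℝ)) := by
    have h1 := prod_ge P' (fun p hp => by exact_mod_cast (p4 p hp).one_lt.le)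
    linarith
  have hm := multiR (k := fun Y => (SY P' Y).card) p4 hEr (by linarith : 0 < κ' / 16) hκ10 hprod he4
  have hfew := few_div (PU (Wn u z Q ps)) Q ((Real.log Q) ^ (-c1)) η0 g5 g3 hη00 hLc
  have hκY : κ1 * Ys.card ≤ κ / 2 := by
    calc κ1 * Ys.card ≤ κ1 * (N + 1) := by
          apply mul_le_mul_of_nonneg_left _ hκ10.le
          linarith
      _ ≤ _ := hκ1a
  refine ⟨P', p1, fun q => BadS Q Ys P' (κ' / 16) R q, ?_⟩
  have hsub : (Ioc Q (2 * Q)).filter (fun q => ¬ (((∏ p ∈ Pq P' q, p : ℕ) : ℝ) * ((BadS Q Ys P' (κ' / 16) R q).card : ℝ) ≤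
        κ * ((R : ℝ) * ((Nat.totient q : ℝ) / q)) ∧
        ∀ a ∈ rows (∏ p ∈ Pq P' q, p) q 0 R, a ∉ BadS Q Ys P' (κ' / 16) R q → Rat b lam κ' C Q q a)) ⊆
      ((Ioc Q (2 * Q)).filter (fun q => ¬ ((∏ p ∈ Pq P' q, p : ℕ) : ℝ) * ((BadS Q Ys P' (κ' / 16) R q).card : ℝ) ≤
      κ1 * Ys.card * (R * ((Nat.totient q : ℝ) / q)))) ∪
      ((Ioc Q (2 * Q)).filter (fun q => η0 < ∑ p ∈ (PU (Wn u z Q ps)).filter (fun p => p ∣ q), 1 / (p : ℝ))) := by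
    intro q hq
    rw [mem_filter] at hq
    rw [mem_union]
    by_contra hcon
    rw [not_or, mem_filter, mem_filter] at hcon
    obtain ⟨hc1', hc2⟩ := hcon
    apply hq.2
    have hq1 : 0 < q := by
      have := mem_Ioc.1 hq.1
      omega
    have h1 : ((∏ p ∈ Pq P' q, p : ℕ) : ℝ) * ((BadS Q Ys P' (κ' / 16) R q).card : ℝ) ≤
      κ1 * Ys.card * (R * ((Nat.totient q : ℝ) / q)) := by
      by_contra h; exact hc1' ⟨hq.1, h⟩
    have h2 : ∑ p ∈ (PU (Wn u z Q ps)).filter (fun p => p ∣ q), 1 / (p : ℝ) ≤ η0 := by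
      by_contra h; exact hc2 ⟨hq.1, not_le.1 h⟩
    refine ⟨h1.trans ?_, fun a ha hgood => ?_⟩
    · apply mul_le_mul_of_nonneg_right _ (by positivity)
      linarith
    · have hall : ∀ Y ∈ Ys, |(Nn Y q a : ℝ) - mu Q Y (Pq P' q) q| ≤ (κ' / 16) * mu Q Y (Pq P' q) q := by
        by_contra h
        apply hgood
        unfold BadS
        rw [mem_filter]
        exact ⟨ha, h⟩
      have hsubP : Pq P' q ⊆ P' := filter_subset _ _
      have hPpr : ∀ p ∈ Pq P' q, p.Prime := fun p hp => p4 p (hsubP hp)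
      have hsP : ∑ p ∈ Pq P' q, 1 / (p : ℝ) ≤ 1 / 2 :=
        le_trans (sum_le_sum_of_subset_of_nonneg hsubP fun p _ _ => by positivity) p3
      have hPr0 := prod_ge (Pq P' q) (fun p hp => by exact_mod_cast (hPpr p hp).one_lt.le)
      have hφ : (0 : ℝ) < (Nat.totient q : ℝ) := by exact_mod_cast Nat.totient_pos.2 hq1
      intro c hc
      have hY := hall _ (hYsm c hc)
      rw [mu_eq hPpr] at hY
      have hYpos : (0 : ℝ) < (Ysc c b Q : ℝ) := by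
        have h4 := F.y1 0 c hc
        have h5 : 0 < (Real.log Q) ^ (b - g / 2) := Real.rpow_pos_of_pos (by linarith) _
        exact lt_of_lt_of_le h5 h4
      have hS : ((SY (Pq P' q) (Ysc c b Q)).card : ℝ) ≤ κ' / 16 * (Ysc c b Q : ℝ) := by
        have h4 := (H'.SY_q F' ps 0 hc).1
        have h5 : ((SY (Pq P' q) (Ysc c b Q)).card : ℝ) ≤ ((SY (PU (Wn u z Q ps)) (Ysc c b Q)).card : ℝ) := by
          exact_mod_cast SY_mono (hsubP.trans hP') _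
        refine h5.trans (h4.trans ?_)
        apply mul_le_mul_of_nonneg_right _ hYpos.le
        linarith
      -- the ratio
      have hRr : |EY (Pq P' q) (Ysc c b Q) / ∏ p ∈ Pq P' q, (1 - 1 / (p : ℝ)) - lam| ≤ κ' / 4 := by
        have h4 : Rr P' (Ysc c b Q) = Rr P' (Ysc c0 b Q) := by
          unfold Rr EY
          rw [H.SY_eq F ps 0 hc hc0 hP']
        have h5 : (P'.filter (fun p => p ∣ q)) ∪ Pq P' q = P' := by
          unfold Pq
          exact filter_union_filter_not_eq _ _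
        have h6 : Disjoint (P'.filter (fun p => p ∣ q)) (Pq P' q) := by
          unfold Pq
          exact disjoint_filter_filter_not _ _ _
        have h7 := Rr_lip (Pq P' q) (Ysc c b Q) (P'.filter (fun p => p ∣ q)) h6 (by rw [h5]; exact p4) (by rw [h5]; exact p3)
        rw [h5, h4] at h7
        have h8 : ∑ p ∈ P'.filter (fun p => p ∣ q), 1 / (p : ℝ) ≤ η0 := by
          refine le_trans ?_ h2
          apply sum_le_sum_of_subset_of_nonneg (filter_subset_filter _ hP')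
          intro p _ _
          positivity
        have h9 : Rr (Pq P' q) (Ysc c b Q) = EY (Pq P' q) (Ysc c b Q) / ∏ p ∈ Pq P' q, (1 - 1 / (p : ℝ)) := rfl
        rw [← h9]
        rw [abs_le] at h7 hRP' ⊢
        constructor <;> linarith [h7.1, h7.2, hRP'.1, hRP'.2]
      have hcnt := count_all_SY _ hPpr (Ysc c b Q)
      exact num_cl3 hYpos (by linarith) (by positivity) hκ' hκ'1 rfl hlam hRr hcnt hS rfl hY
  have h1 := (card_le_card hsub).trans (card_union_le _ _)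
  have h2 : (((Ioc Q (2 * Q)).filter (fun q => ¬ (((∏ p ∈ Pq P' q, p : ℕ) : ℝ) * ((BadS Q Ys P' (κ' / 16) R q).card : ℝ) ≤
        κ * ((R : ℝ) * ((Nat.totient q : ℝ) / q)) ∧
        ∀ a ∈ rows (∏ p ∈ Pq P' q, p) q 0 R, a ∉ BadS Q Ys P' (κ' / 16) R q → Rat b lam κ' C Q q a))).card : ℝ) ≤
      (((Ioc Q (2 * Q)).filter (fun q => ¬ ((∏ p ∈ Pq P' q, p : ℕ) : ℝ) * ((BadS Q Ys P' (κ' / 16) R q).card : ℝ) ≤
      κ1 * Ys.card * (R * ((Nat.totient q : ℝ) / q)))).card : ℝ) +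
      (((Ioc Q (2 * Q)).filter (fun q => η0 < ∑ p ∈ (PU (Wn u z Q ps)).filter (fun p => p ∣ q), 1 / (p : ℝ))).card : ℝ) := by
    exact_mod_cast h1
  refine h2.trans ?_
  have h3 : κ1 * Ys.card * Q ≤ κ / 2 * Q := mul_le_mul_of_nonneg_right hκY hQ0.le
  have h4 : (Real.log Q) ^ (-c1) / η0 * Q ≤ κ / 2 * Q := by
    apply mul_le_mul_of_nonneg_right _ hQ0.le
    rw [div_le_iff₀ hη00]
    exact f1.le
  linarith

end Pool.Agent.H527.G
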