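import Mathlib
import Pool.Agent.H527.G.G15

/-! Vectors of ratios, for almost all moduli and almost all tuples of classes. -/

set_option autoImplicit false

namespace Pool.Agent.H527.G

open Finset Filter Topology Pool.Agent.H527.AP Pool.Agent.H527.S Pool.Agent.H527.M Pool.Agent.H527.N

/-- the sign -/
def sgB (s : Bool) : ℝ := if s then 1 else -1

open Classical in
set_option maxHeartbeats 4000000 in
theorem matrix3 {K : ℕ} (b : ℝ) (hb1 : 1 < b) (s : Fin K → Bool) (v' : ℝ)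
    (hv' : 0 < v') (hv1' : v' ≤ 1 / 40) : ∃ δ : ℝ, 0 < δ ∧ δ ≤ 1 / 2 ∧ ∀ lam : Fin K → ℝ,
      (∀ i, sgB (s i) * 1 ≤ sgB (s i) * lam i ∧ sgB (s i) * lam i ≤ sgB (s i) * 1 + δ) → ∀ κ κ' : ℝ, 0 < κ → 0 < κ' → κ' ≤ 1 →
      ∀ C : Finset ℝ, C.Nonempty → (∀ c ∈ C, 0 < c) →
      ∀ᶠ Q : ℕ in atTop, (((Ioc Q (2 * Q)).filter (fun q => ¬ (((Tp K q).filter (fun c => ¬ ∃ u, u < (Q * Tf v' Q) / q ∧
        ∀ i, Rat b (lam i) κ' C Q q (c i + u * q))).card : ℝ) ≤ κ * (Nat.totient q : ℝ) ^ K)).card : ℝ) ≤ κ * Q := by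
  obtain ⟨D, hD, hDv, hDc⟩ := exists_fam (fun _ : Fin 1 => b) (fun _ => hb1) (Subsingleton.strictMono _) K
    (fun i _ => if s i then 1 else 0) (v' / 2) (by linarith) (by linarith)
  obtain ⟨d, hd, hd'⟩ := fin_gap (Set.univ : Set (Fin K)) Set.finite_univ (fun i => (D i).δ1)
    (fun i _ => (hD i).hδ)
  refine ⟨min d (1 / 2), lt_min hd (by norm_num), min_le_right _ _, fun lam hlam κ κ' hκ hκ' hκ'1 C hCn hC => ?_⟩
  obtain ⟨κ1, hκ1⟩ : ∃ κ1 : ℝ, κ1 = min (κ / (K + 1)) (κ / (K * (K + 1) * 2 ^ (K + 1) + 1)) := ⟨_, rfl⟩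
  have hκ10 : 0 < κ1 := by rw [hκ1]; exact lt_min (by positivity) (by positivity)
  have hκ11 : (K : ℝ) * κ1 ≤ κ := by
    have h1 : κ1 ≤ κ / (K + 1) := by rw [hκ1]; exact min_le_left _ _
    calc (K : ℝ) * κ1 ≤ (K + 1) * (κ / (K + 1)) := by gcongr; linarith
      _ = κ := by field_simp
  have hκ12 : κ1 * (K * (K + 1) * 2 ^ (K + 1)) ≤ κ := by
    have h1 : κ1 ≤ κ / (K * (K + 1) * 2 ^ (K + 1) + 1) := by rw [hκ1]; exact min_le_right _ _
    calc κ1 * (K * (K + 1) * 2 ^ (K + 1)) ≤ κ / (K * (K + 1) * 2 ^ (K + 1) + 1) * (K * (K + 1) * 2 ^ (K + 1) + 1) := by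
          gcongr; linarith
      _ = κ := by field_simp
  have hsgi : ∀ i, (sgB (s i) = 1 ∧ (if s i then 1 else 0) = 1) ∨ (sgB (s i) = -1 ∧ (if s i then 1 else 0) = 0) := by
    intro i
    unfold sgB
    cases s i <;> simp
  have hone := eventually_all.2 (fun i => one_class3 b (hD i) (sgB (s i)) (hsgi i) v' (by linarith [hDv i]) hv1'
    (lam i) (hlam i).1 (le_trans (hlam i).2 (by
      have h1 := hd' i (Set.mem_univ i)
      have h2 : min d (1 / 2) ≤ d := min_le_left _ _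
      linarith)) κ1 κ' hκ10 hκ' hκ'1 C hCn hC)
  have has := eventually_all.2 (fun i => tendsto_logN.eventually (As_ev (D i).c1 (D i).v 1 (D i).β 1 0 1 0 0 0 (hD i).hc1 (hD i).hv
    (hD i).hv1 (hD i).hβ one_pos one_pos))
  filter_upwards [hone, has, Tf_ev v' (v' / 2) 0 (3 / 2 * K) hv' (by linarith), eventually_ge_atTop 2,
    tendsto_logN.eventually_ge_atTop 2] with Q h1 hAs hT hQ2 hL
  choose P0 hP0 Bd hBd using h1
  obtain ⟨T, hTd⟩ : ∃ T, T = Tf v' Q := ⟨_, rfl⟩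
  rw [← hTd] at hT hBd ⊢
  obtain ⟨hT1, hT2, _, hT4⟩ := hT
  obtain ⟨R, hR⟩ : ∃ R, R = Q * T := ⟨_, rfl⟩
  rw [← hR] at hBd ⊢
  have hQ0 : (0 : ℝ) < Q := by exact_mod_cast (by omega : 0 < Q)
  have hsub : (Ioc Q (2 * Q)).filter (fun q => ¬ (((Tp K q).filter (fun c => ¬ ∃ u, u < R / q ∧
        ∀ i, Rat b (lam i) κ' C Q q (c i + u * q))).card : ℝ) ≤ κ * (Nat.totient q : ℝ) ^ K) ⊆
      (univ : Finset (Fin K)).biUnion (fun i => (Ioc Q (2 * Q)).filter (fun q => ¬ (((∏ p ∈ Pq (P0 i) q, p : ℕ) : ℝ) * ((Bd i q).card : ℝ) ≤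
        κ1 * ((R : ℝ) * ((Nat.totient q : ℝ) / q)) ∧
        ∀ a ∈ rows (∏ p ∈ Pq (P0 i) q, p) q 0 R, a ∉ Bd i q → Rat b (lam i) κ' C Q q a))) := by
    intro q hq
    rw [mem_filter] at hq
    rw [mem_biUnion]
    by_contra hcon
    apply hq.2
    have hok : ∀ i, ((∏ p ∈ Pq (P0 i) q, p : ℕ) : ℝ) * ((Bd i q).card : ℝ) ≤ κ1 * ((R : ℝ) * ((Nat.totient q : ℝ) / q)) ∧
        ∀ a ∈ rows (∏ p ∈ Pq (P0 i) q, p) q 0 R, a ∉ Bd i q → Rat b (lam i) κ' C Q q a := by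
      intro i
      by_contra h
      exact hcon ⟨i, mem_univ i, mem_filter.2 ⟨hq.1, h⟩⟩
    have hqI := mem_Ioc.1 hq.1
    have hq0 : 0 < q := by omega
    have hwf : ∀ i, (∀ p ∈ Pq (P0 i) q, p.Prime) ∧ ((∏ p ∈ Pq (P0 i) q, p : ℕ) : ℝ) ≤ Real.exp (3 / 2 * (Real.log Q) ^ (D i).v) := by
      intro i
      obtain ⟨w1, w2, w3, w4⟩ := win_facts (D i).c1 (D i).v Q (by linarith) (Pq (P0 i) q) ((filter_subset _ _).trans (hP0 i)) (hD i).hv
      exact ⟨w1, w4⟩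
    have hWpos : ∀ i, 0 < ∏ p ∈ Pq (P0 i) q, p := fun i => Finset.prod_pos fun p hp => ((hwf i).1 p hp).pos
    have hcop : ∀ i, (∏ p ∈ Pq (P0 i) q, p).Coprime q := by
      intro i
      apply Nat.Coprime.prod_left
      intro p hp
      have hp' := hp
      unfold Pq at hp'
      rw [mem_filter] at hp'
      exact (Nat.Prime.coprime_iff_not_dvd ((hwf i).1 p hp)).2 hp'.2
    have hdis : ∀ i j, i < j → ∀ p ∈ Pq (P0 i) q, p ∉ Pq (P0 j) q := by
      intro i j hij p hp hp'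
      unfold Pq at hp hp'
      exact win_disjoint (by linarith) (hDc i j hij) (hP0 i (mem_filter.1 hp).1) (hP0 j (mem_filter.1 hp').1)
    have hpc : ∀ i j, i ≠ j → (∏ p ∈ Pq (P0 i) q, p).Coprime (∏ p ∈ Pq (P0 j) q, p) := by
      intro i j hij
      rcases lt_or_gt_of_ne hij with h | h
      · exact prod_coprime (hwf i).1 (hwf j).1 (hdis i j h)
      · exact (prod_coprime (hwf j).1 (hwf i).1 (hdis j i h)).symm
    have hrow : ∀ i, 3 * (2 : ℝ) ^ q.primeFactors.card ≤ (Nat.totient q : ℝ) / ((∏ p ∈ Pq (P0 i) q, p : ℕ) : ℝ) := by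
      intro i
      have h2 := k6_ok (hAs i) rfl one_pos (hWpos i) (hwf i).2 hq.1
      rwa [one_mul] at h2
    have hU : (∏ i, ∏ p ∈ Pq (P0 i) q, p) * q ≤ R := by
      have h2 : ((∏ i, ∏ p ∈ Pq (P0 i) q, p : ℕ) : ℝ) ≤ Real.exp (3 / 2 * K * (Real.log Q) ^ (v' / 2)) := by
        rw [Nat.cast_prod]
        calc ∏ i, ((∏ p ∈ Pq (P0 i) q, p : ℕ) : ℝ) ≤ ∏ _i : Fin K, Real.exp (3 / 2 * (Real.log Q) ^ (v' / 2)) := by
              apply Finset.prod_le_prod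
              · intro i _
                exact Nat.cast_nonneg _
              · intro i _
                refine (hwf i).2.trans (Real.exp_le_exp.2 ?_)
                have := Real.rpow_le_rpow_of_exponent_le (show 1 ≤ Real.log Q by linarith) (hDv i)
                linarith
          _ = _ := by
              rw [prod_const, card_univ, Fintype.card_fin, ← Real.exp_nat_mul]
              congr 1
              ring
      have h3 : ((∏ i, ∏ p ∈ Pq (P0 i) q, p : ℕ) : ℝ) * 2 ≤ T := by linarith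
      have h4 : (∏ i, ∏ p ∈ Pq (P0 i) q, p) * 2 ≤ T := by exact_mod_cast h3
      calc (∏ i, ∏ p ∈ Pq (P0 i) q, p) * q ≤ (∏ i, ∏ p ∈ Pq (P0 i) q, p) * (2 * Q) := Nat.mul_le_mul_left _ hqI.2
        _ = ((∏ i, ∏ p ∈ Pq (P0 i) q, p) * 2) * Q := by ring
        _ ≤ T * Q := Nat.mul_le_mul_right Q h4
        _ = R := by rw [hR, mul_comm]
    have hj := joint hq0 (fun i => ∏ p ∈ Pq (P0 i) q, p) hWpos hcop hpc hrow hU (fun i => Bd i q) κ1 hκ10.le (fun i => (hok i).1)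
    have hsub2 : (Tp K q).filter (fun c => ¬ ∃ u, u < R / q ∧ ∀ i, Rat b (lam i) κ' C Q q (c i + u * q)) ⊆
        (Tp K q).filter (fun c => ¬ ∃ u, u < R / q ∧ (∀ i, (∏ p ∈ Pq (P0 i) q, p) ∣ c i + u * q) ∧ ∀ i, c i + u * q ∉ Bd i q) := by
      intro c hc
      rw [mem_filter] at hc ⊢
      refine ⟨hc.1, ?_⟩
      rintro ⟨u, hu1, hu2, hu3⟩
      apply hc.2
      refine ⟨u, hu1, fun i => ?_⟩
      have hci : c i ∈ Rd q := by
        have h2 := hc.1
        unfold Tp at h2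
        rw [Fintype.mem_piFinset] at h2
        exact h2 i
      unfold Rd at hci
      rw [mem_filter, mem_Ioc] at hci
      have hrowi : c i + u * q ∈ rows (∏ p ∈ Pq (P0 i) q, p) q 0 R := by
        unfold rows
        rw [mem_filter, mem_Ioc]
        have h2 : (u + 1) * q ≤ (R / q) * q := Nat.mul_le_mul_right q hu1
        have h3 : (R / q) * q ≤ R := Nat.div_mul_le_self _ _
        have h4 : (u + 1) * q = u * q + q := by ring
        refine ⟨⟨by omega, by omega⟩, hu2 i, ?_⟩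
        rw [Nat.coprime_add_mul_right_left]
        exact hci.2
      exact (hok i).2 _ hrowi (hu3 i)
    have h2 : (((Tp K q).filter (fun c => ¬ ∃ u, u < R / q ∧ ∀ i, Rat b (lam i) κ' C Q q (c i + u * q))).card : ℝ) ≤
        (((Tp K q).filter (fun c => ¬ ∃ u, u < R / q ∧ (∀ i, (∏ p ∈ Pq (P0 i) q, p) ∣ c i + u * q) ∧ ∀ i, c i + u * q ∉ Bd i q)).card : ℝ) := by
      exact_mod_cast card_le_card hsub2
    refine h2.trans (le_trans ?_ (mul_le_mul_of_nonneg_right hκ12 (by positivity)))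
    refine le_trans (le_of_eq ?_) hj
    congr 2
  have h2 := (card_le_card hsub).trans card_biUnion_le
  have h3 : (((Ioc Q (2 * Q)).filter (fun q => ¬ (((Tp K q).filter (fun c => ¬ ∃ u, u < R / q ∧
        ∀ i, Rat b (lam i) κ' C Q q (c i + u * q))).card : ℝ) ≤ κ * (Nat.totient q : ℝ) ^ K)).card : ℝ) ≤
      ∑ i : Fin K, (((Ioc Q (2 * Q)).filter (fun q => ¬ (((∏ p ∈ Pq (P0 i) q, p : ℕ) : ℝ) * ((Bd i q).card : ℝ) ≤
        κ1 * ((R : ℝ) * ((Nat.totient q : ℝ) / q)) ∧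
        ∀ a ∈ rows (∏ p ∈ Pq (P0 i) q, p) q 0 R, a ∉ Bd i q → Rat b (lam i) κ' C Q q a))).card : ℝ) := by
    exact_mod_cast h2
  refine h3.trans ((sum_le_sum fun i _ => hBd i).trans ?_)
  rw [sum_const, card_univ, Fintype.card_fin, nsmul_eq_mul, ← mul_assoc]
  exact mul_le_mul_of_nonneg_right hκ11 hQ0.le

end Pool.Agent.H527.G
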