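import Mathlib
import Pool.Agent.H527.G.G16

/-! From rows to windows, for a prescribed ratio. -/

set_option autoImplicit false

namespace Pool.Agent.H527.G

open Finset Filter Topology Pool.Agent.H527.AP Pool.Agent.H527.S Pool.Agent.H527.M Pool.Agent.H527.N

theorem num4_up {lam κ η : ℝ} (hl1 : 1 / 2 ≤ lam) (hl2 : lam ≤ 3 / 2) (hκ : 0 < κ) (hκ1 : κ ≤ 1 / 4) (hη : η = κ / 64) :
    (lam + κ / 4) * (1 + η) ^ 3 ≤ lam + κ / 2 := by
  have hη0 : 0 < η := by rw [hη]; linarith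
  have hη1 : η ≤ 1 / 256 := by rw [hη]; linarith
  have h1 : (1 + η) ^ 3 ≤ 1 + 4 * η := by nlinarith [mul_pos hη0 hη0]
  calc (lam + κ / 4) * (1 + η) ^ 3 ≤ (lam + κ / 4) * (1 + 4 * η) := by gcongr
    _ = lam + κ / 4 + 4 * η * (lam + κ / 4) := by ring
    _ ≤ lam + κ / 4 + 4 * η * 2 := by gcongr; linarith
    _ = lam + κ / 4 + κ / 8 := by rw [hη]; ring
    _ ≤ _ := by linarith

theorem num4_lo {lam κ η : ℝ} (hl1 : 1 / 2 ≤ lam) (hl2 : lam ≤ 3 / 2) (hκ : 0 < κ) (hκ1 : κ ≤ 1 / 4) (hη : η = κ / 64) :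
    (lam - κ / 2) * (1 + η) ^ 2 ≤ (lam - κ / 4) * (1 - η) := by
  have hη0 : 0 < η := by rw [hη]; linarith
  have hη1 : η ≤ 1 / 256 := by rw [hη]; linarith
  have h1 : (1 + η) ^ 2 ≤ 1 + 3 * η := by nlinarith [mul_pos hη0 hη0]
  have h2 : 0 ≤ lam - κ / 2 := by linarith
  calc (lam - κ / 2) * (1 + η) ^ 2 ≤ (lam - κ / 2) * (1 + 3 * η) := by gcongr
    _ = (lam - κ / 2) + 3 * η * (lam - κ / 2) := by ring
    _ ≤ (lam - κ / 2) + 3 * η * (3 / 2) := by gcongr; linarith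
    _ ≤ (lam - κ / 4) - 2 * η := by rw [hη]; linarith
    _ ≤ (lam - κ / 4) - (lam - κ / 4) * η := by nlinarith
    _ = _ := by ring

set_option maxHeartbeats 4000000 in
theorem transfer4 (b lam κ Λ v' : ℝ) (hb : 1 < b) (hl1 : 1 / 2 ≤ lam) (hl2 : lam ≤ 3 / 2) (hκ : 0 < κ) (hκ1 : κ ≤ 1 / 4)
    (N : ℕ) (hN : max 1 Λ * 2 ^ b < (1 + κ / 64) ^ N) (hv1' : v' ≤ 1 / 40) :
    ∀ᶠ Q : ℕ in atTop, ∀ q ∈ Ioc Q (2 * Q), ∀ c u : ℕ, 0 < c → c ≤ q →
      (((u + 1) * q : ℕ) : ℝ) ≤ Q * Real.exp ((Real.log Q) ^ v') →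
      Rat b lam (κ / 4) (Cs (κ / 64) N) Q q (c + u * q) →
      ∀ h : ℕ, q * (Real.log q) ^ b ≤ (h : ℝ) → (h : ℝ) ≤ Λ * (q * (Real.log q) ^ b) →
        (lam - κ / 2) * ((h : ℝ) / (Nat.totient q * Real.log (((u + 1) * q : ℕ) : ℝ))) ≤ (wc ((u + 1) * q) h q c : ℝ) ∧
        (wc ((u + 1) * q) h q c : ℝ) ≤ (lam + κ / 2) * ((h : ℝ) / (Nat.totient q * Real.log (((u + 1) * q : ℕ) : ℝ))) := by
  classical
  obtain ⟨η, hη⟩ : ∃ η : ℝ, η = κ / 64 := ⟨_, rfl⟩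
  have hη0 : 0 < η := by rw [hη]; linarith
  have hη1 : η ≤ 1 / 256 := by rw [hη]; linarith
  obtain ⟨T, hT⟩ : ∃ T : ℝ, T = max 1 Λ * 2 ^ b := ⟨_, rfl⟩
  rw [← hT, ← hη] at hN
  have hΛ1 : 1 ≤ max 1 Λ := le_max_left _ _
  have hT1 : 1 ≤ T := by
    rw [hT]
    have : 1 ≤ (2 : ℝ) ^ b := Real.one_le_rpow (by norm_num) (by linarith)
    nlinarith
  have e1 : ∀ᶠ L : ℝ in atTop, 1 ≤ η / 2 * L ^ b := by
    filter_upwards [(tendsto_rpow_atTop (show 0 < b by linarith)).eventually_ge_atTop (2 / η)] with L h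
    rw [div_le_iff₀ hη0] at h
    linarith
  have e2 : ∀ᶠ L : ℝ in atTop, L ^ v' ≤ η * L := by
    filter_upwards [as_pow_pow v' 1 (1 / η) (by linarith)] with L h
    rw [Real.rpow_one, one_div, inv_mul_le_iff₀ hη0] at h
    exact h
  filter_upwards [tendsto_logN.eventually e1, tendsto_logN.eventually e2,
    tendsto_logN.eventually_ge_atTop 2, eventually_ge_atTop 2] with Q b1 a2 a5 a6 q hqQ c u hc0 hcq hxQ hall h hx1 hx2
  rw [mem_Ioc] at hqQ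
  have hq0n : 0 < q := by omega
  have hQ0 : (0 : ℝ) < Q := by exact_mod_cast (by omega : 0 < Q)
  have hq0 : (0 : ℝ) < q := by exact_mod_cast hq0n
  have hQq : (Q : ℝ) ≤ q := by exact_mod_cast hqQ.1.le
  have hqQ2 : (q : ℝ) ≤ 2 * Q := by exact_mod_cast hqQ.2
  obtain ⟨L, hL⟩ : ∃ L : ℝ, L = Real.log Q := ⟨_, rfl⟩
  rw [← hL] at b1 a2 a5 hxQ
  have hL0 : 0 < L := by linarith
  have hlq1 : L ≤ Real.log q := by rw [hL]; exact Real.log_le_log hQ0 hQq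
  have hlq2 : Real.log q ≤ 2 * L := by
    have h5 : Real.log q ≤ Real.log (2 * Q) := Real.log_le_log hq0 hqQ2
    rw [Real.log_mul (by norm_num) hQ0.ne', ← hL] at h5
    have := Real.log_two_lt_d9
    linarith
  have hLb : 0 < L ^ b := Real.rpow_pos_of_pos hL0 _
  have hB0 : 0 < b := by linarith
  -- the logarithm of the window
  obtain ⟨X, hX⟩ : ∃ X : ℝ, X = (((u + 1) * q : ℕ) : ℝ) := ⟨_, rfl⟩
  rw [← hX] at hxQ ⊢
  have hqX : (Q : ℝ) ≤ X := by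
    rw [hX]
    have h1 : 1 * q ≤ (u + 1) * q := Nat.mul_le_mul_right q (by omega)
    have h2 : (q : ℝ) ≤ (((u + 1) * q : ℕ) : ℝ) := by exact_mod_cast (by omega : q ≤ (u + 1) * q)
    linarith
  have hlX1 : L ≤ Real.log X := by rw [hL]; exact Real.log_le_log hQ0 hqX
  have hlX2 : Real.log X ≤ (1 + η) * L := by
    have h1 := Real.log_le_log (by linarith) hxQ
    rw [Real.log_mul hQ0.ne' (Real.exp_pos _).ne', Real.log_exp, ← hL] at h1
    linarith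
  obtain ⟨lX, hlX⟩ : ∃ lX : ℝ, lX = Real.log X := ⟨_, rfl⟩
  rw [← hlX] at hlX1 hlX2 ⊢
  have hlX0 : 0 < lX := by linarith
  obtain ⟨y, hy⟩ : ∃ y : ℝ, y = (h : ℝ) / q := ⟨_, rfl⟩
  have hxy : (h : ℝ) = y * q := by rw [hy]; field_simp
  have hy1 : L ^ b ≤ y := by
    rw [hy, le_div_iff₀ hq0, mul_comm]
    refine le_trans ?_ hx1
    have := Real.rpow_le_rpow hL0.le hlq1 hB0.le
    gcongr
  have hy2 : y ≤ T * L ^ b := by
    rw [hy, div_le_iff₀ hq0]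
    have h1 : (Real.log q) ^ b ≤ 2 ^ b * L ^ b := by
      calc (Real.log q) ^ b ≤ (2 * L) ^ b := Real.rpow_le_rpow (by linarith) hlq2 hB0.le
        _ = 2 ^ b * L ^ b := Real.mul_rpow (by norm_num) hL0.le
    have h2 : 0 ≤ (q : ℝ) * (Real.log q) ^ b := by
      have : 0 ≤ (Real.log q) ^ b := Real.rpow_nonneg (by linarith) _
      positivity
    calc (h : ℝ) ≤ Λ * (q * (Real.log q) ^ b) := hx2
      _ ≤ max 1 Λ * (q * (Real.log q) ^ b) := by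
          have := le_max_right 1 Λ
          gcongr
      _ ≤ max 1 Λ * (q * (2 ^ b * L ^ b)) := by gcongr
      _ = T * L ^ b * q := by rw [hT]; ring
  -- the scale
  obtain ⟨n, hn1, hn2⟩ := exists_nat_pow_near (show 1 ≤ y / L ^ b by rw [le_div_iff₀ hLb]; linarith)
    (show (1 : ℝ) < 1 + η by linarith)
  rw [le_div_iff₀ hLb] at hn1
  rw [div_lt_iff₀ hLb] at hn2
  have hnN : n < N := by
    by_contra h
    push Not at h
    have h1 : (1 + η) ^ N ≤ (1 + η) ^ n := pow_le_pow_right₀ (by linarith) h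
    have h2 : T * L ^ b < (1 + η) ^ n * L ^ b := by
      apply mul_lt_mul_of_pos_right _ hLb
      linarith
    linarith
  obtain ⟨s1, s2, s3, s4⟩ := scales hL0 hη0 (by linarith) b1 hn1 hn2
  have hc1 := hall _ (Cs_mem (η := κ / 64) (N := N) (show n < N + 4 by omega))
  have hc2 := hall _ (Cs_mem (η := κ / 64) (N := N) (show n + 3 < N + 4 by omega))
  rw [← hη] at hc1 hc2
  unfold Ysc at hc1 hc2
  rw [← hL] at hc1 hc2
  have hφ : (0 : ℝ) < (Nat.totient q : ℝ) := by exact_mod_cast Nat.totient_pos.2 hq0n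
  obtain ⟨φ, hφe⟩ : ∃ φ : ℝ, φ = (Nat.totient q : ℝ) := ⟨_, rfl⟩
  rw [← hφe] at hc1 hc2 hφ ⊢
  clear hall
  have hy0 : 0 < y := by linarith
  rw [abs_le] at hc1 hc2
  constructor
  · have h1 := hc1.1
    have h2 : (Nn ⌊(1 + η) ^ n / (1 + η) * L ^ b⌋₊ q (c + u * q) : ℝ) ≤ (wc ((u + 1) * q) h q c : ℝ) := by
      have h3 : ⌊(1 + η) ^ n / (1 + η) * L ^ b⌋₊ * q ≤ h := by
        have h4 : ((⌊(1 + η) ^ n / (1 + η) * L ^ b⌋₊ : ℕ) : ℝ) * q ≤ h := by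
          rw [hxy]
          gcongr
          linarith
        exact_mod_cast h4
      exact_mod_cast w_ge (u := u) hc0 hcq h3
    obtain ⟨Y, hY⟩ : ∃ Y : ℝ, Y = (⌊(1 + η) ^ n / (1 + η) * L ^ b⌋₊ : ℝ) := ⟨_, rfl⟩
    rw [← hY] at s2 h1
    have hlk : 0 ≤ lam - κ / 2 := by linarith
    have hlk' : 0 ≤ lam - κ / 4 := by linarith
    have h3 : (lam - κ / 2) * y * (1 + η) ^ 2 ≤ (lam - κ / 4) * Y * (1 + η) ^ 2 := by
      calc (lam - κ / 2) * y * (1 + η) ^ 2 = ((lam - κ / 2) * (1 + η) ^ 2) * y := by ring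
        _ ≤ ((lam - κ / 4) * (1 - η)) * y := mul_le_mul_of_nonneg_right (num4_lo hl1 hl2 hκ hκ1 hη) hy0.le
        _ = (lam - κ / 4) * ((1 - η) * y) := by ring
        _ ≤ (lam - κ / 4) * ((1 + η) ^ 2 * Y) := by gcongr
        _ = _ := by ring
    have h4 := le_of_mul_le_mul_right h3 (by positivity)
    have h5 : (lam - κ / 2) * ((h : ℝ) / (φ * lX)) ≤ (lam - κ / 4) * (Y * (q / (φ * L))) := by
      calc (lam - κ / 2) * ((h : ℝ) / (φ * lX)) ≤ (lam - κ / 2) * ((h : ℝ) / (φ * L)) := by gcongr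
        _ = ((lam - κ / 2) * y) * (q / (φ * L)) := by rw [hxy]; ring
        _ ≤ ((lam - κ / 4) * Y) * (q / (φ * L)) := by gcongr
        _ = _ := by ring
    linarith
  · have h1 := hc2.2
    have h2 : (wc ((u + 1) * q) h q c : ℝ) ≤ (Nn ⌊(1 + η) ^ (n + 3) / (1 + η) * L ^ b⌋₊ q (c + u * q) : ℝ) := by
      have h3 : h ≤ ⌊(1 + η) ^ (n + 3) / (1 + η) * L ^ b⌋₊ * q := by
        have h4 : (h : ℝ) ≤ ((⌊(1 + η) ^ (n + 3) / (1 + η) * L ^ b⌋₊ : ℕ) : ℝ) * q := by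
          rw [hxy]
          gcongr
        exact_mod_cast h4
      exact_mod_cast w_le (u := u) hc0 hcq h3
    obtain ⟨Y, hY⟩ : ∃ Y : ℝ, Y = (⌊(1 + η) ^ (n + 3) / (1 + η) * L ^ b⌋₊ : ℝ) := ⟨_, rfl⟩
    rw [← hY] at s4 h1
    have hlk : 0 ≤ lam + κ / 4 := by linarith
    have h4 : q / (φ * L) ≤ (1 + η) * (q / (φ * lX)) := by
      rw [← mul_div_assoc, div_le_div_iff₀ (by positivity) (by positivity)]
      calc (q : ℝ) * (φ * lX) ≤ q * (φ * ((1 + η) * L)) := by gcongr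
        _ = _ := by ring
    have hY0 : 0 ≤ Y := by rw [hY]; positivity
    have h5 : (lam + κ / 4) * (Y * (q / (φ * L))) ≤ (lam + κ / 2) * ((h : ℝ) / (φ * lX)) := by
      calc (lam + κ / 4) * (Y * (q / (φ * L))) ≤ (lam + κ / 4) * (((1 + η) ^ 2 * y) * ((1 + η) * (q / (φ * lX)))) := by gcongr
        _ = ((lam + κ / 4) * (1 + η) ^ 3) * (y * (q / (φ * lX))) := by ring
        _ ≤ (lam + κ / 2) * (y * (q / (φ * lX))) := by
            apply mul_le_mul_of_nonneg_right (num4_up hl1 hl2 hκ hκ1 hη)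
            positivity
        _ = _ := by rw [hxy]; ring
    linarith

end Pool.Agent.H527.G
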