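import Mathlib
import Pool.Agent.H527.G.G17

/-! The box theorem. -/

set_option autoImplicit false

namespace Pool.Agent.H527.G

open Finset Filter Topology Pool.Agent.H527.AP Pool.Agent.H527.S Pool.Agent.H527.M Pool.Agent.H527.N

/-- the tuple `c` shows the vector of ratios `t`, up to `κ` -/
def FitsV {K : ℕ} (b ε κ Λ : ℝ) (q : ℕ) (c : Fin K → ℕ) (t : Fin K → ℝ) : Prop :=
  ∃ x : ℕ, q ≤ x ∧ (x : ℝ) ≤ q * Real.exp ((Real.log q) ^ ε) ∧ ∀ i, ∀ h : ℕ,
    q * (Real.log q) ^ b ≤ (h : ℝ) → (h : ℝ) ≤ Λ * (q * (Real.log q) ^ b) →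
      |psiN (x + h) q (c i) - psiN x q (c i) - t i * ((h : ℝ) / Nat.totient q)| ≤ κ * ((h : ℝ) / Nat.totient q)

theorem FitsV.mono {K : ℕ} {b ε κ κ' Λ : ℝ} {q : ℕ} {c : Fin K → ℕ} {t t' : Fin K → ℝ}
    (h : FitsV b ε κ Λ q c t) (ht : ∀ i, κ + |t i - t' i| ≤ κ') : FitsV b ε κ' Λ q c t' := by
  obtain ⟨x, h1, h2, h3⟩ := h
  refine ⟨x, h1, h2, fun i h a1 a2 => ?_⟩
  have h4 := h3 i h a1 a2
  have h5 : 0 ≤ (h : ℝ) / Nat.totient q := by positivity
  obtain ⟨M, hM⟩ : ∃ M : ℝ, M = (h : ℝ) / Nat.totient q := ⟨_, rfl⟩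
  rw [← hM] at h4 h5 ⊢
  obtain ⟨D, hD⟩ : ∃ D : ℝ, D = psiN (x + h) q (c i) - psiN x q (c i) := ⟨_, rfl⟩
  rw [← hD] at h4 ⊢
  have h6 : D - t' i * M = (D - t i * M) + (t i - t' i) * M := by ring
  rw [h6]
  have h7 := abs_add_le (D - t i * M) ((t i - t' i) * M)
  rw [abs_mul, abs_of_nonneg h5] at h7
  have h8 := mul_le_mul_of_nonneg_right (ht i) h5
  linarith

open Classical in
set_option maxHeartbeats 4000000 in
theorem one_vector {K : ℕ} (b : ℝ) (hb1 : 1 < b) (ε : ℝ) (hε : 0 < ε)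
    (s : Fin K → Bool) : ∃ d : ℝ, 0 < d ∧ d ≤ 1 / 2 ∧ ∀ lam : Fin K → ℝ,
      (∀ i, sgB (s i) * 1 ≤ sgB (s i) * lam i ∧ sgB (s i) * lam i ≤ sgB (s i) * 1 + d) → ∀ κ' : ℝ, 0 < κ' → κ' ≤ 1 / 4 →
      ∀ Λ κ : ℝ, 0 < κ → ∀ᶠ Q : ℕ in atTop,
      (((Ioc Q (2 * Q)).filter (fun q : ℕ => ¬ (((Tp K q).filter (fun c => ¬ FitsV b ε κ' Λ q c lam)).card : ℝ) ≤
        κ * (Nat.totient q : ℝ) ^ K)).card : ℝ) ≤ κ * Q := by
  obtain ⟨v', hv'⟩ : ∃ v' : ℝ, v' = min ε (1 / 40) := ⟨_, rfl⟩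
  have hv'0 : 0 < v' := by rw [hv']; exact lt_min hε (by norm_num)
  have hv'1 : v' ≤ 1 / 40 := by rw [hv']; exact min_le_right _ _
  have hv'ε : v' ≤ ε := by rw [hv']; exact min_le_left _ _
  obtain ⟨δ, hδ, hδ1, hmat⟩ := matrix3 b hb1 s v' hv'0 hv'1
  refine ⟨δ, hδ, hδ1, fun lam hlam κ' hκ' hκ'1 Λ κ hκ => ?_⟩
  have hl : ∀ i, 1 / 2 ≤ lam i ∧ lam i ≤ 3 / 2 := by
    intro i
    have h1 := hlam i
    unfold sgB at h1
    cases hs : s i <;> simp only [hs, if_true, Bool.false_eq_true, if_false] at h1 <;>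
      constructor <;> linarith [h1.1, h1.2]
  obtain ⟨N, hN⟩ := pow_unbounded_of_one_lt (max 1 Λ * 2 ^ b) (show (1 : ℝ) < 1 + κ' / 64 by linarith)
  obtain ⟨C, hC⟩ : ∃ C : Finset ℝ, C = Cs (κ' / 64) N := ⟨_, rfl⟩
  have hCpos : ∀ c ∈ C, 0 < c := by
    intro c hc
    rw [hC] at hc
    exact Cs_pos (by linarith) N c hc
  have hCne : C.Nonempty := by
    rw [hC]
    exact ⟨_, Cs_mem (η := κ' / 64) (N := N) (show 0 < N + 4 by omega)⟩
  have h1 := hmat lam hlam (κ / 2) (κ' / 4) (by linarith) (by linarith) (by linarith) C hCne hCpos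
  have h2 := eventually_all.2 (fun i => transfer4 b (lam i) κ' Λ v' hb1 (hl i).1 (hl i).2 hκ' hκ'1 N hN hv'1)
  obtain ⟨M, hM⟩ : ∃ M : ℝ, M = max 1 Λ * 2 * 2 ^ b := ⟨_, rfl⟩
  filter_upwards [h1, h2, few_pp (κ / (2 * (K + 1))) (by positivity),
    tendsto_logN.eventually (size_ev M b v' (κ' / 16) (by linarith) (by linarith)),
    Tf_ev v' (v' / 2) 0 0 hv'0 (by linarith), tendsto_logN.eventually_ge_atTop 2, eventually_ge_atTop 2] with Q g1 g2 g3 g4 g5 g6 g7
  have hQ0 : (0 : ℝ) < Q := by exact_mod_cast (by omega : 0 < Q)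
  obtain ⟨R, hR⟩ : ∃ R, R = Q * Tf v' Q := ⟨_, rfl⟩
  have hRle : (R : ℝ) ≤ Q * Real.exp ((Real.log Q) ^ v') := by
    rw [hR]; push_cast
    have := g5.2.1
    gcongr
  rw [← hR] at g1
  refine le_trans ?_ (le_trans g1 (by nlinarith))
  have hsub : (Ioc Q (2 * Q)).filter (fun q : ℕ => ¬ (((Tp K q).filter (fun c => ¬ FitsV b ε κ' Λ q c lam)).card : ℝ) ≤
        κ * (Nat.totient q : ℝ) ^ K) ⊆ (Ioc Q (2 * Q)).filter (fun q => ¬ (((Tp K q).filter (fun c => ¬ ∃ u, u < R / q ∧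
        ∀ i, Rat b (lam i) (κ' / 4) C Q q (c i + u * q))).card : ℝ) ≤ κ / 2 * (Nat.totient q : ℝ) ^ K) := by
    intro q hq
    rw [mem_filter] at hq ⊢
    refine ⟨hq.1, fun hgood => hq.2 ?_⟩
    have hqI := mem_Ioc.1 hq.1
    have hq0n : 0 < q := by omega
    have hq0 : (0 : ℝ) < q := by exact_mod_cast hq0n
    have hQq : (Q : ℝ) ≤ q := by exact_mod_cast hqI.1.le
    have hqQ2 : (q : ℝ) ≤ 2 * Q := by exact_mod_cast hqI.2
    obtain ⟨L, hL⟩ : ∃ L : ℝ, L = Real.log Q := ⟨_, rfl⟩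
    rw [← hL] at g4 g6 hRle
    have hL0 : 0 < L := by linarith
    have hlq1 : L ≤ Real.log q := by rw [hL]; exact Real.log_le_log hQ0 hQq
    have hlq2 : Real.log q ≤ 2 * L := by
      have h5 : Real.log q ≤ Real.log (2 * Q) := Real.log_le_log hq0 hqQ2
      rw [Real.log_mul (by norm_num) hQ0.ne', ← hL] at h5
      have := Real.log_two_lt_d9
      linarith
    have hfew := tuples_few (K := K) (Npp (Xp Q) q) (κ / (2 * (K + 1))) (by positivity) (g3 q hq.1)
    have hsub2 : (Tp K q).filter (fun c => ¬ FitsV b ε κ' Λ q c lam) ⊆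
        (Tp K q).filter (fun c => ¬ ∃ u, u < R / q ∧ ∀ i, Rat b (lam i) (κ' / 4) C Q q (c i + u * q)) ∪
        (Tp K q).filter (fun c => ∃ i, c i ∈ Npp (Xp Q) q) := by
      intro c hc
      rw [mem_filter] at hc
      rw [mem_union, mem_filter, mem_filter]
      by_contra hcon
      rw [not_or] at hcon
      obtain ⟨hc1, hc2⟩ := hcon
      apply hc.2
      have hu : ∃ u, u < R / q ∧ ∀ i, Rat b (lam i) (κ' / 4) C Q q (c i + u * q) := by
        by_contra h
        exact hc1 ⟨hc.1, h⟩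
      have hnp : ∀ i, c i ∉ Npp (Xp Q) q := fun i hi => hc2 ⟨hc.1, i, hi⟩
      obtain ⟨u, hu1, hu2⟩ := hu
      have hci : ∀ i, c i ∈ Rd q := by
        have h2 := hc.1
        unfold Tp at h2
        rw [Fintype.mem_piFinset] at h2
        exact h2
      have hxR : (u + 1) * q ≤ R := by
        have h2 : (u + 1) * q ≤ (R / q) * q := Nat.mul_le_mul_right q hu1
        exact h2.trans (Nat.div_mul_le_self _ _)
      have hxr : (((u + 1) * q : ℕ) : ℝ) ≤ Q * Real.exp (L ^ v') := le_trans (by exact_mod_cast hxR) hRle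
      have hqx : q ≤ (u + 1) * q := by
        have h2 : 1 * q ≤ (u + 1) * q := Nat.mul_le_mul_right q (by omega)
        omega
      refine ⟨(u + 1) * q, hqx, ?_, ?_⟩
      · refine hxr.trans ?_
        have h2 : L ^ v' ≤ (Real.log q) ^ ε := by
          calc L ^ v' ≤ (Real.log q) ^ v' := Real.rpow_le_rpow hL0.le hlq1 hv'0.le
            _ ≤ (Real.log q) ^ ε := Real.rpow_le_rpow_of_exponent_le (by linarith) hv'ε
        have h3 := Real.exp_le_exp.2 h2
        gcongr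
      · intro i h hh1 hh2
        have hcr := hci i
        unfold Rd at hcr
        rw [mem_filter, mem_Ioc] at hcr
        have hpr : Rat b (lam i) (κ' / 4) (Cs (κ' / 64) N) Q q (c i + u * q) := by
          intro c' hc'
          exact hu2 i c' (by rw [hC]; exact hc')
        rw [hL] at hxr
        have h3 := g2 i q hq.1 (c i) u hcr.1.1 hcr.1.2 hxr hpr h hh1 hh2
        rw [← hL] at hxr
        -- the size of the window
        obtain ⟨x, hx⟩ : ∃ x : ℕ, x = (u + 1) * q := ⟨_, rfl⟩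
        rw [← hx] at h3 hxr hqx hxR ⊢
        have hh3 : (h : ℝ) ≤ Q * (M * L ^ b) := by
          have hB0 : 0 < b := by linarith
          have hLq : (Real.log q) ^ b ≤ 2 ^ b * L ^ b := by
            calc (Real.log q) ^ b ≤ (2 * L) ^ b := Real.rpow_le_rpow (by linarith) hlq2 (by linarith)
              _ = 2 ^ b * L ^ b := Real.mul_rpow (by norm_num) hL0.le
          have h4 : 0 ≤ (Real.log q) ^ b := Real.rpow_nonneg (by linarith) _
          calc (h : ℝ) ≤ Λ * (q * (Real.log q) ^ b) := hh2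
            _ ≤ max 1 Λ * (q * (Real.log q) ^ b) := by
                have := le_max_right 1 Λ
                gcongr
            _ ≤ max 1 Λ * ((2 * Q) * (2 ^ b * L ^ b)) := by gcongr
            _ = Q * (M * L ^ b) := by rw [hM]; ring
        have hxh : ((x + h : ℕ) : ℝ) ≤ Q * Real.exp (κ' / 16 * L) := by
          push_cast
          calc (x : ℝ) + h ≤ Q * Real.exp (L ^ v') + Q * (M * L ^ b) := by linarith
            _ = Q * (Real.exp (L ^ v') + M * L ^ b) := by ring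
            _ ≤ _ := by gcongr
        have hx1 : 1 ≤ x := by omega
        have hQx : (Q : ℝ) ≤ x := hQq.trans (by exact_mod_cast hqx)
        have hlx : L ≤ Real.log x := by rw [hL]; exact Real.log_le_log hQ0 hQx
        have hlx0 : 0 < Real.log x := by linarith
        have hlxh : Real.log ((x + h : ℕ) : ℝ) ≤ (1 + κ' / 16) * Real.log x := by
          have h4 : (0 : ℝ) < ((x + h : ℕ) : ℝ) := by exact_mod_cast (by omega : 0 < x + h)
          have h5 := Real.log_le_log h4 hxh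
          rw [Real.log_mul hQ0.ne' (Real.exp_pos _).ne', Real.log_exp, ← hL] at h5
          have h6 : (1 + κ' / 16) * L ≤ (1 + κ' / 16) * Real.log x := by gcongr
          linarith
        have hφ : (0 : ℝ) < (Nat.totient q : ℝ) := by exact_mod_cast Nat.totient_pos.2 hq0n
        have h6 : 0 ≤ (h : ℝ) / Nat.totient q := by positivity
        rw [abs_le]
        constructor
        · have h4 := h3.1
          have h5 : (lam i - κ' / 2) * ((h : ℝ) / Nat.totient q) ≤ psiN (x + h) q (c i) - psiN x q (c i) := by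
            refine le_trans ?_ (psiN_ge hx1)
            calc (lam i - κ' / 2) * ((h : ℝ) / Nat.totient q) =
                  Real.log x * ((lam i - κ' / 2) * ((h : ℝ) / (Nat.totient q * Real.log x))) := by field_simp
              _ ≤ _ := by gcongr
          have h7 : 0 ≤ κ' / 2 * ((h : ℝ) / Nat.totient q) := by positivity
          linarith
        · have h4 := h3.2
          have h5 : psiN (x + h) q (c i) - psiN x q (c i) ≤ Real.log ((x + h : ℕ) : ℝ) * (wc x h q (c i) : ℝ) := by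
            apply psiN_le
            intro n hn1 hn2 hn3 hn4
            by_contra hn5
            apply hnp i
            unfold Npp
            rw [mem_filter]
            refine ⟨hci i, n, ?_, hn3, hn4, hn5⟩
            unfold Xp
            apply Nat.le_floor
            have h6 : (n : ℝ) ≤ ((x + h : ℕ) : ℝ) := by exact_mod_cast hn2
            refine h6.trans (hxh.trans ?_)
            have h7 : Real.exp (κ' / 16 * L) ≤ Real.exp (Real.log Q / 4) := by
              apply Real.exp_le_exp.2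
              rw [← hL]
              have : κ' / 16 * L ≤ 1 / 64 * L := mul_le_mul_of_nonneg_right (by linarith) hL0.le
              linarith
            gcongr
          have hwn : (0 : ℝ) ≤ (wc x h q (c i) : ℝ) := Nat.cast_nonneg _
          have hl2 := (hl i).2
          have hl1 := (hl i).1
          have h7 : Real.log ((x + h : ℕ) : ℝ) * (wc x h q (c i) : ℝ) ≤ (lam i + κ') * ((h : ℝ) / Nat.totient q) := by
            calc Real.log ((x + h : ℕ) : ℝ) * (wc x h q (c i) : ℝ) ≤ ((1 + κ' / 16) * Real.log x) * (wc x h q (c i) : ℝ) := by gcongr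
              _ ≤ ((1 + κ' / 16) * Real.log x) * ((lam i + κ' / 2) * ((h : ℝ) / (Nat.totient q * Real.log x))) := by gcongr
              _ = ((1 + κ' / 16) * (lam i + κ' / 2)) * ((h : ℝ) / Nat.totient q) := by field_simp
              _ ≤ _ := by
                  apply mul_le_mul_of_nonneg_right _ h6
                  nlinarith
          linarith
    have h3 := (card_le_card hsub2).trans (card_union_le _ _)
    have h4 : (((Tp K q).filter (fun c => ¬ FitsV b ε κ' Λ q c lam)).card : ℝ) ≤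
        (((Tp K q).filter (fun c => ¬ ∃ u, u < R / q ∧ ∀ i, Rat b (lam i) (κ' / 4) C Q q (c i + u * q))).card : ℝ) +
        (((Tp K q).filter (fun c => ∃ i, c i ∈ Npp (Xp Q) q)).card : ℝ) := by exact_mod_cast h3
    refine h4.trans ?_
    have h5 : (K : ℝ) * (κ / (2 * (K + 1))) ≤ κ / 2 := by
      have e1 : (K : ℝ) * (κ / (2 * (K + 1))) = κ / 2 * (K / (K + 1)) := by field_simp
      have e2 : (K : ℝ) / (K + 1) ≤ 1 := by rw [div_le_one (by positivity)]; linarith
      rw [e1]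
      calc κ / 2 * (K / (K + 1)) ≤ κ / 2 * 1 := by gcongr
        _ = κ / 2 := mul_one _
    have h6 : (0 : ℝ) ≤ (Nat.totient q : ℝ) ^ K := by positivity
    have h7 := mul_le_mul_of_nonneg_right h5 h6
    have hfew' : (((Tp K q).filter (fun c => ∃ i, c i ∈ Npp (Xp Q) q)).card : ℝ) ≤ K * (κ / (2 * (K + 1))) * (Nat.totient q : ℝ) ^ K := by
      refine le_trans (le_of_eq ?_) hfew
      congr 2
    linarith
  exact_mod_cast card_le_card hsub

open Classical in
/-- one vector, all signs -/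
theorem one_vec (K : ℕ) (b : ℝ) (hb1 : 1 < b) (ε : ℝ) (hε : 0 < ε) : ∃ δ : ℝ, 0 < δ ∧ δ ≤ 1 / 2 ∧
    ∀ t : Fin K → ℝ, (∀ i, |t i - 1| ≤ δ) → ∀ κ' : ℝ, 0 < κ' → κ' ≤ 1 / 4 → ∀ Λ κ : ℝ, 0 < κ → ∀ᶠ Q : ℕ in atTop,
      (((Ioc Q (2 * Q)).filter (fun q : ℕ => ¬ (((Tp K q).filter (fun c => ¬ FitsV b ε κ' Λ q c t)).card : ℝ) ≤
        κ * (Nat.totient q : ℝ) ^ K)).card : ℝ) ≤ κ * Q := by
  choose d hd0 hd2 hd using fun s : Fin K → Bool => one_vector b hb1 ε hε s
  obtain ⟨δ, hδ, hδ'⟩ := fin_gap (Set.univ : Set (Fin K → Bool)) Set.finite_univ d (fun s _ => hd0 s)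
  refine ⟨min δ (1 / 2), lt_min hδ (by norm_num), min_le_right _ _, fun t ht κ' hκ' hκ'1 Λ κ hκ => ?_⟩
  apply hd (fun i => decide (1 ≤ t i)) t _ κ' hκ' hκ'1 Λ κ hκ
  intro i
  have h1 := abs_le.1 (ht i)
  have h2 := hδ' (fun i => decide (1 ≤ t i)) (Set.mem_univ _)
  have h3 : min δ (1 / 2) ≤ δ := min_le_left _ _
  unfold sgB
  by_cases h4 : 1 ≤ t i
  · simp only [h4, decide_true, if_true]
    constructor
    · linarith
    · linarith [h1.2]
  · simp only [h4, decide_false, Bool.false_eq_true, if_false]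
    push Not at h4
    constructor
    · linarith
    · linarith [h1.1]

open Classical in
/-- **the box theorem** -/
theorem joint_box (K : ℕ) (b : ℝ) (hb1 : 1 < b) (ε : ℝ) (hε : 0 < ε) :
    ∃ δ : ℝ, 0 < δ ∧ ∀ κ' Λ η : ℝ, 0 < κ' → 0 < η → Tendsto (fun X : ℕ => (((Icc 1 X).filter (fun q : ℕ =>
      ¬ (((Tp K q).filter (fun c => ¬ ∀ t : Fin K → ℝ, (∀ i, |t i - 1| ≤ δ) → FitsV b ε κ' Λ q c t)).card : ℝ) ≤
        η * (Nat.totient q : ℝ) ^ K)).card : ℝ) / X) atTop (𝓝 0) := by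
  obtain ⟨c, hc, hc1, h⟩ := one_vec K b hb1 ε hε
  refine ⟨c, hc, fun κ' Λ η hκ' hη => ?_⟩
  apply dyadic
  intro κ hκ
  obtain ⟨r, hr⟩ : ∃ r : ℝ, r = min (κ' / 2) (1 / 4) := ⟨_, rfl⟩
  have hr0 : 0 < r := by rw [hr]; exact lt_min (by linarith) (by norm_num)
  have hr1 : r ≤ κ' / 2 := by rw [hr]; exact min_le_left _ _
  have hr2 : r ≤ 1 / 4 := by rw [hr]; exact min_le_right _ _
  -- the net
  obtain ⟨m, hm⟩ := exists_nat_gt (2 * c / r)
  have hm0 : 0 < m := by
    have : (0 : ℝ) < m := lt_of_le_of_lt (by positivity) hm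
    exact_mod_cast this
  have hmr : (0 : ℝ) < m := by exact_mod_cast hm0
  have hnet : ∀ lam : ℝ, |lam - 1| ≤ c → ∃ i : Fin (m + 1), |(1 - c + 2 * c * i / m) - lam| ≤ r := by
    intro lam hlam
    rw [abs_le] at hlam
    obtain ⟨t, ht⟩ : ∃ t : ℝ, t = (lam - 1 + c) / (2 * c) * m := ⟨_, rfl⟩
    have ht0 : 0 ≤ t := by
      rw [ht]
      have : 0 ≤ lam - 1 + c := by linarith [hlam.1]
      positivity
    have htm : t ≤ m := by
      rw [ht]
      apply mul_le_of_le_one_left hmr.le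
      rw [div_le_one (by linarith)]
      linarith [hlam.2]
    have hl : lam = 1 - c + 2 * c * t / m := by
      rw [ht]; field_simp; ring
    have h1 := Nat.floor_le ht0
    have h2 := Nat.lt_floor_add_one t
    have hfm : (⌊t⌋₊ : ℝ) ≤ m := h1.trans htm
    have hfm' : ⌊t⌋₊ ≤ m := by exact_mod_cast hfm
    refine ⟨⟨⌊t⌋₊, by omega⟩, ?_⟩
    rw [hl]
    have e1 : (1 - c + 2 * c * ((⟨⌊t⌋₊, by omega⟩ : Fin (m + 1)) : ℕ) / m) - (1 - c + 2 * c * t / m) = -(2 * c / m * (t - ⌊t⌋₊)) := by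
      simp only
      ring
    rw [e1, abs_neg, abs_of_nonneg (mul_nonneg (by positivity) (by linarith))]
    have e2 : 2 * c / m ≤ r := by
      rw [div_le_iff₀ hmr]
      rw [div_lt_iff₀ hr0] at hm
      linarith
    calc 2 * c / m * (t - ⌊t⌋₊) ≤ r * 1 := by
          apply mul_le_mul e2 (by linarith) (by linarith) hr0.le
      _ = r := mul_one r
  have hin : ∀ i : Fin (m + 1), |(1 - c + 2 * c * (i : ℝ) / m) - 1| ≤ c := by
    intro i
    have e3 : 0 ≤ 2 * c * (i : ℝ) / m := by positivity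
    have e4 : 2 * c * (i : ℝ) / m ≤ 2 * c := by
      rw [div_le_iff₀ hmr]
      have h5 : ((i : ℕ) : ℝ) ≤ m := by exact_mod_cast Nat.lt_succ_iff.1 i.2
      have : 2 * c * (i : ℝ) ≤ 2 * c * m := by gcongr
      linarith
    rw [abs_le]
    constructor <;> linarith
  obtain ⟨n, hn⟩ : ∃ n : ℝ, n = (Fintype.card (Fin K → Fin (m + 1)) : ℝ) := ⟨_, rfl⟩
  have hn0 : 0 < n := by rw [hn]; exact_mod_cast Fintype.card_pos
  obtain ⟨κ1, hκ1⟩ : ∃ κ1 : ℝ, κ1 = min (κ / n) (η / n) := ⟨_, rfl⟩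
  have hκ10 : 0 < κ1 := by rw [hκ1]; exact lt_min (by positivity) (by positivity)
  have hκ11 : n * κ1 ≤ κ := by
    have h1 : κ1 ≤ κ / n := by rw [hκ1]; exact min_le_left _ _
    calc n * κ1 ≤ n * (κ / n) := by gcongr
      _ = κ := by field_simp
  have hκ12 : n * κ1 ≤ η := by
    have h1 : κ1 ≤ η / n := by rw [hκ1]; exact min_le_right _ _
    calc n * κ1 ≤ n * (η / n) := by gcongr
      _ = η := by field_simp
  obtain ⟨pt, hpt⟩ : ∃ pt : (Fin K → Fin (m + 1)) → Fin K → ℝ, pt = fun f i => 1 - c + 2 * c * (f i : ℝ) / m := ⟨_, rfl⟩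
  have hall := eventually_all.2 (fun f : Fin K → Fin (m + 1) => h (pt f) (fun i => by rw [hpt]; exact hin (f i)) r hr0 hr2 Λ κ1 hκ10)
  filter_upwards [hall] with Q h1
  have h2 : (Ioc Q (2 * Q)).filter (fun q : ℕ => ¬ (((Tp K q).filter (fun c' => ¬ ∀ t : Fin K → ℝ, (∀ i, |t i - 1| ≤ c) → FitsV b ε κ' Λ q c' t)).card : ℝ) ≤
        η * (Nat.totient q : ℝ) ^ K) ⊆
      (univ : Finset (Fin K → Fin (m + 1))).biUnion (fun f => (Ioc Q (2 * Q)).filter (fun q : ℕ =>
        ¬ (((Tp K q).filter (fun c' => ¬ FitsV b ε r Λ q c' (pt f))).card : ℝ) ≤ κ1 * (Nat.totient q : ℝ) ^ K)) := by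
    intro q hq
    rw [mem_filter] at hq
    rw [mem_biUnion]
    by_contra hcon
    apply hq.2
    have h3 : ∀ f, (((Tp K q).filter (fun c' => ¬ FitsV b ε r Λ q c' (pt f))).card : ℝ) ≤ κ1 * (Nat.totient q : ℝ) ^ K := by
      intro f
      by_contra h
      exact hcon ⟨f, mem_univ f, mem_filter.2 ⟨hq.1, h⟩⟩
    have h4 : (Tp K q).filter (fun c' => ¬ ∀ t : Fin K → ℝ, (∀ i, |t i - 1| ≤ c) → FitsV b ε κ' Λ q c' t) ⊆
        (univ : Finset (Fin K → Fin (m + 1))).biUnion (fun f => (Tp K q).filter (fun c' => ¬ FitsV b ε r Λ q c' (pt f))) := by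
      intro c' hc'
      rw [mem_filter] at hc'
      rw [mem_biUnion]
      by_contra hcon2
      apply hc'.2
      intro t ht
      choose f hf using fun i => hnet (t i) (ht i)
      have h5 : FitsV b ε r Λ q c' (pt f) := by
        by_contra h6
        exact hcon2 ⟨f, mem_univ f, mem_filter.2 ⟨hc'.1, h6⟩⟩
      apply h5.mono
      intro i
      have h6 := hf i
      rw [hpt]
      simp only
      linarith
    have h5 := (card_le_card h4).trans card_biUnion_le
    have h6 : (((Tp K q).filter (fun c' => ¬ ∀ t : Fin K → ℝ, (∀ i, |t i - 1| ≤ c) → FitsV b ε κ' Λ q c' t)).card : ℝ) ≤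
        ∑ f : Fin K → Fin (m + 1), (((Tp K q).filter (fun c' => ¬ FitsV b ε r Λ q c' (pt f))).card : ℝ) := by exact_mod_cast h5
    refine h6.trans ((sum_le_sum fun f _ => h3 f).trans ?_)
    rw [sum_const, nsmul_eq_mul, card_univ, ← hn, ← mul_assoc]
    exact mul_le_mul_of_nonneg_right hκ12 (by positivity)
  have h3 := (card_le_card h2).trans card_biUnion_le
  have h4 : (((Ioc Q (2 * Q)).filter (fun q : ℕ => ¬ (((Tp K q).filter (fun c' => ¬ ∀ t : Fin K → ℝ, (∀ i, |t i - 1| ≤ c) → FitsV b ε κ' Λ q c' t)).card : ℝ) ≤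
        η * (Nat.totient q : ℝ) ^ K)).card : ℝ) ≤
      ∑ f : Fin K → Fin (m + 1), (((Ioc Q (2 * Q)).filter (fun q : ℕ =>
        ¬ (((Tp K q).filter (fun c' => ¬ FitsV b ε r Λ q c' (pt f))).card : ℝ) ≤ κ1 * (Nat.totient q : ℝ) ^ K)).card : ℝ) := by
    exact_mod_cast h3
  refine h4.trans ((sum_le_sum fun f _ => h1 f).trans ?_)
  rw [sum_const, nsmul_eq_mul, card_univ, ← hn, ← mul_assoc]
  exact mul_le_mul_of_nonneg_right hκ11 (Nat.cast_nonneg _)

end Pool.Agent.H527.G
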